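import Pool.Agent.XD.Defs

/-!
# Exponential lower bounds for constant depth over every field (XDA): definitions

Letters `Fin g × L`: `g` chunks with the same letters `L`, types `ty : L → Bool`. The rows and the
columns of the matrix `cM` are exponent vectors with prescribed degrees in every chunk.
-/

set_option autoImplicit false

namespace Pool.XDA

open Finset Pool.XD

section measure

variable {g : ℕ} {L : Type} [Fintype L] (ty : L → Bool) {K : Type} [CommRing K]

/-- the type of a letter of a chunk -/
def cty (g : ℕ) (l : Fin g × L) : Bool := ty l.2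

/-- the exponent vector with the given parts in the chunks -/
def glu (α : Fin g → L → ℕ) (l : Fin g × L) : ℕ := α l.1 l.2

open Classical in
/-- the entry of the operator of `F` -/
noncomputable def ent {L : Type} [Fintype L] (ty : L → Bool) (F : MvPolynomial L K)
    (α γ : L → ℕ) : K := if Adm ty α γ then MvPolynomial.coeff (gap ty α γ) F else 0

/-- the matrix of the operator of `F`, degrees prescribed in every chunk -/
noncomputable def cM (F : MvPolynomial (Fin g × L) K) (a b a' b' : ℕ) :
    Matrix (Fin g → Box ty a b) (Fin g → Box ty a' b') K :=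
  fun α γ => ent (cty ty g) F (glu fun i => (α i).1) (glu fun i => (γ i).1)

end measure

section code

variable {L W : Type} [DecidableEq L] [DecidableEq W] (ty : L → Bool) (S : W → Finset L)

/-- the exponent of the letters of the words `s i` in the chunks -/
noncomputable def cmon {g : ℕ} (s : Fin g → W) : Fin g × L →₀ ℕ :=
  ∑ i : Fin g, ∑ l ∈ S (s i), Finsupp.single (i, l) 1

/-- the sum of the products of the letters of the words -/
noncomputable def codeP (g : ℕ) [Fintype W] (K : Type) [CommRing K] :
    MvPolynomial (Fin g × L) K :=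
  ∑ s : Fin g → W, ∏ i : Fin g, ∏ l ∈ S (s i), MvPolynomial.X (i, l)

/-- no other word has all its letters of type `b` in `δ` and `S s` -/
def Gd (b : Bool) (s : W) (δ : L → ℕ) : Prop :=
  ∀ s', s' ≠ s → ∃ l ∈ S s', ty l = b ∧ l ∉ S s ∧ δ l = 0

/-- `𝒥` is a family of sets of letters of type `b`, one of which is contained in every other word,
outside the word `s` -/
def Alt (b : Bool) (s : W) (𝒥 : Finset (Finset L)) : Prop :=
  ∀ s', s' ≠ s → ∃ J ∈ 𝒥, ∀ l ∈ J, l ∈ S s' ∧ ty l = b ∧ l ∉ S s

/-- the code is sparse: every word has few alternatives with respect to the weight `H` -/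
def Sparse (b : Bool) (H : ℝ) : Prop :=
  ∀ s, ∃ 𝒥 : Finset (Finset L), Alt ty S b s 𝒥 ∧ (∀ J ∈ 𝒥, ∀ l ∈ J, ty l = b) ∧
    ∑ J ∈ 𝒥, (H ^ J.card)⁻¹ ≤ 1 / 4

end code

section words

variable {k : ℕ} (l : ℕ)

/-- the bit `i` of the word `t` (`false` outside) -/
def bit (t : Fin k → Bool) (i : ℕ) : Bool := if h : i < k then t ⟨i, h⟩ else false

/-- the content of the block `j`: the bits `j, j - 1, ..., j - l` -/
def win (t : Fin k → Bool) (j : ℕ) : Fin (l + 1) → Bool :=
  fun c => if c.1 ≤ j then bit t (j - c.1) else false

/-- the letters of a chunk: block and content -/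
abbrev Lt (k l : ℕ) : Type := Fin (k + l) × (Fin (l + 1) → Bool)

/-- the letters of a word -/
def ltS (t : Fin k → Bool) : Finset (Lt k l) := univ.image fun j : Fin (k + l) => (j, win l t j)

/-- the type of a letter is the type of its block -/
def lty {l : ℕ} (τ : ℕ → Bool) (x : Lt k l) : Bool := τ x.1

/-- the number of the blocks of type `b` in `[p, q)` -/
def cnt (τ : ℕ → Bool) (b : Bool) (p q : ℕ) : ℕ := ((Ico p q).filter fun j => τ j = b).card

/-- balanced types: `H ^ (number of blocks of type b)` is at least `2 ^ length / H` -/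
def Bal (τ : ℕ → Bool) (b : Bool) (H : ℝ) : Prop :=
  ∀ p q : ℕ, p ≤ q → (2 : ℝ) ^ (q - p) ≤ H * H ^ cnt τ b p q

end words

end Pool.XDA
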