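import Pool.Agent.XD.Measure
import Pool.Agent.XDA.Defs

/-!
# XDA: the measure with arbitrary rows and columns, and chunks

`opS ty F ρ γ` is the matrix of the operator of `F` between two families of exponent vectors.
The rank for a product is at most the number of exponent vectors in between (`rank_between`).
`opC` is the case of `g` chunks of letters with prescribed degrees in every chunk.
-/

set_option autoImplicit false
set_option linter.unusedSectionVars false
set_option linter.unnecessarySeqFocus false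
set_option linter.unusedVariables false

namespace Pool.XDA

open Finset Pool.XD

section general

variable {L : Type} [Fintype L] (ty : L → Bool) {I J : Type}

open Classical in
/-- the matrix of the operator of `F` between two families of exponent vectors -/
noncomputable def opS {K : Type} [CommRing K] (F : MvPolynomial L K) (ρ : I → L → ℕ)
    (γ : J → L → ℕ) : Matrix I J K :=
  fun i j => if Adm ty (ρ i) (γ j) then MvPolynomial.coeff (gap ty (ρ i) (γ j)) F else 0

variable {K : Type} [Field K]

theorem opS_add (A B : MvPolynomial L K) (ρ : I → L → ℕ) (γ : J → L → ℕ) :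
    opS ty (A + B) ρ γ = opS ty A ρ γ + opS ty B ρ γ := by
  classical
  ext i j
  rw [Matrix.add_apply, opS, opS, opS]
  by_cases h : Adm ty (ρ i) (γ j)
  · rw [if_pos h, if_pos h, if_pos h, MvPolynomial.coeff_add]
  · rw [if_neg h, if_neg h, if_neg h, add_zero]

theorem opS_zero (ρ : I → L → ℕ) (γ : J → L → ℕ) :
    opS ty (0 : MvPolynomial L K) ρ γ = 0 := by
  classical
  ext i j
  rw [Matrix.zero_apply, opS]
  by_cases h : Adm ty (ρ i) (γ j)
  · rw [if_pos h, MvPolynomial.coeff_zero]
  · rw [if_neg h]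

theorem opS_sum {ι : Type} (s : Finset ι) (A : ι → MvPolynomial L K) (ρ : I → L → ℕ)
    (γ : J → L → ℕ) : opS ty (∑ i ∈ s, A i) ρ γ = ∑ i ∈ s, opS ty (A i) ρ γ := by
  classical
  induction s using Finset.induction_on with
  | empty => rw [Finset.sum_empty, Finset.sum_empty, opS_zero]
  | insert i s hi ih => rw [Finset.sum_insert hi, Finset.sum_insert hi, opS_add, ih]

/-- the matrix of a product, through all the exponent vectors in between -/
theorem opS_mul {A B : MvPolynomial L K} {x y : ℕ} (hA : A ∈ VV ty K x) (hB : B ∈ UU ty K y)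
    (ρ : I → L → ℕ) (γ : J → L → ℕ) (Z : Finset (L → ℕ))
    (hZ : ∀ i j β, Adm ty (ρ i) β → Adm ty β (γ j) →
      (∑ l, if ty l then 0 else β l) = (∑ l, if ty l then 0 else ρ i l) + x →
      (∑ l, if ty l then β l else 0) = (∑ l, if ty l then γ j l else 0) + y → β ∈ Z) :
    opS ty (A * B) ρ γ = opS ty A ρ (fun β : Z => β.1) * opS ty B (fun β : Z => β.1) γ := by
  classical
  ext i j
  rw [Matrix.mul_apply]
  by_cases hag : Adm ty (ρ i) (γ j)
  · rw [opS, if_pos hag, MvPolynomial.coeff_mul]
    have e1 : ∑ p ∈ antidiagonal (gap ty (ρ i) (γ j)), MvPolynomial.coeff p.1 A *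
        MvPolynomial.coeff p.2 B =
        ∑ p ∈ (antidiagonal (gap ty (ρ i) (γ j))).filter
          (fun p => (∑ l, if ty l then 0 else p.1 l) = x ∧
          (∑ l, if ty l then p.2 l else 0) = y), MvPolynomial.coeff p.1 A *
            MvPolynomial.coeff p.2 B := by
      symm
      apply Finset.sum_subset (Finset.filter_subset _ _)
      intro p hp hp2
      rw [Finset.mem_filter, not_and] at hp2
      have h3 := hp2 hp
      rw [not_and_or] at h3
      rcases h3 with h3 | h3
      · rw [coeff_VV ty hA h3, zero_mul]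
      · rw [coeff_UU ty hB h3, mul_zero]
    have e2 : ∑ β : Z, opS ty A ρ (fun β : Z => β.1) i β * opS ty B (fun β : Z => β.1) γ β j =
        ∑ β ∈ Z.filter (fun β => (Adm ty (ρ i) β ∧ Adm ty β (γ j)) ∧
          ((∑ l, if ty l then 0 else gap ty (ρ i) β l) = x ∧
          (∑ l, if ty l then gap ty β (γ j) l else 0) = y)),
          MvPolynomial.coeff (gap ty (ρ i) β) A * MvPolynomial.coeff (gap ty β (γ j)) B := by
      rw [Finset.sum_filter]
      have e3 := Finset.sum_coe_sort Z (fun β => (if Adm ty (ρ i) β then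
        MvPolynomial.coeff (gap ty (ρ i) β) A else 0) * (if Adm ty β (γ j) then
          MvPolynomial.coeff (gap ty β (γ j)) B else 0))
      refine e3.trans (Finset.sum_congr rfl fun β _ => ?_)
      by_cases h1 : Adm ty (ρ i) β
      · by_cases h2 : Adm ty β (γ j)
        · rw [if_pos h1, if_pos h2]
          by_cases h3 : (∑ l, if ty l then 0 else gap ty (ρ i) β l) = x
          · by_cases h4 : (∑ l, if ty l then gap ty β (γ j) l else 0) = y
            · rw [if_pos ⟨⟨h1, h2⟩, h3, h4⟩]
            · rw [coeff_UU ty hB h4, mul_zero, if_neg fun h => h4 h.2.2]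
          · rw [coeff_VV ty hA h3, zero_mul, if_neg fun h => h3 h.2.1]
        · rw [if_neg h2, mul_zero, if_neg fun h => h2 h.1.2]
      · rw [if_neg h1, zero_mul, if_neg fun h => h1 h.1.1]
    rw [e1, e2]
    symm
    refine Finset.sum_bij' (fun β _ => (gap ty (ρ i) β, gap ty β (γ j)))
      (fun p _ => stp ty (ρ i) p.1) ?_ ?_ ?_ ?_ ?_
    · intro β hβ
      rw [Finset.mem_filter] at hβ
      rw [Finset.mem_filter, HasAntidiagonal.mem_antidiagonal]
      exact ⟨gap_add ty hβ.2.1.1 hβ.2.1.2, hβ.2.2⟩
    · intro p hp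
      rw [Finset.mem_filter, HasAntidiagonal.mem_antidiagonal] at hp
      rw [Finset.mem_filter]
      have h1 := gap_stp ty hag hp.1
      refine ⟨hZ i j _ h1.1 h1.2.1 ?_ ?_, ⟨h1.1, h1.2.1⟩, ?_, ?_⟩
      · rw [sum_stp_false, hp.2.1]
      · rw [sum_stp_true ty hag hp.1, hp.2.2]
      · rw [h1.2.2.1]
        exact hp.2.1
      · rw [h1.2.2.2]
        exact hp.2.2
    · intro β hβ
      rw [Finset.mem_filter] at hβ
      funext l
      have h1 := hβ.2.1.1 l
      show stp ty (ρ i) (gap ty (ρ i) β) l = β l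
      rw [stp, gap_apply]
      cases h3 : ty l <;> simp only [h3, if_true, if_false, Bool.false_eq_true] at h1 ⊢ <;> omega
    · intro p hp
      rw [Finset.mem_filter, HasAntidiagonal.mem_antidiagonal] at hp
      have h1 := gap_stp ty hag hp.1
      exact Prod.ext h1.2.2.1 h1.2.2.2
    · intro β hβ
      rfl
  · rw [opS, if_neg hag]
    symm
    apply Finset.sum_eq_zero
    intro β _
    rw [opS, opS]
    by_cases h1 : Adm ty (ρ i) β.1
    · by_cases h2 : Adm ty β.1 (γ j)
      · exact absurd (h1.trans ty h2) hag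
      · rw [if_neg h2, mul_zero]
    · rw [if_neg h1, zero_mul]

/-- THE RANK FOR A PRODUCT -/
theorem rank_between [Fintype I] [Fintype J] {A B : MvPolynomial L K} {x y : ℕ}
    (hA : A ∈ VV ty K x) (hB : B ∈ UU ty K y)
    (ρ : I → L → ℕ) (γ : J → L → ℕ) (Z : Finset (L → ℕ))
    (hZ : ∀ i j β, Adm ty (ρ i) β → Adm ty β (γ j) →
      (∑ l, if ty l then 0 else β l) = (∑ l, if ty l then 0 else ρ i l) + x →
      (∑ l, if ty l then β l else 0) = (∑ l, if ty l then γ j l else 0) + y → β ∈ Z) :
    (opS ty (A * B) ρ γ).rank ≤ Z.card := by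
  classical
  rw [opS_mul ty hA hB ρ γ Z hZ]
  refine (Matrix.rank_mul_le_left _ _).trans ((Matrix.rank_le_card_width _).trans ?_)
  rw [Fintype.card_coe]

/-- the rank for a sum of products: the number of exponent vectors in between is at most
`hv ^ x * hu ^ y * D` for a factor of degree `x` in the letters of type `false` and a factor of
degree `y` in the letters of type `true` -/
theorem rank_opS_le [Fintype I] [Fintype J] (ρ : I → L → ℕ) (γ : J → L → ℕ) {HU HV D : ℝ}
    (hD : 0 ≤ D) (Z : ℕ → ℕ → Finset (L → ℕ))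
    (hZ : ∀ x y i j β, Adm ty (ρ i) β → Adm ty β (γ j) →
      (∑ l, if ty l then 0 else β l) = (∑ l, if ty l then 0 else ρ i l) + x →
      (∑ l, if ty l then β l else 0) = (∑ l, if ty l then γ j l else 0) + y → β ∈ Z x y)
    (hcard : ∀ x y, ((Z x y).card : ℝ) ≤ HV ^ x * HU ^ y * D)
    (F : MvPolynomial L K) {κ : ℝ} (h : Pool.CD.Nu (VV ty K) (UU ty K) HV HU F κ) :
    ((opS ty F ρ γ).rank : ℝ) ≤ κ * D := by
  classical
  obtain ⟨ι, hι, x, y, A, B, h1, h2, h3, h4⟩ := h
  have h5 : (opS ty F ρ γ).rank ≤ ∑ i, (opS ty (A i * B i) ρ γ).rank := by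
    rw [h3, opS_sum]
    exact matrix_rank_sum_le _ _
  have h6 : ((opS ty F ρ γ).rank : ℝ) ≤ ∑ i, ((opS ty (A i * B i) ρ γ).rank : ℝ) := by
    exact_mod_cast h5
  calc ((opS ty F ρ γ).rank : ℝ) ≤ ∑ i, ((opS ty (A i * B i) ρ γ).rank : ℝ) := h6
    _ ≤ ∑ i, (HV ^ x i * HU ^ y i) * D := by
        refine Finset.sum_le_sum fun i _ => le_trans ?_ (hcard (x i) (y i))
        exact_mod_cast rank_between ty (h1 i) (h2 i) ρ γ (Z (x i) (y i))
          (fun i' j β => hZ (x i) (y i) i' j β)
    _ = (∑ i, HV ^ x i * HU ^ y i) * D := (Finset.sum_mul _ _ _).symm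
    _ ≤ κ * D := mul_le_mul_of_nonneg_right h4 hD

end general

section chunks

variable {L : Type} [Fintype L] (ty : L → Bool) (g : ℕ)

variable {ty g} in
/-- the exponent vector of `g` chunks -/
def cvec {a b : ℕ} (α : Fin g → Box ty a b) : Fin g × L → ℕ := glu fun i => (α i).1

theorem cM_eq_opS {K : Type} [CommRing K] (F : MvPolynomial (Fin g × L) K) (a b a' b' : ℕ) :
    cM ty F a b a' b' = opS (cty ty g) F (cvec (ty := ty) (a := a) (b := b))
      (cvec (ty := ty) (a := a') (b := b')) := rfl

open Classical in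
/-- the exponent vectors in between, with prescribed degrees -/
noncomputable def lay (a b r E : ℕ) (P : Fin g → Fin (r + 1) × Fin (E + 1)) :
    Finset (Fin g × L → ℕ) :=
  (univ : Finset ((c : Fin g) → Box ty (a - r + (P c).1.val) (b + (P c).2.val))).image
    fun β (l : Fin g × L) => (β l.1).1 l.2

/-- the degrees -/
def prof (r E x y : ℕ) : Finset (Fin g → Fin (r + 1) × Fin (E + 1)) :=
  univ.filter fun P => ∑ c, (P c).1.val = y ∧ ∑ c, (P c).2.val = x

open Classical in
/-- the exponent vectors in between -/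
noncomputable def mid (a b r E x y : ℕ) : Finset (Fin g × L → ℕ) :=
  (prof g r E x y).biUnion fun P => lay ty g a b r E P

variable {K : Type} [Field K]

theorem mem_mid {a b r E x y : ℕ} (hr : r ≤ a) (α : Fin g → Box ty a b)
    (γ : Fin g → Box ty (a - r) (b + E)) (β : Fin g × L → ℕ)
    (h1 : Adm (cty ty g) (cvec α) β) (h2 : Adm (cty ty g) β (cvec γ))
    (h3 : (∑ l, if cty ty g l then 0 else β l) = (∑ l, if cty ty g l then 0 else cvec α l) + x)
    (h4 : (∑ l, if cty ty g l then β l else 0) = (∑ l, if cty ty g l then cvec γ l else 0) + y) :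
    β ∈ mid ty g a b r E x y := by
  classical
  have hu : ∀ c, a - r ≤ (∑ l, if ty l then β (c, l) else 0) ∧
      (∑ l, if ty l then β (c, l) else 0) ≤ a := by
    intro c
    constructor
    · rw [← (γ c).2.1]
      refine Finset.sum_le_sum fun l _ => ?_
      have h5 := h2 (c, l)
      cases h6 : ty l <;> simp only [cty, cvec, glu, h6, if_true, if_false, Bool.false_eq_true]
        at h5 ⊢ <;> omega
    · conv_rhs => rw [← (α c).2.1]
      refine Finset.sum_le_sum fun l _ => ?_
      have h5 := h1 (c, l)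
      cases h6 : ty l <;> simp only [cty, cvec, glu, h6, if_true, if_false, Bool.false_eq_true]
        at h5 ⊢ <;> omega
  have hv : ∀ c, b ≤ (∑ l, if ty l then 0 else β (c, l)) ∧
      (∑ l, if ty l then 0 else β (c, l)) ≤ b + E := by
    intro c
    constructor
    · conv_lhs => rw [← (α c).2.2]
      refine Finset.sum_le_sum fun l _ => ?_
      have h5 := h1 (c, l)
      cases h6 : ty l <;> simp only [cty, cvec, glu, h6, if_true, if_false, Bool.false_eq_true]
        at h5 ⊢ <;> omega
    · rw [← (γ c).2.2]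
      refine Finset.sum_le_sum fun l _ => ?_
      have h5 := h2 (c, l)
      cases h6 : ty l <;> simp only [cty, cvec, glu, h6, if_true, if_false, Bool.false_eq_true]
        at h5 ⊢ <;> omega
  rw [mid, Finset.mem_biUnion]
  refine ⟨fun c => (⟨(∑ l, if ty l then β (c, l) else 0) - (a - r), ?_⟩,
    ⟨(∑ l, if ty l then 0 else β (c, l)) - b, ?_⟩), ?_, ?_⟩
  · have := hu c
    omega
  · have := hv c
    omega
  · rw [prof, Finset.mem_filter]
    refine ⟨Finset.mem_univ _, ?_, ?_⟩
    · have e1 : (∑ l, if cty ty g l then β l else 0) =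
          ∑ c, ∑ l, if ty l then β (c, l) else 0 := Fintype.sum_prod_type _
      have e2 : (∑ l, if cty ty g l then cvec γ l else 0) = ∑ _c : Fin g, (a - r) := by
        rw [Fintype.sum_prod_type]
        exact Finset.sum_congr rfl fun c _ => (γ c).2.1
      have e3 : ∑ c, ((∑ l, if ty l then β (c, l) else 0) - (a - r)) + ∑ _c : Fin g, (a - r) =
          ∑ c, ∑ l, if ty l then β (c, l) else 0 := by
        rw [← Finset.sum_add_distrib]
        exact Finset.sum_congr rfl fun c _ => Nat.sub_add_cancel (hu c).1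
      rw [e1, e2] at h4
      show ∑ c, ((∑ l, if ty l then β (c, l) else 0) - (a - r)) = y
      omega
    · have e1 : (∑ l, if cty ty g l then 0 else β l) =
          ∑ c, ∑ l, if ty l then 0 else β (c, l) := Fintype.sum_prod_type _
      have e2 : (∑ l, if cty ty g l then 0 else cvec α l) = ∑ _c : Fin g, b := by
        rw [Fintype.sum_prod_type]
        exact Finset.sum_congr rfl fun c _ => (α c).2.2
      have e3 : ∑ c, ((∑ l, if ty l then 0 else β (c, l)) - b) + ∑ _c : Fin g, b =
          ∑ c, ∑ l, if ty l then 0 else β (c, l) := by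
        rw [← Finset.sum_add_distrib]
        exact Finset.sum_congr rfl fun c _ => Nat.sub_add_cancel (hv c).1
      rw [e1, e2] at h3
      show ∑ c, ((∑ l, if ty l then 0 else β (c, l)) - b) = x
      omega
  · rw [lay, Finset.mem_image]
    refine ⟨fun c => ⟨fun l => β (c, l), ?_, ?_⟩, Finset.mem_univ _, ?_⟩
    · show _ = a - r + ((∑ l, if ty l then β (c, l) else 0) - (a - r))
      rw [Nat.add_sub_cancel' (hu c).1]
    · show _ = b + ((∑ l, if ty l then 0 else β (c, l)) - b)
      rw [Nat.add_sub_cancel' (hv c).1]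
    · rfl

theorem card_mid_le {HU HV : ℝ} {a b r E : ℕ} (h0U : 0 < HU) (hr : r ≤ a)
    (h1U : 1 ≤ nU ty) (h1V : 1 ≤ nV ty) (hU : HU * a ≤ nU ty + a - 1)
    (hV : (nV ty : ℝ) + b ≤ HV * (b + 1)) (x y : ℕ) :
    ((mid ty g a b r E x y).card : ℝ) * HU ^ (g * r) ≤
      ((r + 1) * (E + 1)) ^ g * (HV ^ x * HU ^ y) *
        ((nU ty).multichoose a * (nV ty).multichoose b) ^ g := by
  classical
  have hHV : 1 ≤ HV := by
    have h5 : (1 : ℝ) ≤ nV ty := by exact_mod_cast h1V
    have h6 : (0 : ℝ) < (b : ℝ) + 1 := by positivity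
    by_contra hlt
    rw [not_le] at hlt
    have h7 : HV * ((b : ℝ) + 1) < 1 * ((b : ℝ) + 1) := mul_lt_mul_of_pos_right hlt h6
    linarith
  have h0V : 0 < HV := lt_of_lt_of_le one_pos hHV
  set D : ℝ := (nU ty).multichoose a * (nV ty).multichoose b with hD
  -- one profile
  have hone : ∀ P ∈ prof g r E x y,
      ((lay ty g a b r E P).card : ℝ) * HU ^ (g * r) ≤ (HV ^ x * HU ^ y) * D ^ g := by
    intro P hP
    rw [prof, Finset.mem_filter] at hP
    have h1 : (lay ty g a b r E P).card ≤
        ∏ c, ((nU ty).multichoose (a - r + (P c).1.val) *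
          (nV ty).multichoose (b + (P c).2.val)) := by
      rw [lay]
      refine Finset.card_image_le.trans (le_of_eq ?_)
      rw [Finset.card_univ, Fintype.card_pi]
      exact Finset.prod_congr rfl fun c _ => card_box ty _ _
    have h2 : ((lay ty g a b r E P).card : ℝ) ≤
        ∏ c, (((nU ty).multichoose (a - r + (P c).1.val) : ℝ) *
          ((nV ty).multichoose (b + (P c).2.val) : ℝ)) := by
      exact_mod_cast h1
    have h3 : HU ^ (g * r) = ∏ _c : Fin g, HU ^ r := by
      rw [Finset.prod_const, Finset.card_univ, Fintype.card_fin, ← pow_mul, mul_comm]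
    calc ((lay ty g a b r E P).card : ℝ) * HU ^ (g * r)
        ≤ (∏ c, (((nU ty).multichoose (a - r + (P c).1.val) : ℝ) *
          ((nV ty).multichoose (b + (P c).2.val) : ℝ))) * HU ^ (g * r) :=
          mul_le_mul_of_nonneg_right h2 (by positivity)
      _ = ∏ c, ((((nU ty).multichoose (a - r + (P c).1.val) : ℝ) *
          ((nV ty).multichoose (b + (P c).2.val) : ℝ)) * HU ^ r) := by
          rw [h3, ← Finset.prod_mul_distrib]
      _ ≤ ∏ c, (D * (HV ^ (P c).2.val * HU ^ (P c).1.val)) := by
          refine Finset.prod_le_prod (fun c _ => by positivity) fun c _ => ?_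
          have hc : (P c).1.val ≤ r := Nat.lt_succ_iff.1 (P c).1.2
          have h7 : a - r + (P c).1.val = a - (r - (P c).1.val) := by omega
          have h8 := mc_sub' h1U h0U hU (r - (P c).1.val) (by omega)
          rw [← h7] at h8
          have h9 := mc_add hHV hV (P c).2.val
          have h10 : HU ^ r = HU ^ (r - (P c).1.val) * HU ^ (P c).1.val := by
            rw [← pow_add]
            congr 1
            omega
          have p1 : (0 : ℝ) ≤ HU ^ (P c).1.val := by positivity
          have p2 : (0 : ℝ) ≤ ((nU ty).multichoose a : ℝ) := Nat.cast_nonneg _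
          have p3 : (0 : ℝ) ≤ ((nV ty).multichoose (b + (P c).2.val) : ℝ) := Nat.cast_nonneg _
          calc (((nU ty).multichoose (a - r + (P c).1.val) : ℝ) *
              ((nV ty).multichoose (b + (P c).2.val) : ℝ)) * HU ^ r
              = (((nU ty).multichoose (a - r + (P c).1.val) : ℝ) * HU ^ (r - (P c).1.val)) *
                (((nV ty).multichoose (b + (P c).2.val) : ℝ) * HU ^ (P c).1.val) := by
                rw [h10]; ring
            _ ≤ ((nU ty).multichoose a : ℝ) *
                ((((nV ty).multichoose b : ℝ) * HV ^ (P c).2.val) * HU ^ (P c).1.val) :=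
              mul_le_mul h8 (mul_le_mul_of_nonneg_right h9 p1) (mul_nonneg p3 p1) p2
            _ = _ := by rw [hD]; ring
      _ = (HV ^ x * HU ^ y) * D ^ g := by
          have q1 : ∏ c, (D * (HV ^ (P c).2.val * HU ^ (P c).1.val)) =
              (∏ _c : Fin g, D) * ((∏ c, HV ^ (P c).2.val) * ∏ c, HU ^ (P c).1.val) := by
            rw [← Finset.prod_mul_distrib, ← Finset.prod_mul_distrib]
          rw [q1, Finset.prod_pow_eq_pow_sum, Finset.prod_pow_eq_pow_sum, hP.2.1, hP.2.2,
            Finset.prod_const, Finset.card_univ, Fintype.card_fin]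
          ring
  have h4 : ((mid ty g a b r E x y).card : ℝ) ≤
      ∑ P ∈ prof g r E x y, ((lay ty g a b r E P).card : ℝ) := by
    rw [mid]
    exact_mod_cast Finset.card_biUnion_le
  have h5 : ((prof g r E x y).card : ℝ) ≤ ((r + 1) * (E + 1)) ^ g := by
    have h6 := Finset.card_filter_le (univ : Finset (Fin g → Fin (r + 1) × Fin (E + 1)))
      (fun P => ∑ c, (P c).1.val = y ∧ ∑ c, (P c).2.val = x)
    rw [Finset.card_univ, Fintype.card_fun, Fintype.card_prod, Fintype.card_fin, Fintype.card_fin,
      Fintype.card_fin] at h6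
    rw [prof]
    exact_mod_cast h6
  have hD0 : 0 ≤ D := by positivity
  calc ((mid ty g a b r E x y).card : ℝ) * HU ^ (g * r)
      ≤ (∑ P ∈ prof g r E x y, ((lay ty g a b r E P).card : ℝ)) * HU ^ (g * r) :=
        mul_le_mul_of_nonneg_right h4 (by positivity)
    _ ≤ ∑ P ∈ prof g r E x y, (HV ^ x * HU ^ y) * D ^ g := by
        rw [Finset.sum_mul]
        exact Finset.sum_le_sum hone
    _ = ((prof g r E x y).card : ℝ) * ((HV ^ x * HU ^ y) * D ^ g) := by
        rw [Finset.sum_const, nsmul_eq_mul]
    _ ≤ ((r + 1) * (E + 1)) ^ g * ((HV ^ x * HU ^ y) * D ^ g) :=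
        mul_le_mul_of_nonneg_right h5 (by positivity)
    _ = _ := by ring

end chunks

/-- THE COST CONTROLS THE RANK, chunkwise degrees -/
theorem rank_cM_le {g : ℕ} {L : Type} [Fintype L] (ty : L → Bool) {K : Type} [Field K]
    {HU HV : ℝ} {LU LV r E : ℕ} (h0U : 1 ≤ HU) (h0V : 1 ≤ HV) (hr : r ≤ LU)
    (h1U : 1 ≤ nU ty) (h1V : 1 ≤ nV ty) (hU : HU * LU ≤ nU ty + LU - 1)
    (hV : (nV ty : ℝ) + LV ≤ HV * (LV + 1)) (F : MvPolynomial (Fin g × L) K) {κ : ℝ}
    (h : Pool.CD.Nu (VV (cty ty g) K) (UU (cty ty g) K) HV HU F κ) :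
    ((cM ty F LU LV (LU - r) (LV + E)).rank : ℝ) * HU ^ (g * r) ≤
      ((r + 1) * (E + 1) : ℝ) ^ g *
        (κ * ((nU ty).multichoose LU * (nV ty).multichoose LV : ℕ) ^ g) := by
  classical
  have h0 : 0 < HU := lt_of_lt_of_le one_pos h0U
  have hp : (0 : ℝ) < HU ^ (g * r) := by positivity
  have h1 := rank_opS_le (cty ty g) (cvec (ty := ty) (g := g) (a := LU) (b := LV))
    (cvec (ty := ty) (g := g) (a := LU - r) (b := LV + E)) (HU := HU) (HV := HV)
    (D := ((r + 1) * (E + 1)) ^ g * ((nU ty).multichoose LU * (nV ty).multichoose LV) ^ g /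
      HU ^ (g * r)) (by positivity) (fun x y => mid ty g LU LV r E x y)
    (fun x y i j β => mem_mid ty g hr i j β)
    (fun x y => by
      rw [← mul_div_assoc, le_div_iff₀ hp]
      refine (card_mid_le ty g h0 hr h1U h1V hU hV x y).trans (le_of_eq ?_)
      ring) F h
  rw [cM_eq_opS]
  refine (mul_le_mul_of_nonneg_right h1 hp.le).trans (le_of_eq ?_)
  push_cast
  field_simp

end Pool.XDA
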