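import Pool.Agent.XDA.Defs
import Pool.Agent.CDep.Assembly
import Pool.Agent.Helper97.Form.Perm

/-!
# XDA, row F': the code polynomial is a projection of the permanent

* `proj_acy`: the path polynomial of an acyclic graph is a projection of the permanent;
* `cW_eq`: the paths of the graph of the words are the words;
* `perm_code`: the code polynomial is the value of the permanent at a matrix of affine forms.
-/

set_option autoImplicit false
set_option linter.unusedVariables false

namespace Pool.XDA

open Finset Pool.XD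

section proj

open Pool.Agent.Helper97.Form in
/-- the path polynomial of an acyclic graph is a projection of the permanent -/
theorem proj_acy {σ τ : Type} [Fintype τ] [DecidableEq τ] {n : ℕ} (hn : 1 + Fintype.card τ ≤ n)
    (r : τ → ℕ) (a : MvPolynomial σ ℤ) (u v x : τ → MvPolynomial σ ℤ)
    (N : τ → τ → MvPolynomial σ ℤ)
    (hN : ∀ i j, N i j ≠ 0 → r j < r i) (hx : ∀ i, x i = v i + ∑ j, N i j * x j)
    (ha : a.totalDegree ≤ 1) (hu : ∀ i, (u i).totalDegree ≤ 1) (hv : ∀ i, (v i).totalDegree ≤ 1)
    (hNd : ∀ i j, (N i j).totalDegree ≤ 1) :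
    ∃ φ : Fin n × Fin n → MvPolynomial σ ℤ, (∀ p, (φ p).totalDegree ≤ 1) ∧
      MvPolynomial.aeval φ (Pool.CDep.permP n ℤ) = a + ∑ i, u i * x i := by
  classical
  set k0 : ℕ := n - 1 - Fintype.card τ with hk0
  have hn' : Fintype.card (Option (τ ⊕ Fin k0)) = n := by
    rw [Fintype.card_option, Fintype.card_sum, Fintype.card_fin]
    omega
  let e : Fin n ≃ Option (τ ⊕ Fin k0) :=
    (finCongr hn'.symm).trans (Fintype.equivFin _).symm
  let u' : τ ⊕ Fin k0 → MvPolynomial σ ℤ := Sum.elim u fun _ => 0
  let v' : τ ⊕ Fin k0 → MvPolynomial σ ℤ := Sum.elim v fun _ => 0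
  let x' : τ ⊕ Fin k0 → MvPolynomial σ ℤ := Sum.elim x fun _ => 0
  let r' : τ ⊕ Fin k0 → ℕ := Sum.elim r fun _ => 0
  let N' : τ ⊕ Fin k0 → τ ⊕ Fin k0 → MvPolynomial σ ℤ := fun i j =>
    Sum.elim (fun i => Sum.elim (fun j => N i j) (fun _ => 0) j) (fun _ => 0) i
  have hN' : ∀ i j, N' i j ≠ 0 → r' j < r' i := by
    rintro (i | i) (j | j) h
    · exact hN i j h
    all_goals exact absurd rfl h
  have hx' : ∀ i, x' i = v' i + ∑ j, N' i j * x' j := by
    rintro (i | i)
    · rw [Fintype.sum_sum_type]
      have h2 : ∑ j : Fin k0, N' (Sum.inl i) (Sum.inr j) * x' (Sum.inr j) = 0 :=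
        sum_eq_zero fun j _ => zero_mul _
      rw [h2, add_zero]
      exact hx i
    · have h2 : ∑ j, N' (Sum.inr i) j * x' j = 0 := sum_eq_zero fun j _ => zero_mul _
      rw [h2, add_zero]
      rfl
  have hS : ∑ i, u' i * x' i = ∑ i, u i * x i := by
    rw [Fintype.sum_sum_type]
    have h2 : ∑ j : Fin k0, u' (Sum.inr j) * x' (Sum.inr j) = 0 :=
      sum_eq_zero fun j _ => zero_mul _
    rw [h2, add_zero]
    rfl
  let M : Matrix (Option (τ ⊕ Fin k0)) (Option (τ ⊕ Fin k0)) (MvPolynomial σ ℤ) :=
    acy a u' v' N'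
  have hz : (0 : MvPolynomial σ ℤ).totalDegree ≤ 1 := by
    rw [MvPolynomial.totalDegree_zero]
    omega
  have hM : ∀ i j, (M i j).totalDegree ≤ 1 := by
    rintro (_ | i) (_ | j)
    · exact ha
    · rcases j with j | j
      · exact hu j
      · exact hz
    · rcases i with i | i
      · exact hv i
      · exact hz
    · show ((if i = j then 1 else 0) + N' i j).totalDegree ≤ 1
      refine (MvPolynomial.totalDegree_add _ _).trans (max_le ?_ ?_)
      · split_ifs
        · rw [MvPolynomial.totalDegree_one]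
          omega
        · exact hz
      · rcases i with i | i <;> rcases j with j | j
        · exact hNd i j
        all_goals exact hz
  refine ⟨fun p => M (e p.1) (e p.2), fun p => hM _ _, ?_⟩
  rw [← hS, ← perm_acy r' a u' v' x' N' hN' hx', ← permanent_reindex e e]
  have h2 : MvPolynomial.aeval (fun p : Fin n × Fin n => M (e p.1) (e p.2))
      (Pool.CDep.permP n ℤ) =
      ((MvPolynomial.aeval (fun p : Fin n × Fin n => M (e p.1) (e p.2)) :
        MvPolynomial (Fin n × Fin n) ℤ →ₐ[ℤ] MvPolynomial σ ℤ) : _ →+* _)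
        (Pool.CDep.permP n ℤ) := rfl
  rw [h2]
  unfold Pool.CDep.permP
  rw [Pool.CDep.map_permanent']
  congr 1
  refine Matrix.ext fun i j => ?_
  show MvPolynomial.aeval (fun p : Fin n × Fin n => M (e p.1) (e p.2))
    (MvPolynomial.X (i, j)) = _
  rw [MvPolynomial.aeval_X]
  rfl

end proj

section words

variable {A : Type} [CommRing A] (k l : ℕ)

/-- the content of the letter after the state `a` with the new bit `ε` -/
def cont (a : Fin l → Bool) (ε : Bool) : Fin (l + 1) → Bool := Fin.cons ε a

/-- the state after the state `a` with the new bit `ε` -/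
def shf (a : Fin l → Bool) (ε : Bool) : Fin l → Bool := fun c => cont l a ε c.castSucc

/-- the state before the block `j` -/
def st (T : ℕ → Bool) (j : ℕ) : Fin l → Bool := fun c => if c.1 < j then T (j - 1 - c.1) else false

/-- the new bits allowed in the block `j` -/
def okb (j : ℕ) (ε : Bool) : Prop := j < k ∨ ε = false

instance (j : ℕ) (ε : Bool) : Decidable (okb k j ε) := by unfold okb; infer_instance

/-- total weight of the paths of length `m` from the state `a` of the layer `j` -/
def cW (Y : ℕ → (Fin (l + 1) → Bool) → A) : ℕ → ℕ → (Fin l → Bool) → A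
  | 0, _, _ => 1
  | m + 1, j, a => ∑ ε : Bool, if okb k j ε then Y j (cont l a ε) * cW Y m (j + 1) (shf l a ε) else 0

theorem st_update (T : ℕ → Bool) (j : ℕ) (ε : Bool) :
    st l (Function.update T j ε) (j + 1) = shf l (st l T j) ε := by
  funext c
  obtain ⟨c, hc⟩ := c
  unfold shf cont st
  rcases c with _ | c
  · simp
  · show (if c + 1 < j + 1 then Function.update T j ε (j + 1 - 1 - (c + 1)) else false) =
      (if c < j then T (j - 1 - c) else false)
    by_cases h : c < j
    · rw [if_pos (by omega), if_pos h, Function.update_of_ne (by omega)]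
      congr 1
      omega
    · rw [if_neg (by omega), if_neg h]

/-- agreement with `T` below `j` -/
def agr (T : ℕ → Bool) (j : ℕ) (t : Fin k → Bool) : Prop := ∀ i < j, bit t i = T i

theorem bit_ge (t : Fin k → Bool) {i : ℕ} (h : k ≤ i) : bit t i = false := dif_neg (by omega)

theorem win_agr (T : ℕ → Bool) (j : ℕ) (t : Fin k → Bool) (h : agr k T j t) :
    win l t j = cont l (st l T j) (bit t j) := by
  funext c
  obtain ⟨c, hc⟩ := c
  unfold win cont st
  rcases c with _ | c
  · simp
  · show (if c + 1 ≤ j then bit t (j - (c + 1)) else false) =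
      (if c < j then T (j - 1 - c) else false)
    by_cases h1 : c < j
    · rw [if_pos (by omega), if_pos h1, h _ (by omega)]
      congr 1
      omega
    · rw [if_neg (by omega), if_neg h1]

theorem agr_succ (T : ℕ → Bool) (j : ℕ) (ε : Bool) (t : Fin k → Bool) :
    agr k (Function.update T j ε) (j + 1) t ↔ agr k T j t ∧ bit t j = ε := by
  constructor
  · intro h
    refine ⟨fun i hi => ?_, ?_⟩
    · rw [h i (by omega), Function.update_of_ne (by omega)]
    · rw [h j (by omega), Function.update_self]
  · rintro ⟨h1, h2⟩ i hi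
    rcases Nat.lt_succ_iff_lt_or_eq.mp hi with h | h
    · rw [Function.update_of_ne (by omega), h1 i h]
    · subst h
      rw [Function.update_self, h2]

open Classical in
/-- the paths of the graph are the words -/
theorem cW_agr (Y : ℕ → (Fin (l + 1) → Bool) → A) (m : ℕ) : ∀ (j : ℕ) (T : ℕ → Bool),
    j + m = k + l → (∀ i, k ≤ i → T i = false) →
    cW k l Y m j (st l T j) = ∑ t ∈ univ.filter fun t : Fin k → Bool => agr k T j t,
      ∏ i ∈ Ico j (k + l), Y i (win l t i) := by
  induction m with
  | zero =>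
    intro j T hj hT
    have h1 : (univ.filter fun t : Fin k → Bool => agr k T j t) = {fun i : Fin k => T i} := by
      ext t
      rw [mem_filter, mem_singleton]
      constructor
      · rintro ⟨-, h⟩
        funext i
        have := h i (by have := i.2; omega)
        unfold bit at this
        rw [dif_pos i.2] at this
        exact this
      · rintro rfl
        refine ⟨mem_univ _, fun i hi => ?_⟩
        unfold bit
        split_ifs with h
        · rfl
        · exact (hT i (by omega)).symm
    rw [h1, sum_singleton, show j = k + l by omega, Ico_self, prod_empty]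
    rfl
  | succ m ih =>
    intro j T hj hT
    show ∑ ε : Bool, (if okb k j ε then Y j (cont l (st l T j) ε) *
      cW k l Y m (j + 1) (shf l (st l T j) ε) else 0) = _
    have h1 : ∑ t ∈ univ.filter fun t : Fin k → Bool => agr k T j t,
        ∏ i ∈ Ico j (k + l), Y i (win l t i) =
        ∑ ε : Bool, ∑ t ∈ (univ.filter fun t : Fin k → Bool => agr k T j t).filter
          (fun t => bit t j = ε), ∏ i ∈ Ico j (k + l), Y i (win l t i) :=
      (sum_fiberwise _ _ _).symm
    rw [h1]
    refine sum_congr rfl fun ε _ => ?_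
    by_cases hok : okb k j ε
    · rw [if_pos hok, ← st_update, ih (j + 1) (Function.update T j ε) (by omega) ?_, mul_sum]
      · have h2 : (univ.filter fun t : Fin k → Bool => agr k (Function.update T j ε) (j + 1) t) =
            (univ.filter fun t : Fin k → Bool => agr k T j t).filter (fun t => bit t j = ε) := by
          ext t
          rw [mem_filter, mem_filter, mem_filter, agr_succ]
          tauto
        rw [h2]
        refine sum_congr rfl fun t ht => ?_
        rw [mem_filter, mem_filter] at ht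
        have h3 : ∏ i ∈ Ico j (k + l), Y i (win l t i) =
            Y j (win l t j) * ∏ i ∈ Ico (j + 1) (k + l), Y i (win l t i) :=
          prod_eq_prod_Ico_succ_bot (by omega) _
        rw [h3, win_agr k l T j t ht.1.2, ht.2]
      · intro i hi
        by_cases h : i = j
        · subst h
          rw [Function.update_self]
          rcases hok with h | h
          · omega
          · exact h
        · rw [Function.update_of_ne h]
          exact hT i hi
    · rw [if_neg hok]
      symm
      refine sum_eq_zero fun t ht => ?_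
      exfalso
      rw [mem_filter] at ht
      apply hok
      by_cases hjk : j < k
      · exact Or.inl hjk
      · exact Or.inr (by rw [← ht.2]; exact bit_ge k t (by omega))

theorem cW_eq (Y : ℕ → (Fin (l + 1) → Bool) → A) :
    cW k l Y (k + l) 0 (fun _ => false) = ∑ t : Fin k → Bool,
      ∏ i ∈ range (k + l), Y i (win l t i) := by
  classical
  have h := cW_agr k l Y (k + l) 0 (fun _ => false) (by omega) fun _ _ => rfl
  have h1 : st l (fun _ => false) 0 = fun _ => false := by
    funext c
    exact if_neg (by omega)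
  rw [h1] at h
  rw [h, range_eq_Ico]
  refine sum_congr ?_ fun _ _ => rfl
  ext t
  rw [mem_filter]
  exact ⟨fun _ => mem_univ _, fun _ => ⟨mem_univ _, fun i hi => absurd hi (by omega)⟩⟩

end words

section graph

variable {A : Type} [CommRing A] (g k l : ℕ) (Y : ℕ → ℕ → (Fin (l + 1) → Bool) → A)

/-- the vertices: chunk, block, state -/
abbrev Vc : Type := Fin g × Fin (k + l) × (Fin l → Bool)

/-- total weight of the chunks `i, ..., i + m - 1` -/
def cQ : ℕ → ℕ → A
  | 0, _ => 1
  | m + 1, i => cW k l (Y i) (k + l) 0 (fun _ => false) * cQ m (i + 1)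

/-- the edges -/
def cN (p q : Vc g k l) : A :=
  (if (q.1 : ℕ) = p.1 ∧ (q.2.1 : ℕ) = p.2.1 + 1 then
    ∑ ε : Bool, if okb k p.2.1 ε then
      (if q.2.2 = shf l p.2.2 ε then Y p.1 p.2.1 (cont l p.2.2 ε) else 0) else 0 else 0) +
  (if (q.1 : ℕ) = p.1 + 1 ∧ (p.2.1 : ℕ) + 1 = k + l ∧ (q.2.1 : ℕ) = 0 ∧ q.2.2 = fun _ => false then
    ∑ ε : Bool, if okb k p.2.1 ε then Y p.1 p.2.1 (cont l p.2.2 ε) else 0 else 0)

/-- the edges to the last vertex -/
def cv (p : Vc g k l) : A :=
  if (p.1 : ℕ) + 1 = g ∧ (p.2.1 : ℕ) + 1 = k + l then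
    ∑ ε : Bool, if okb k p.2.1 ε then Y p.1 p.2.1 (cont l p.2.2 ε) else 0 else 0

/-- the edges from the first vertex -/
def cu (p : Vc g k l) : A :=
  if (p.1 : ℕ) = 0 ∧ (p.2.1 : ℕ) = 0 ∧ p.2.2 = fun _ => false then 1 else 0

/-- the value of a vertex -/
def cx (p : Vc g k l) : A :=
  cW k l (Y p.1) (k + l - p.2.1) p.2.1 p.2.2 * cQ k l Y (g - (p.1 + 1)) (p.1 + 1)

/-- the rank of a vertex -/
def crk (p : Vc g k l) : ℕ := (g - p.1) * (k + l) - p.2.1

theorem cN_acyclic (p q : Vc g k l) (h : cN g k l Y p q ≠ 0) : crk g k l q < crk g k l p := by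
  have hp1 := p.1.2
  have hp2 := p.2.1.2
  have hq1 := q.1.2
  have hq2 := q.2.1.2
  have e1 : (g - p.1) * (k + l) = (g - (p.1 + 1)) * (k + l) + (k + l) := by
    rw [show g - p.1 = g - (p.1 + 1) + 1 by omega, add_mul, one_mul]
  unfold crk
  by_cases h1 : (q.1 : ℕ) = p.1 ∧ (q.2.1 : ℕ) = p.2.1 + 1
  · rw [h1.1, h1.2, e1]
    omega
  · by_cases h2 : (q.1 : ℕ) = p.1 + 1 ∧ (p.2.1 : ℕ) + 1 = k + l ∧ (q.2.1 : ℕ) = 0 ∧
        q.2.2 = fun _ => false
    · rw [h2.1, h2.2.2.1, e1]
      omega
    · exfalso
      apply h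
      unfold cN
      rw [if_neg h1, if_neg h2, add_zero]

theorem cx_rec (p : Vc g k l) :
    cx g k l Y p = cv g k l Y p + ∑ q, cN g k l Y p q * cx g k l Y q := by
  obtain ⟨i, j, a⟩ := p
  have hi := i.2
  have hj := j.2
  obtain ⟨m, hm⟩ : ∃ m, k + l - j = m + 1 := ⟨k + l - j - 1, by omega⟩
  have e0 : cx g k l Y (i, j, a) = (∑ ε : Bool, if okb k j ε then
      Y i j (cont l a ε) * cW k l (Y i) m (j + 1) (shf l a ε) else 0) *
      cQ k l Y (g - (i + 1)) (i + 1) := by
    unfold cx
    rw [hm]
    rfl
  have e1 : ∑ q, cN g k l Y (i, j, a) q * cx g k l Y q =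
      (∑ q : Vc g k l, (if (q.1 : ℕ) = i ∧ (q.2.1 : ℕ) = j + 1 then
        ∑ ε : Bool, if okb k j ε then
          (if q.2.2 = shf l a ε then Y i j (cont l a ε) else 0) else 0 else 0) * cx g k l Y q) +
      ∑ q : Vc g k l, (if (q.1 : ℕ) = i + 1 ∧ (j : ℕ) + 1 = k + l ∧ (q.2.1 : ℕ) = 0 ∧
        q.2.2 = fun _ => false then
        ∑ ε : Bool, if okb k j ε then Y i j (cont l a ε) else 0 else 0) * cx g k l Y q := by
    rw [← sum_add_distrib]
    exact sum_congr rfl fun q _ => add_mul _ _ _
  rw [e1, e0]
  by_cases hl : (j : ℕ) + 1 = k + l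
  · -- the last block
    have hm0 : m = 0 := by omega
    subst hm0
    have e2 : ∑ q : Vc g k l, (if (q.1 : ℕ) = i ∧ (q.2.1 : ℕ) = j + 1 then
        ∑ ε : Bool, if okb k j ε then
          (if q.2.2 = shf l a ε then Y i j (cont l a ε) else 0) else 0 else 0) * cx g k l Y q =
          0 := by
      refine sum_eq_zero fun q _ => ?_
      have := q.2.1.2
      rw [if_neg (by omega), zero_mul]
    rw [e2, zero_add]
    have e3 : (∑ ε : Bool, if okb k j ε then
        Y i j (cont l a ε) * cW k l (Y i) 0 (j + 1) (shf l a ε) else 0) =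
        ∑ ε : Bool, if okb k j ε then Y i j (cont l a ε) else 0 := by
      refine sum_congr rfl fun ε _ => ?_
      have : cW k l (Y i) 0 (j + 1) (shf l a ε) = 1 := rfl
      rw [this, mul_one]
    rw [e3]
    by_cases hg : (i : ℕ) + 1 = g
    · have e4 : cv g k l Y (i, j, a) = ∑ ε : Bool, if okb k j ε then Y i j (cont l a ε) else 0 :=
        if_pos ⟨hg, hl⟩
      have e5 : ∑ q : Vc g k l, (if (q.1 : ℕ) = i + 1 ∧ (j : ℕ) + 1 = k + l ∧ (q.2.1 : ℕ) = 0 ∧
          q.2.2 = fun _ => false then
          ∑ ε : Bool, if okb k j ε then Y i j (cont l a ε) else 0 else 0) * cx g k l Y q = 0 := by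
        refine sum_eq_zero fun q _ => ?_
        have := q.1.2
        rw [if_neg (by omega), zero_mul]
      have e6 : g - ((i : ℕ) + 1) = 0 := by omega
      rw [e4, e5, e6, add_zero]
      show _ * 1 = _
      rw [mul_one]
    · have e4 : cv g k l Y (i, j, a) = 0 := if_neg fun h => hg h.1
      rw [e4, zero_add]
      let q0 : Vc g k l := (⟨i + 1, by omega⟩, ⟨0, by omega⟩, fun _ => false)
      rw [sum_eq_single q0]
      · rw [if_pos ⟨rfl, hl, rfl, rfl⟩]
        congr 1
        obtain ⟨m', hm'⟩ : ∃ m', g - ((i : ℕ) + 1) = m' + 1 := ⟨g - ((i : ℕ) + 1) - 1, by omega⟩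
        have e7 : g - ((q0.1 : ℕ) + 1) = m' := by
          show g - ((i : ℕ) + 1 + 1) = m'
          omega
        have e8 : cx g k l Y q0 = cW k l (Y (i + 1)) (k + l) 0 (fun _ => false) *
            cQ k l Y m' (i + 1 + 1) := by
          unfold cx
          rw [e7]
          rfl
        rw [hm', e8]
        rfl
      · intro q _ hq
        rw [if_neg, zero_mul]
        rintro ⟨h1, h2, h3, h4⟩
        apply hq
        exact Prod.ext (Fin.ext h1) (Prod.ext (Fin.ext h3) h4)
      · intro h
        exact absurd (mem_univ _) h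
  · -- the other blocks
    have e4 : cv g k l Y (i, j, a) = 0 := if_neg fun h => hl h.2
    have e5 : ∑ q : Vc g k l, (if (q.1 : ℕ) = i + 1 ∧ (j : ℕ) + 1 = k + l ∧ (q.2.1 : ℕ) = 0 ∧
        q.2.2 = fun _ => false then
        ∑ ε : Bool, if okb k j ε then Y i j (cont l a ε) else 0 else 0) * cx g k l Y q = 0 := by
      refine sum_eq_zero fun q _ => ?_
      rw [if_neg (fun h => hl h.2.1), zero_mul]
    rw [e4, e5, zero_add, add_zero]
    let j1 : Fin (k + l) := ⟨j + 1, by omega⟩
    have e6 : ∀ q : Vc g k l, (if (q.1 : ℕ) = i ∧ (q.2.1 : ℕ) = j + 1 then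
        ∑ ε : Bool, if okb k j ε then
          (if q.2.2 = shf l a ε then Y i j (cont l a ε) else 0) else 0 else 0) * cx g k l Y q =
        ∑ ε : Bool, if q = (i, j1, shf l a ε) then
          (if okb k j ε then Y i j (cont l a ε) * cx g k l Y q else 0) else 0 := by
      intro q
      by_cases h1 : (q.1 : ℕ) = i ∧ (q.2.1 : ℕ) = j + 1
      · rw [if_pos h1, sum_mul]
        refine sum_congr rfl fun ε _ => ?_
        have hq1 : q.1 = i := Fin.ext h1.1
        have hq2 : q.2.1 = j1 := Fin.ext h1.2
        by_cases h2 : q.2.2 = shf l a ε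
        · have h3 : q = (i, j1, shf l a ε) := Prod.ext hq1 (Prod.ext hq2 h2)
          rw [if_pos h3, if_pos h2]
          split_ifs
          · rfl
          · exact zero_mul _
        · have h3 : ¬ q = (i, j1, shf l a ε) := fun h => h2 (by rw [h])
          rw [if_neg h3, if_neg h2]
          split_ifs
          · exact zero_mul _
          · exact zero_mul _
      · rw [if_neg h1, zero_mul]
        symm
        refine sum_eq_zero fun ε _ => ?_
        rw [if_neg]
        intro h
        apply h1
        rw [h]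
        exact ⟨rfl, rfl⟩
    rw [sum_congr rfl fun q _ => e6 q, sum_comm, sum_mul]
    refine sum_congr rfl fun ε _ => ?_
    rw [sum_ite_eq' univ, if_pos (mem_univ _)]
    split_ifs with hok
    · have e7 : cx g k l Y (i, j1, shf l a ε) = cW k l (Y i) m (j + 1) (shf l a ε) *
          cQ k l Y (g - (i + 1)) (i + 1) := by
        unfold cx
        have : k + l - (j1 : ℕ) = m := by
          show k + l - ((j : ℕ) + 1) = m
          omega
        show cW k l (Y i) (k + l - (j1 : ℕ)) j1 (shf l a ε) * _ = _
        rw [this]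
      rw [e7, mul_assoc]
    · exact zero_mul _

theorem sum_cu (hg : 1 ≤ g) (hk : 1 ≤ k + l) :
    ∑ p, cu g k l p * cx g k l Y p = cQ k l Y g 0 := by
  let q0 : Vc g k l := (⟨0, by omega⟩, ⟨0, by omega⟩, fun _ => false)
  rw [sum_eq_single q0]
  · have h1 : (cu g k l q0 : A) = 1 := if_pos ⟨rfl, rfl, rfl⟩
    obtain ⟨m', hm'⟩ : ∃ m', g = m' + 1 := ⟨g - 1, by omega⟩
    have e7 : g - ((q0.1 : ℕ) + 1) = m' := by
      show g - (0 + 1) = m'
      omega
    have e8 : cx g k l Y q0 = cW k l (Y 0) (k + l) 0 (fun _ => false) *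
        cQ k l Y m' (0 + 1) := by
      unfold cx
      rw [e7]
      rfl
    have e9 : cQ k l Y g 0 = cQ k l Y (m' + 1) 0 := by rw [hm']
    rw [h1, one_mul, e8, e9]
    rfl
  · intro q _ hq
    have : (cu g k l q : A) = 0 := if_neg (by
      rintro ⟨h1, h3, h4⟩
      apply hq
      exact Prod.ext (Fin.ext h1) (Prod.ext (Fin.ext h3) h4))
    rw [this, zero_mul]
  · intro h
    exact absurd (mem_univ _) h

theorem cQ_eq (m : ℕ) : ∀ i : ℕ, cQ k l Y m i =
    ∏ j ∈ range m, cW k l (Y (i + j)) (k + l) 0 (fun _ => false) := by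
  induction m with
  | zero => intro i; rfl
  | succ m ih =>
    intro i
    rw [prod_range_succ']
    show cW k l (Y i) (k + l) 0 (fun _ => false) * cQ k l Y m (i + 1) = _
    rw [ih, mul_comm]
    congr 1
    refine prod_congr rfl fun j _ => ?_
    rw [show i + 1 + j = i + (j + 1) by omega]

end graph

section main

variable (g k l : ℕ)

/-- the letters -/
noncomputable def cY (i j : ℕ) (c : Fin (l + 1) → Bool) : MvPolynomial (Fin g × Lt k l) ℤ :=
  if h : i < g ∧ j < k + l then MvPolynomial.X (⟨i, h.1⟩, (⟨j, h.2⟩, c)) else 0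

theorem tdeg_X {σ : Type} (i : σ) : (MvPolynomial.X i : MvPolynomial σ ℤ).totalDegree ≤ 1 := by
  rw [MvPolynomial.totalDegree_X]

theorem cY_le (i j : ℕ) (c : Fin (l + 1) → Bool) : (cY g k l i j c).totalDegree ≤ 1 := by
  unfold cY
  split_ifs
  · exact tdeg_X _
  · rw [MvPolynomial.totalDegree_zero]
    omega

theorem codeP_eq_paths : codeP (ltS (k := k) l) g ℤ =
    ∏ i : Fin g, ∑ t : Fin k → Bool, ∏ j ∈ range (k + l), cY g k l i j (win l t j) := by
  classical
  unfold codeP
  have h1 := prod_univ_sum (fun _ : Fin g => (univ : Finset (Fin k → Bool)))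
    (fun (i : Fin g) (t : Fin k → Bool) => ∏ j ∈ range (k + l), cY g k l i j (win l t j))
  rw [Fintype.piFinset_univ] at h1
  rw [h1]
  refine sum_congr rfl fun s _ => prod_congr rfl fun i _ => ?_
  unfold ltS
  rw [prod_image]
  · rw [← Fin.prod_univ_eq_prod_range (fun j => cY g k l i j (win l (s i) j))]
    refine prod_congr rfl fun j _ => ?_
    unfold cY
    rw [dif_pos ⟨i.2, j.2⟩]
  · intro j _ j' _ h
    exact congrArg Prod.fst h

end main

/-- **the code polynomial is a projection of the permanent** -/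
theorem perm_code {g k l n : ℕ} (hn : 1 + g * ((k + l) * 2 ^ l) ≤ n) :
    ∃ φ : Fin n × Fin n → MvPolynomial (Fin g × Lt k l) ℤ, (∀ p, (φ p).totalDegree ≤ 1) ∧
      MvPolynomial.aeval φ (Pool.CDep.permP n ℤ) = codeP (ltS (k := k) l) g ℤ := by
  classical
  have hc : Fintype.card (Vc g k l) = g * ((k + l) * 2 ^ l) := by
    rw [Fintype.card_prod, Fintype.card_prod, Fintype.card_fin, Fintype.card_fin,
      Fintype.card_fun, Fintype.card_fin, Fintype.card_bool]
  have hz : (0 : MvPolynomial (Fin g × Lt k l) ℤ).totalDegree ≤ 1 := by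
    rw [MvPolynomial.totalDegree_zero]
    omega
  have h1 : (1 : MvPolynomial (Fin g × Lt k l) ℤ).totalDegree ≤ 1 := by
    rw [MvPolynomial.totalDegree_one]
    omega
  have hY := cY_le g k l
  have hsum : ∀ f : Bool → MvPolynomial (Fin g × Lt k l) ℤ, (∀ ε, (f ε).totalDegree ≤ 1) →
      (∑ ε, f ε).totalDegree ≤ 1 := fun f hf =>
    (MvPolynomial.totalDegree_finsetSum _ _).trans (Finset.sup_le fun ε _ => hf ε)
  obtain ⟨φ, h2, h3⟩ := proj_acy (σ := Fin g × Lt k l) (τ := Vc g k l) (n := n) (by rw [hc]; exact hn)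
    (crk g k l) (if 1 ≤ g ∧ 1 ≤ k + l then 0 else 1) (cu g k l) (cv g k l (cY g k l))
    (cx g k l (cY g k l)) (cN g k l (cY g k l)) (cN_acyclic g k l _) (cx_rec g k l _)
    (by split_ifs; exacts [hz, h1])
    (by
      intro i
      unfold cu
      split_ifs
      exacts [h1, hz])
    (by
      intro i
      unfold cv
      split_ifs
      · refine hsum _ fun ε => ?_
        split_ifs
        exacts [hY _ _ _, hz]
      · exact hz)
    (by
      intro i j
      unfold cN
      refine (MvPolynomial.totalDegree_add _ _).trans (max_le ?_ ?_)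
      · split_ifs
        · refine hsum _ fun ε => ?_
          split_ifs
          exacts [hY _ _ _, hz, hz]
        · exact hz
      · split_ifs
        · refine hsum _ fun ε => ?_
          split_ifs
          exacts [hY _ _ _, hz]
        · exact hz)
  refine ⟨φ, h2, ?_⟩
  rw [h3, codeP_eq_paths]
  have h4 : ∀ i : Fin g, ∑ t : Fin k → Bool, ∏ j ∈ range (k + l), cY g k l i j (win l t j) =
      cW k l (cY g k l i) (k + l) 0 (fun _ => false) := fun i => (cW_eq k l (cY g k l i)).symm
  rw [prod_congr rfl fun i _ => h4 i,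
    Fin.prod_univ_eq_prod_range (fun i => cW k l (cY g k l i) (k + l) 0 (fun _ => false))]
  by_cases h5 : 1 ≤ g ∧ 1 ≤ k + l
  · rw [if_pos h5, zero_add, sum_cu g k l _ h5.1 h5.2, cQ_eq]
    refine prod_congr rfl fun j _ => ?_
    rw [zero_add]
  · rw [if_neg h5]
    have h6 : IsEmpty (Vc g k l) := by
      rw [← Fintype.card_eq_zero_iff, hc]
      rcases Nat.eq_zero_or_pos g with h | h
      · rw [h, zero_mul]
      · have : k + l = 0 := by
          by_contra h'
          exact h5 ⟨h, by omega⟩
        rw [this, zero_mul, mul_zero]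
    rw [univ_eq_empty, sum_empty, add_zero]
    symm
    refine prod_eq_one fun i hi => ?_
    rw [mem_range] at hi
    have : k + l = 0 := by
      by_contra h'
      exact h5 ⟨by omega, by omega⟩
    rw [this]
    rfl

end Pool.XDA
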