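import Pool.Agent.XDA.Defs

/-!
# XDA, row S': balanced types
-/

set_option autoImplicit false

namespace Pool.XDA

open Finset Pool.XD

/-- the Sturmian word of slope `θ` -/
noncomputable def stw (θ : ℝ) (j : ℕ) : Bool := decide (⌊((j : ℝ) + 1) * θ⌋ ≠ ⌊(j : ℝ) * θ⌋)

theorem floor_step {θ : ℝ} (h0 : 0 < θ) (h1 : θ < 1) (j : ℕ) :
    ⌊((j : ℝ) + 1) * θ⌋ = ⌊(j : ℝ) * θ⌋ + if stw θ j = true then 1 else 0 := by
  unfold stw
  have h2 : ⌊(j : ℝ) * θ⌋ ≤ ⌊((j : ℝ) + 1) * θ⌋ := Int.floor_mono (by nlinarith)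
  have h3 : ⌊((j : ℝ) + 1) * θ⌋ ≤ ⌊(j : ℝ) * θ⌋ + 1 := by
    rw [← Int.floor_add_one]
    exact Int.floor_mono (by nlinarith)
  by_cases h : ⌊((j : ℝ) + 1) * θ⌋ = ⌊(j : ℝ) * θ⌋
  · simp [h]
  · simp only [ne_eq, h, not_false_eq_true, decide_true, if_true]
    omega

theorem cnt_true_int {θ : ℝ} (h0 : 0 < θ) (h1 : θ < 1) {p q : ℕ} (hpq : p ≤ q) :
    (cnt (stw θ) true p q : ℤ) = ⌊(q : ℝ) * θ⌋ - ⌊(p : ℝ) * θ⌋ := by
  induction q, hpq using Nat.le_induction with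
  | base => simp [cnt]
  | succ q hq ih =>
    have h2 : cnt (stw θ) true p (q + 1) = cnt (stw θ) true p q +
        if stw θ q = true then 1 else 0 := by
      unfold cnt
      have h3 : Ico p (q + 1) = insert q (Ico p q) := by
        ext j
        simp only [mem_Ico, mem_insert]
        omega
      rw [h3, filter_insert]
      split_ifs with h
      · rw [card_insert_of_notMem (by simp)]
      · rfl
    rw [h2]
    push_cast
    rw [ih, floor_step h0 h1 q]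
    ring

theorem cnt_add (τ : ℕ → Bool) {p q : ℕ} : cnt τ true p q + cnt τ false p q = q - p := by
  unfold cnt
  have h := card_filter_add_card_filter_not (s := Ico p q) (fun j => τ j = true)
  rw [Nat.card_Ico] at h
  rw [← h]
  congr 2
  ext j
  simp

theorem cnt_true_real {θ : ℝ} (h0 : 0 < θ) (h1 : θ < 1) {p q : ℕ} (hpq : p ≤ q) :
    (cnt (stw θ) true p q : ℝ) < ((q : ℝ) - p) * θ + 1 ∧
      ((q : ℝ) - p) * θ < cnt (stw θ) true p q + 1 := by
  have h2 := cnt_true_int h0 h1 hpq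
  have h3 : (cnt (stw θ) true p q : ℝ) = (⌊(q : ℝ) * θ⌋ : ℝ) - (⌊(p : ℝ) * θ⌋ : ℝ) := by
    exact_mod_cast h2
  have a1 := Int.floor_le ((q : ℝ) * θ)
  have a2 := Int.lt_floor_add_one ((q : ℝ) * θ)
  have a3 := Int.floor_le ((p : ℝ) * θ)
  have a4 := Int.lt_floor_add_one ((p : ℝ) * θ)
  rw [h3]
  constructor <;> nlinarith

theorem two_pow_le {θ : ℝ} (h0 : 0 < θ) {a b : ℕ} (h : (a : ℝ) * θ ≤ b) :
    (2 : ℝ) ^ a ≤ ((2 : ℝ) ^ (1 / θ)) ^ b := by
  rw [← Real.rpow_natCast, ← Real.rpow_natCast, ← Real.rpow_mul (by norm_num)]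
  apply Real.rpow_le_rpow_of_exponent_le (by norm_num)
  rw [one_div_mul_eq_div, le_div_iff₀ h0]
  exact h

theorem pow_le_two_pow {θ c : ℝ} (h0 : 0 < θ) {a b : ℕ} (h : (b : ℝ) ≤ a * θ + c) :
    ((2 : ℝ) ^ (1 / θ)) ^ b ≤ 2 ^ (c / θ) * 2 ^ a := by
  rw [← Real.rpow_natCast (2 : ℝ) a, ← Real.rpow_natCast _ b, ← Real.rpow_mul (by norm_num),
    ← Real.rpow_add (by norm_num)]
  apply Real.rpow_le_rpow_of_exponent_le (by norm_num)
  rw [one_div_mul_eq_div, div_le_iff₀ h0, add_mul, div_mul_cancel₀ _ h0.ne']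
  linarith

/-- balanced types for every ratio -/
theorem exists_types {θ : ℝ} (h0 : 0 < θ) (h1 : θ < 1) : ∃ τ : ℕ → Bool,
    Bal τ true (2 ^ (1 / θ) : ℝ) ∧ Bal τ false (2 ^ (1 / (1 - θ)) : ℝ) ∧
    (∀ m, (2 ^ (1 / θ) : ℝ) ^ cnt τ true 0 m ≤ 2 ^ m) ∧
    (∀ m, (2 ^ (1 / (1 - θ)) : ℝ) ^ cnt τ false 0 m ≤ 2 ^ (1 / (1 - θ)) * 2 ^ m) := by
  have h1' : 0 < 1 - θ := by linarith
  refine ⟨stw θ, fun p q hpq => ?_, fun p q hpq => ?_, fun m => ?_, fun m => ?_⟩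
  · rw [← pow_succ']
    refine two_pow_le h0 ?_
    have h2 := (cnt_true_real h0 h1 hpq).2
    rw [Nat.cast_sub hpq]
    push_cast
    linarith
  · rw [← pow_succ']
    refine two_pow_le h1' ?_
    have h2 := (cnt_true_real h0 h1 hpq).1
    have h3 : ((cnt (stw θ) true p q : ℕ) : ℝ) + (cnt (stw θ) false p q : ℕ) = (q : ℝ) - p := by
      rw [← Nat.cast_sub hpq]
      exact_mod_cast cnt_add (stw θ)
    rw [Nat.cast_sub hpq]
    push_cast
    nlinarith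
  · have h2 := cnt_true_int h0 h1 (Nat.zero_le m)
    have h3 : (cnt (stw θ) true 0 m : ℝ) = (⌊(m : ℝ) * θ⌋ : ℝ) := by
      have : (cnt (stw θ) true 0 m : ℤ) = ⌊(m : ℝ) * θ⌋ := by
        rw [h2]
        simp
      exact_mod_cast this
    have h4 := pow_le_two_pow (c := 0) h0 (a := m) (b := cnt (stw θ) true 0 m) (by
      rw [h3, add_zero]
      exact Int.floor_le _)
    rw [zero_div, Real.rpow_zero, one_mul] at h4
    exact h4
  · have h2 := (cnt_true_real h0 h1 (Nat.zero_le m)).2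
    have h3 : ((cnt (stw θ) true 0 m : ℕ) : ℝ) + (cnt (stw θ) false 0 m : ℕ) = (m : ℝ) := by
      have := cnt_add (stw θ) (p := 0) (q := m)
      rw [Nat.sub_zero] at this
      exact_mod_cast this
    refine pow_le_two_pow (c := 1) h1' ?_
    push_cast at h2
    nlinarith

end Pool.XDA
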