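import Pool.Agent.XDA.Words
import Pool.Agent.XDA.Types
import Pool.Agent.XD.Mc

/-!
# XDA: the numbers of one chunk
-/

set_option autoImplicit false

namespace Pool.XDA

open Finset Pool.XD

/-- the number of the letters of type `true` -/
theorem nU_lty {k l : ℕ} (τ : ℕ → Bool) :
    nU (lty (k := k) (l := l) τ) = cnt τ true 0 (k + l) * 2 ^ (l + 1) := by
  classical
  unfold nU cnt
  have h1 : (univ.filter fun x : Lt k l => lty τ x = true) =
      (univ.filter fun j : Fin (k + l) => τ j = true) ×ˢ univ := by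
    ext ⟨j, c⟩
    simp [lty]
  rw [h1, card_product, card_univ, Fintype.card_fun, Fintype.card_bool, Fintype.card_fin]
  congr 1
  rw [card_filter, card_filter, Fin.sum_univ_eq_sum_range (fun j => if τ j = true then 1 else 0),
    ← Nat.Ico_zero_eq_range]

/-- the number of the letters of type `false` -/
theorem nV_lty {k l : ℕ} (τ : ℕ → Bool) :
    nV (lty (k := k) (l := l) τ) = cnt τ false 0 (k + l) * 2 ^ (l + 1) := by
  classical
  unfold nV cnt
  have h1 : (univ.filter fun x : Lt k l => lty τ x = false) =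
      (univ.filter fun j : Fin (k + l) => τ j = false) ×ˢ univ := by
    ext ⟨j, c⟩
    simp [lty]
  rw [h1, card_product, card_univ, Fintype.card_fun, Fintype.card_bool, Fintype.card_fin]
  congr 1
  rw [card_filter, card_filter, Fin.sum_univ_eq_sum_range (fun j => if τ j = false then 1 else 0),
    ← Nat.Ico_zero_eq_range]

theorem ltS_inj {k l : ℕ} : Function.Injective (ltS (k := k) l) := by
  intro t t' h
  funext i
  have h1 : ((⟨i.1, by omega⟩, win l t i.1) : Lt k l) ∈ ltS l t := mem_ltS.2 rfl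
  rw [h] at h1
  have h2 := mem_ltS.1 h1
  have h3 := congrFun h2 0
  unfold win bit at h3
  simpa using h3

/-- the degree for `N` letters and the weight `H` -/
theorem exists_deg {N : ℕ} {H : ℝ} (hH : 1 < H) (hN : 1 ≤ N) :
    ∃ L : ℕ, H * L ≤ N + L - 1 ∧ (N : ℝ) + L ≤ H * (L + 1) := by
  have hNr : (1 : ℝ) ≤ N := by exact_mod_cast hN
  obtain ⟨z, hz⟩ : ∃ z : ℝ, z = ((N : ℝ) - 1) / (H - 1) := ⟨_, rfl⟩
  have hH0 : 0 < H - 1 := by linarith
  have hz0 : 0 ≤ z := by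
    rw [hz]
    apply div_nonneg _ hH0.le
    linarith
  have hzN : z * (H - 1) = N - 1 := by
    rw [hz]
    field_simp
  refine ⟨⌊z⌋₊, ?_, ?_⟩
  · have h1 : (⌊z⌋₊ : ℝ) ≤ z := Nat.floor_le hz0
    have h3 : (⌊z⌋₊ : ℝ) * (H - 1) ≤ N - 1 := by
      rw [← hzN]
      exact mul_le_mul_of_nonneg_right h1 hH0.le
    linarith
  · have h2 : z < ⌊z⌋₊ + 1 := Nat.lt_floor_add_one z
    have h4 : (N : ℝ) - 1 ≤ (⌊z⌋₊ + 1) * (H - 1) := by
      rw [← hzN]
      exact mul_le_mul_of_nonneg_right h2.le hH0.le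
    linarith

/-- many letters: the degree is large -/
theorem deg_large {N L r : ℕ} {H : ℝ} (hr : 1 ≤ r) (hH : 1 < H) (hN : 8 * (r : ℝ) ^ 3 * H ≤ N)
    (h : (N : ℝ) + L ≤ H * (L + 1)) : 2 * r ^ 2 + r ≤ L + 1 := by
  by_contra hcon
  push Not at hcon
  have hrr : (1 : ℝ) ≤ r := by exact_mod_cast hr
  have h1 : ((L : ℝ) + 1) ≤ 2 * (r : ℝ) ^ 2 + r := by exact_mod_cast hcon.le
  have h2 : (r : ℝ) ≤ (r : ℝ) ^ 2 := by nlinarith
  have h3 : (r : ℝ) ^ 2 ≤ (r : ℝ) ^ 3 := by nlinarith [sq_nonneg (r : ℝ)]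
  have h4 : (N : ℝ) - 1 ≤ (H - 1) * (L + 1) := by linarith
  have h5 : (H - 1) * ((L : ℝ) + 1) ≤ (H - 1) * (3 * (r : ℝ) ^ 3) := by
    apply mul_le_mul_of_nonneg_left _ (by linarith)
    linarith
  have h6 : (1 : ℝ) ≤ (r : ℝ) ^ 3 := by linarith
  nlinarith

/-- the ratio of the numbers of monomials -/
theorem mc_two_le {N L r : ℕ} {H : ℝ} (hH : 1 ≤ H) (h : (N : ℝ) + L ≤ H * (L + 1))
    (h2 : 2 * r ^ 2 + r ≤ L + 1) (hr : r ≤ L) :
    (N.multichoose L : ℝ) ≤ 2 * H ^ r * N.multichoose (L - r) := by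
  obtain ⟨M, rfl⟩ : ∃ M, L = M + r := ⟨L - r, by omega⟩
  rw [Nat.add_sub_cancel]
  have h3 : 2 * r ^ 2 ≤ M + 1 := by omega
  have h3r : 2 * (r : ℝ) ^ 2 ≤ M + 1 := by exact_mod_cast h3
  have hM : (0 : ℝ) < (M : ℝ) + 1 := by positivity
  push_cast at h
  set ε : ℝ := (r : ℝ) / (M + 1) with hε
  have hε0 : 0 ≤ ε := by positivity
  have hH' : 1 ≤ H * (1 + ε) := by nlinarith
  have h4 : (N : ℝ) + M ≤ H * (1 + ε) * (M + 1) := by
    have h5 : H * (1 + ε) * (M + 1) = H * (M + r + 1) := by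
      rw [hε]
      field_simp
      ring
    rw [h5]
    have : (0 : ℝ) ≤ r := Nat.cast_nonneg _
    linarith
  have h5 := mc_add hH' h4 r
  have h6 : (1 + ε) ^ r ≤ 2 := by
    have h7 : (1 + ε) ^ r ≤ Real.exp ε ^ r := by
      apply pow_le_pow_left₀ (by linarith)
      have := Real.add_one_le_exp ε
      linarith
    have h8 : Real.exp ε ^ r = Real.exp (r * ε) := (Real.exp_nat_mul ε r).symm
    have h9 : (r : ℝ) * ε ≤ 1 / 2 := by
      rw [hε, mul_div_assoc', div_le_iff₀ hM]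
      nlinarith
    have h10 : Real.exp (1 / 2) ≤ 2 := by
      have h11 := Real.exp_one_lt_d9
      have h12 : Real.exp 1 = Real.exp (1 / 2) * Real.exp (1 / 2) := by
        rw [← Real.exp_add]
        norm_num
      have h13 := Real.exp_pos (1 / 2 : ℝ)
      nlinarith
    rw [h8] at h7
    exact h7.trans ((Real.exp_le_exp.2 h9).trans h10)
  have h7 : (0 : ℝ) ≤ N.multichoose M := Nat.cast_nonneg _
  have h8 : (0 : ℝ) ≤ H ^ r := by positivity
  calc (N.multichoose (M + r) : ℝ) ≤ N.multichoose M * (H * (1 + ε)) ^ r := h5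
    _ = N.multichoose M * H ^ r * (1 + ε) ^ r := by rw [mul_pow]; ring
    _ ≤ N.multichoose M * H ^ r * 2 := by
        apply mul_le_mul_of_nonneg_left h6
        positivity
    _ = 2 * H ^ r * N.multichoose M := by ring

/-- there is a block of each type -/
theorem cnt_pos {τ : ℕ → Bool} {b : Bool} {H : ℝ} {m l : ℕ} (hH : 1 ≤ H) (hb : Bal τ b H)
    (hm : 1 ≤ m) (hlm : l ≤ m) (hl : 4 * (m : ℝ) ^ 2 * H ≤ 2 ^ l) : 1 ≤ cnt τ b 0 m := by
  by_contra hcon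
  have h0 : cnt τ b 0 m = 0 := by omega
  have h1 := hb 0 m (Nat.zero_le _)
  rw [h0, pow_zero, mul_one, Nat.sub_zero] at h1
  have h2 : (2 : ℝ) ^ l ≤ 2 ^ m := pow_le_pow_right₀ (by norm_num) hlm
  have h3 : (1 : ℝ) ≤ (m : ℝ) ^ 2 := by
    have : (1 : ℝ) ≤ m := by exact_mod_cast hm
    nlinarith
  nlinarith

/-- the parameters of one chunk -/
theorem exists_params {τ : ℕ → Bool} {HU HV : ℝ} {k l r E : ℕ} (hk : 1 ≤ k) (hHU : 1 < HU)
    (hHV : 1 < HV) (hbU : Bal τ true HU) (hbV : Bal τ false HV)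
    (hlU : 4 * ((k + l : ℕ) : ℝ) ^ 2 * HU ≤ 2 ^ l) (hlV : 4 * ((k + l : ℕ) : ℝ) ^ 2 * HV ≤ 2 ^ l)
    (hr : r = cnt τ true 0 (k + l)) (hE : E = cnt τ false 0 (k + l)) :
    1 ≤ nU (lty (k := k) (l := l) τ) ∧ 1 ≤ nV (lty (k := k) (l := l) τ) ∧ r + E = k + l ∧
    ∃ LU LV : ℕ, r ≤ LU ∧ HU * LU ≤ nU (lty (k := k) (l := l) τ) + LU - 1 ∧
      HV * LV ≤ nV (lty (k := k) (l := l) τ) + LV - 1 ∧
      (nV (lty (k := k) (l := l) τ) : ℝ) + LV ≤ HV * (LV + 1) ∧
      ((nU (lty (k := k) (l := l) τ)).multichoose LU : ℝ) ≤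
        2 * HU ^ r * (nU (lty (k := k) (l := l) τ)).multichoose (LU - r) := by
  have hr1 : 1 ≤ r := by rw [hr]; exact cnt_pos hHU.le hbU (by omega) (by omega) hlU
  have hE1 : 1 ≤ E := by rw [hE]; exact cnt_pos hHV.le hbV (by omega) (by omega) hlV
  have hrE : r + E = k + l := by
    have := cnt_add τ (p := 0) (q := k + l)
    omega
  have hU : nU (lty (k := k) (l := l) τ) = r * 2 ^ (l + 1) := by rw [nU_lty, hr]
  have hV : nV (lty (k := k) (l := l) τ) = E * 2 ^ (l + 1) := by rw [nV_lty, hE]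
  have h2 : 1 ≤ 2 ^ (l + 1) := Nat.one_le_two_pow
  have hU1 : 1 ≤ nU (lty (k := k) (l := l) τ) := by
    rw [hU]; exact Nat.mul_pos hr1 h2
  have hV1 : 1 ≤ nV (lty (k := k) (l := l) τ) := by
    rw [hV]; exact Nat.mul_pos hE1 h2
  obtain ⟨LU, hLU1, hLU2⟩ := exists_deg hHU hU1
  obtain ⟨LV, hLV1, hLV2⟩ := exists_deg hHV hV1
  have hrr : (1 : ℝ) ≤ r := by exact_mod_cast hr1
  have hN : 8 * (r : ℝ) ^ 3 * HU ≤ nU (lty (k := k) (l := l) τ) := by
    rw [hU]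
    push_cast
    have h3 : (r : ℝ) ≤ ((k + l : ℕ) : ℝ) := by
      exact_mod_cast (by omega : r ≤ k + l)
    have h4 : (r : ℝ) ^ 2 ≤ ((k + l : ℕ) : ℝ) ^ 2 := pow_le_pow_left₀ (by linarith) h3 2
    have h5 : 4 * (r : ℝ) ^ 2 * HU ≤ 2 ^ l := by
      refine le_trans ?_ hlU
      apply mul_le_mul_of_nonneg_right _ (by linarith)
      linarith
    calc 8 * (r : ℝ) ^ 3 * HU = 2 * (r : ℝ) * (4 * (r : ℝ) ^ 2 * HU) := by ring
      _ ≤ 2 * (r : ℝ) * 2 ^ l := mul_le_mul_of_nonneg_left h5 (by positivity)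
      _ = (r : ℝ) * 2 ^ (l + 1) := by ring
  have hlarge := deg_large hr1 hHU hN hLU2
  have hrL : r ≤ LU := by nlinarith
  exact ⟨hU1, hV1, hrE, LU, LV, hrL, hLU1, hLV1, hLV2, mc_two_le hHU.le hLU2 hlarge hrL⟩

end Pool.XDA
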