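import Pool.Agent.XDA.Defs
import Pool.Agent.XD.Shift
import Pool.Agent.XD.Aff
import Pool.Agent.CDep.Lift

/-!
# XDA, row V': valuations and the lift to characteristic zero
-/

set_option autoImplicit false
set_option linter.unusedSectionVars false
set_option linter.unusedVariables false

namespace Pool.XDA

open Finset Pool.XD Pool.CD Pool.CDep Pool.Agent.Helper87.D3 Pool.Agent.Helper41.CD

section nat

variable {L : Type} [Fintype L] (ty : L → Bool)

/-- change of coefficients in the shifted polynomial -/
theorem serMap_PhiX {A B : Type} [CommRing A] [CommRing B] (ψ : A →+* B) (c : L → A)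
    (P : MvPolynomial L A) :
    serMap (MvPolynomial.map ψ) (PhiX ty c P) =
      PhiX ty (fun l => ψ (c l)) (MvPolynomial.map ψ P) := by
  unfold PhiX
  rw [MvPolynomial.aeval_def, MvPolynomial.aeval_def, MvPolynomial.hom_eval₂,
    MvPolynomial.eval₂_map]
  have h2 : (serMap (MvPolynomial.map ψ)).comp (algebraMap A (Ser (MvPolynomial L A))) =
      (algebraMap B (Ser (MvPolynomial L B))).comp ψ := by
    ext x : 1
    show serMap (MvPolynomial.map ψ) (algebraMap A (Ser (MvPolynomial L A)) x) =
      algebraMap B (Ser (MvPolynomial L B)) (ψ x)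
    rw [algebraMap_ser', serMap_cst, algebraMap_ser']
    congr 1
    exact MvPolynomial.map_C ψ x
  rw [h2]
  congr 1
  ext l : 1
  show serMap _ (cst (MvPolynomial.C (c l)) + (if ty l then lam _ else mu _) * cst (MvPolynomial.X l)) =
    cst (MvPolynomial.C (ψ (c l))) + (if ty l then lam _ else mu _) * cst (MvPolynomial.X l)
  rw [map_add, map_mul, serMap_cst, serMap_cst, MvPolynomial.map_C, MvPolynomial.map_X]
  rcases ty l with _ | _
  · simp only [Bool.false_eq_true, if_false, serMap_mu]
  · simp only [if_true, serMap_lam]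

theorem cf_PhiX_map {A B : Type} [CommRing A] [CommRing B] (ψ : A →+* B) (c : L → ℕ)
    (P : MvPolynomial L A) (b e : ℕ) :
    cf b e (PhiX ty (fun l => (c l : B)) (MvPolynomial.map ψ P)) =
      MvPolynomial.map ψ (cf b e (PhiX ty (fun l => (c l : A)) P)) := by
  rw [← cf_serMap, serMap_PhiX]
  simp only [map_natCast]

theorem ent_map {A B : Type} [CommRing A] [CommRing B] (ψ : A →+* B) (F : MvPolynomial L A)
    (α γ : L → ℕ) : ent ty (MvPolynomial.map ψ F) α γ = ψ (ent ty F α γ) := by
  unfold ent
  split_ifs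
  · rw [MvPolynomial.coeff_map]
  · rw [map_zero]

theorem ent_add {A : Type} [CommRing A] (F G : MvPolynomial L A) (α γ : L → ℕ) :
    ent ty (F + G) α γ = ent ty F α γ + ent ty G α γ := by
  unfold ent
  split_ifs
  · rw [MvPolynomial.coeff_add]
  · rw [add_zero]

/-- integrality of the shifted image of an integral polynomial -/
theorem intSP_PhiX {K Γ : Type} [Field K] [LinearOrderedCommGroupWithZero Γ] (v : Valuation K Γ)
    (c : L → ℕ) (P : MvPolynomial L ℤ) :
    IntSP v (PhiX ty (fun l => (c l : K)) (MvPolynomial.map (Int.castRingHom K) P)) := by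
  have hc : ∀ l, v ((c l : K)) ≤ 1 := fun l => by
    have := v_intCast_le (v := v) ((c l : ℕ) : ℤ)
    rwa [Int.cast_natCast] at this
  induction P using MvPolynomial.induction_on with
  | C a =>
    rw [MvPolynomial.map_C, PhiX_C]
    refine intSP_cst fun m => ?_
    rw [MvPolynomial.algebraMap_eq]
    classical
    rw [MvPolynomial.coeff_C]
    split_ifs
    · exact v_intCast_le a
    · rw [map_zero]; exact zero_le
  | add p q hp hq =>
    rw [map_add, map_add]
    exact hp.add hq
  | mul_X p l hp =>
    rw [map_mul, map_mul, MvPolynomial.map_X]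
    exact hp.mul (intX_var ty _ hc l)

end nat

section code

variable {g : ℕ} {L W : Type} [Fintype L] [DecidableEq L] [Fintype W] [DecidableEq W]
  (ty : L → Bool) (Sw : W → Finset L)

/-- the letters of the words of all chunks -/
def lets (s : Fin g → W) : Finset (Fin g × L) := univ.filter fun x => x.2 ∈ Sw (s x.1)

theorem prod_lets {M : Type} [CommMonoid M] (s : Fin g → W) (f : Fin g × L → M) :
    ∏ i : Fin g, ∏ l ∈ Sw (s i), f (i, l) = ∏ x ∈ lets Sw s, f x := by
  unfold lets
  rw [Finset.prod_filter, Fintype.prod_prod_type]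
  refine prod_congr rfl fun i _ => ?_
  rw [← Finset.prod_filter]
  refine Finset.prod_congr ?_ fun _ _ => rfl
  ext l
  simp

theorem sum_lets {M : Type} [AddCommMonoid M] (s : Fin g → W) (f : Fin g × L → M) :
    ∑ i : Fin g, ∑ l ∈ Sw (s i), f (i, l) = ∑ x ∈ lets Sw s, f x := by
  unfold lets
  rw [Finset.sum_filter, Fintype.sum_prod_type]
  refine sum_congr rfl fun i _ => ?_
  rw [← Finset.sum_filter]
  refine Finset.sum_congr ?_ fun _ _ => rfl
  ext l
  simp

theorem cmon_apply (s : Fin g → W) (x : Fin g × L) :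
    cmon Sw s x = if x ∈ lets Sw s then 1 else 0 := by
  unfold cmon
  rw [sum_lets Sw s (fun x => Finsupp.single x 1), Finsupp.finsetSum_apply]
  simp only [Finsupp.single_apply]
  rw [Finset.sum_ite_eq']

theorem cmon_injective (hinj : Function.Injective Sw) :
    Function.Injective (cmon (g := g) Sw) := by
  intro s s' h
  funext i
  apply hinj
  ext l
  have h1 := DFunLike.congr_fun h (i, l)
  rw [cmon_apply, cmon_apply] at h1
  unfold lets at h1
  simp only [mem_filter, mem_univ, true_and] at h1
  by_cases h2 : l ∈ Sw (s i) <;> by_cases h3 : l ∈ Sw (s' i) <;> simp [h2, h3] at h1 ⊢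

theorem codeP_eq (K : Type) [CommRing K] :
    codeP Sw g K = ∑ s : Fin g → W, MvPolynomial.monomial (cmon Sw s) (1 : K) := by
  unfold codeP
  refine sum_congr rfl fun s _ => ?_
  rw [prod_lets Sw s (fun x => MvPolynomial.X x)]
  unfold cmon
  rw [sum_lets Sw s (fun x => Finsupp.single x 1), MvPolynomial.monomial_sum_one]
  rfl

theorem coeff_codeP (hinj : Function.Injective Sw) (K : Type) [CommRing K]
    (μ : Fin g × L →₀ ℕ) (h : ∀ s, μ ≠ cmon Sw s) : MvPolynomial.coeff μ (codeP Sw g K) = 0 := by
  classical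
  rw [codeP_eq, MvPolynomial.coeff_sum]
  refine sum_eq_zero fun s _ => ?_
  rw [MvPolynomial.coeff_monomial, if_neg fun h' => h s h'.symm]

theorem coeff_codeP_cmon (hinj : Function.Injective Sw) (K : Type) [CommRing K]
    (s : Fin g → W) : MvPolynomial.coeff (cmon Sw s) (codeP Sw g K) = 1 := by
  classical
  rw [codeP_eq, MvPolynomial.coeff_sum, sum_eq_single s]
  · rw [MvPolynomial.coeff_monomial, if_pos rfl]
  · intro s' _ hs'
    rw [MvPolynomial.coeff_monomial, if_neg fun h' => hs' (cmon_injective Sw hinj h')]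
  · intro h
    exact absurd (mem_univ s) h

theorem map_codeP {A B : Type} [CommRing A] [CommRing B] (ψ : A →+* B) :
    MvPolynomial.map ψ (codeP Sw g A) = codeP Sw g B := by
  unfold codeP
  simp only [map_sum, map_prod, MvPolynomial.map_X]

theorem card_lets (b : Bool) {r : ℕ} (hc : ∀ s, ((Sw s).filter fun l => ty l = b).card = r)
    (s : Fin g → W) : ((lets Sw s).filter fun x => cty ty g x = b).card = g * r := by
  have h1 : ((lets Sw s).filter fun x => cty ty g x = b).card =
      ∑ x ∈ lets Sw s, if cty ty g x = b then 1 else 0 := by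
    rw [card_filter]
  rw [h1, ← sum_lets Sw s (fun x => if cty ty g x = b then 1 else 0)]
  have h2 : ∀ i : Fin g, (∑ l ∈ Sw (s i), if cty ty g (i, l) = b then 1 else 0) = r := by
    intro i
    rw [← hc (s i), card_filter]
    rfl
  rw [sum_congr rfl fun i _ => h2 i, sum_const, card_univ, Fintype.card_fin, smul_eq_mul]

/-- the top part of the shifted code polynomial -/
theorem cf_PhiX_codeP {K : Type} [Field K] {r E : ℕ}
    (hcU : ∀ s, ((Sw s).filter fun l => ty l = true).card = r)
    (hcV : ∀ s, ((Sw s).filter fun l => ty l = false).card = E) (c : Fin g × L → K) :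
    cf (g * r) (g * E) (PhiX (cty ty g) c (codeP Sw g K)) = codeP Sw g K := by
  unfold codeP
  rw [map_sum, cf_sum]
  refine sum_congr rfl fun s _ => ?_
  rw [prod_lets Sw s (fun x => MvPolynomial.X x), map_prod]
  have h1 := card_lets ty Sw true hcU s
  have h2 := card_lets ty Sw false hcV s
  have h3 : ((lets Sw s).filter fun x => cty ty g x = false) =
      (lets Sw s).filter fun x => ¬ cty ty g x = true := by
    ext x
    simp
  rw [h3] at h2
  rw [← h1, ← h2]
  have h4 := cf_prod_aff_top (lets Sw s) (fun x => cty ty g x = true)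
    (fun x => (MvPolynomial.C (c x) : MvPolynomial (Fin g × L) K))
    (fun x => MvPolynomial.X x)
  rw [← h4]
  congr 1
  refine prod_congr rfl fun x _ => ?_
  unfold PhiX
  rw [MvPolynomial.aeval_X]
  congr 1
  show (if cty ty g x then _ else _) * _ = _
  split_ifs <;> rfl

end code

/-- the circuit over `F` lifts to characteristic zero, with a regular matrix on the isolated
entries, for all base points with values in `ℕ` -/
theorem exists_lift {F Γ : Type} [Field F] [LinearOrderedCommGroupWithZero Γ] (v : Valuation F Γ)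
    {n T m w0 w S k : ℕ} (f : Fin T → Fin m → MvPolynomial (Fin n × Fin n) F)
    (hf : ∀ i j, f i j ∈ Cls w0 w S k)
    (hv : ∀ μ, v (MvPolynomial.coeff μ ((∑ i, ∏ j, f i j) - permP n F)) < 1)
    {g : ℕ} {L W : Type} [Fintype L] [DecidableEq L] [Fintype W] [DecidableEq W]
    (ty : L → Bool) (Sw : W → Finset L) (hinj : Function.Injective Sw) {r E LU LV : ℕ}
    (hcU : ∀ s, ((Sw s).filter fun l => ty l = true).card = r)
    (hcV : ∀ s, ((Sw s).filter fun l => ty l = false).card = E)
    (φ : Fin n × Fin n → MvPolynomial (Fin g × L) ℤ) (hφ : ∀ p, (φ p).totalDegree ≤ 1)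
    (hcode : MvPolynomial.aeval φ (permP n ℤ) = codeP Sw g ℤ)
    {I : Type} [Fintype I] [DecidableEq I] (R : I → Fin g → Box ty LU LV)
    (Q : I → Fin g → Box ty (LU - r) (LV + E)) (wd : I → Fin g → W)
    (h1 : ∀ i i' (s : Fin g → W), Adm (cty ty g) (glu fun j => (R i j).1)
      (glu fun j => (Q i' j).1) → gap (cty ty g) (glu fun j => (R i j).1)
        (glu fun j => (Q i' j).1) = cmon Sw s → i = i')
    (h2 : ∀ i, Adm (cty ty g) (glu fun j => (R i j).1) (glu fun j => (Q i j).1) ∧
        gap (cty ty g) (glu fun j => (R i j).1) (glu fun j => (Q i j).1) = cmon Sw (wd i)) :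
    ∃ f' : Fin T → Fin m → MvPolynomial (Fin g × L) (LField F), (∀ i j, f' i j ∈ Cls w0 w S k) ∧
      ∀ c : Fin g × L → ℕ, (Matrix.of fun i i' : I =>
        cM ty (cf (g * r) (g * E) (PhiX (cty ty g) (fun l => (c l : LField F))
          (∑ i, ∏ j, f' i j))) LU LV (LU - r) (LV + E) (R i) (Q i')).det ≠ 0 := by
  classical
  -- the substitution over every ring
  let φR : ∀ (A : Type) [CommRing A], Fin n × Fin n → MvPolynomial (Fin g × L) A :=
    fun A _ p => MvPolynomial.map (Int.castRingHom A) (φ p)
  have hφR : ∀ (A : Type) [CommRing A] (p : Fin n × Fin n), (φR A p).totalDegree ≤ 1 :=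
    fun A _ p => (Finset.sup_mono (MvPolynomial.support_map_subset _ _)).trans (hφ p)
  have hφmap : ∀ (A B : Type) [CommRing A] [CommRing B] (ψ : A →+* B) (P : MvPolynomial _ A),
      MvPolynomial.map ψ (MvPolynomial.aeval (φR A) P) =
        MvPolynomial.aeval (φR B) (MvPolynomial.map ψ P) := by
    intro A B _ _ ψ P
    have h9 : (fun p => MvPolynomial.map ψ (φR A p)) = φR B := by
      funext p
      show MvPolynomial.map ψ (MvPolynomial.map (Int.castRingHom A) (φ p)) =
        MvPolynomial.map (Int.castRingHom B) (φ p)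
      have h8 : ψ.comp (Int.castRingHom A) = Int.castRingHom B := RingHom.ext_int _ _
      rw [MvPolynomial.map_map, h8]
    rw [map_aeval_eq, h9]
  -- the matrix over every ring
  let Mt : ∀ (A : Type) [CommRing A], (Fin g × L → ℕ) → MvPolynomial (Fin g × L) A →
      Matrix I I A := fun A _ c P => Matrix.of fun i i' =>
    ent (cty ty g) (cf (g * r) (g * E) (PhiX (cty ty g) (fun l => (c l : A)) P))
      (glu fun j => (R i j).1) (glu fun j => (Q i' j).1)
  have hMt : ∀ (A B : Type) [CommRing A] [CommRing B] (ψ : A →+* B) (c : Fin g × L → ℕ)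
      (P : MvPolynomial (Fin g × L) A), Mt B c (MvPolynomial.map ψ P) = (Mt A c P).map ψ := by
    intro A B _ _ ψ c P
    ext i i'
    show ent (cty ty g) (cf (g * r) (g * E) (PhiX (cty ty g) (fun l => (c l : B))
      (MvPolynomial.map ψ P))) (glu fun j => (R i j).1) (glu fun j => (Q i' j).1) =
      ψ (ent (cty ty g) (cf (g * r) (g * E) (PhiX (cty ty g) (fun l => (c l : A)) P))
        (glu fun j => (R i j).1) (glu fun j => (Q i' j).1))
    rw [cf_PhiX_map, ent_map]
  -- over `F`
  have hF : ∀ c : Fin g × L → ℕ,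
      (Mt F c (MvPolynomial.aeval (φR F) (∑ i, ∏ j, f i j))).det ≠ 0 := by
    intro c
    set err := (∑ i, ∏ j, f i j) - permP n F with herr
    have e0 : (∑ i, ∏ j, f i j) = permP n F + err := by rw [herr]; ring
    have e1 : MvPolynomial.aeval (φR F) (permP n F) = codeP Sw g F := by
      rw [← map_permP (Int.castRingHom F), ← hφmap ℤ F (Int.castRingHom F) (permP n ℤ)]
      have : φR ℤ = φ := by
        funext p
        show MvPolynomial.map (Int.castRingHom ℤ) (φ p) = φ p
        have h3 : Int.castRingHom ℤ = RingHom.id ℤ := RingHom.ext_int _ _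
        rw [h3, MvPolynomial.map_id]
      rw [this, hcode, map_codeP]
    have e2 : Mt F c (MvPolynomial.aeval (φR F) (∑ i, ∏ j, f i j)) =
        1 + Mt F c (MvPolynomial.aeval (φR F) err) := by
      rw [e0, map_add, e1]
      ext i i'
      rw [Matrix.add_apply, Matrix.one_apply]
      show ent (cty ty g) (cf (g * r) (g * E) (PhiX (cty ty g) (fun l => (c l : F))
        (codeP Sw g F + MvPolynomial.aeval (φR F) err))) (glu fun j => (R i j).1)
          (glu fun j => (Q i' j).1) = (if i = i' then 1 else 0) +
        ent (cty ty g) (cf (g * r) (g * E) (PhiX (cty ty g) (fun l => (c l : F))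
          (MvPolynomial.aeval (φR F) err))) (glu fun j => (R i j).1) (glu fun j => (Q i' j).1)
      rw [map_add, cf_add, ent_add]
      congr 1
      rw [cf_PhiX_codeP ty Sw hcU hcV]
      unfold ent
      by_cases hii : i = i'
      · subst hii
        rw [if_pos (h2 i).1, (h2 i).2, coeff_codeP_cmon Sw hinj, if_pos rfl]
      · rw [if_neg hii]
        split_ifs with hA
        · exact coeff_codeP Sw hinj F _ fun s hs => hii (h1 i i' s hA hs)
        · rfl
    rw [e2]
    refine det_one_add_ne_zero v _ fun i i' => ?_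
    show v (ent (cty ty g) (cf (g * r) (g * E) (PhiX (cty ty g) (fun l => (c l : F))
      (MvPolynomial.aeval (φR F) err))) (glu fun j => (R i j).1) (glu fun j => (Q i' j).1)) < 1
    unfold ent
    split_ifs
    · have e3 : PhiX (cty ty g) (fun l => (c l : F)) (MvPolynomial.aeval (φR F) err) =
          MvPolynomial.aeval (fun p => PhiX (cty ty g) (fun l => (c l : F)) (φR F p)) err := by
        rw [MvPolynomial.comp_aeval_apply]
      rw [e3]
      exact v_coeff_cf_aeval_lt err hv _ (fun p => intSP_PhiX (cty ty g) v c (φ p)) _ _ _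
    · rw [map_zero]
      exact zero_lt_one
  -- the lift
  choose G hG hGf using fun i j => cls_lift (proj F) (proj_surjective F) k (hf i j)
  refine ⟨fun i j => MvPolynomial.aeval (φR (LField F))
    (MvPolynomial.map (algebraMap (LRing F) (LField F)) (G i j)), fun i j =>
      Pool.XD.cls_aeval _ (hφR (LField F)) (cls_map _ k (hG i j)), fun c => ?_⟩
  have h3 : (∑ i, ∏ j, MvPolynomial.aeval (φR (LField F))
      (MvPolynomial.map (algebraMap (LRing F) (LField F)) (G i j))) =
      MvPolynomial.map (algebraMap (LRing F) (LField F))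
        (MvPolynomial.aeval (φR (LRing F)) (∑ i, ∏ j, G i j)) := by
    rw [hφmap]
    simp only [map_sum, map_prod]
  have h4 : MvPolynomial.map (proj F) (MvPolynomial.aeval (φR (LRing F)) (∑ i, ∏ j, G i j)) =
      MvPolynomial.aeval (φR F) (∑ i, ∏ j, f i j) := by
    rw [hφmap]
    simp only [map_sum, map_prod, hGf]
  have h5 : (Mt (LRing F) c (MvPolynomial.aeval (φR (LRing F)) (∑ i, ∏ j, G i j))).det ≠ 0 := by
    intro h0
    have h6 := hF c
    rw [← h4, hMt, ← RingHom.mapMatrix_apply, ← RingHom.map_det, h0, map_zero] at h6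
    exact h6 rfl
  show (Mt (LField F) c _).det ≠ 0
  rw [h3, hMt, ← RingHom.mapMatrix_apply, ← RingHom.map_det]
  intro h0
  exact h5 (IsFractionRing.injective (LRing F) (LField F) (by rw [h0, map_zero]))

end Pool.XDA
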