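import Pool.Agent.XDA.Iso
import Pool.Agent.XDA.Measure
import Pool.Agent.XDA.Val
import Pool.Agent.XDA.Perm
import Pool.Agent.XD.Level
import Pool.Agent.XDA.Prep
import Pool.Agent.XD.Shift

/-!
# Exponential lower bounds for constant depth over every field (XDA): the core inequality
-/

set_option autoImplicit false

namespace Pool.XDA

open Finset Pool.XD Pool.CD Pool.CDep Pool.Agent.Helper87.D3 Pool.Agent.Helper41.CD

/-- the final computation: the number of isolated entries against the rank -/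
theorem combine {g kb r E : ℕ} {HU κ mU mU' mV Rk card : ℝ} (hHU : 0 < HU) (hmU' : 0 < mU')
    (hmV : 0 < mV) (hκ : 0 ≤ κ) (h1 : (2 : ℝ) ^ (g * kb) * (mU' * mV / 2) ^ g ≤ card)
    (h2 : card ≤ Rk) (h3 : Rk * HU ^ (g * r) ≤ ((r + 1) * (E + 1) : ℝ) ^ g * (κ * (mU * mV) ^ g))
    (h4 : mU ≤ 2 * HU ^ r * mU') (h5 : 0 ≤ mU) :
    (2 : ℝ) ^ (g * kb) ≤ (4 * (r + 1) * (E + 1)) ^ g * κ := by
  have hP : (0 : ℝ) < (mU' * mV / 2) ^ g * HU ^ (g * r) := by positivity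
  refine le_of_mul_le_mul_right ?_ hP
  calc (2 : ℝ) ^ (g * kb) * ((mU' * mV / 2) ^ g * HU ^ (g * r))
      = (2 : ℝ) ^ (g * kb) * (mU' * mV / 2) ^ g * HU ^ (g * r) := by ring
    _ ≤ card * HU ^ (g * r) := mul_le_mul_of_nonneg_right h1 (by positivity)
    _ ≤ Rk * HU ^ (g * r) := mul_le_mul_of_nonneg_right h2 (by positivity)
    _ ≤ ((r + 1) * (E + 1) : ℝ) ^ g * (κ * (mU * mV) ^ g) := h3
    _ ≤ ((r + 1) * (E + 1) : ℝ) ^ g * (κ * (2 * HU ^ r * mU' * mV) ^ g) := by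
        apply mul_le_mul_of_nonneg_left _ (by positivity)
        apply mul_le_mul_of_nonneg_left _ hκ
        apply pow_le_pow_left₀ (by positivity)
        exact mul_le_mul_of_nonneg_right h4 hmV.le
    _ = (4 * (r + 1) * (E + 1)) ^ g * κ * ((mU' * mV / 2) ^ g * HU ^ (g * r)) := by
        have e1 : (2 * HU ^ r * mU' * mV) ^ g = 4 ^ g * (mU' * mV / 2) ^ g * HU ^ (g * r) := by
          rw [pow_mul', ← mul_pow, ← mul_pow]
          congr 1
          ring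
        rw [e1]
        have e2 : (4 * ((r : ℝ) + 1) * (E + 1)) ^ g = 4 ^ g * (((r : ℝ) + 1) * (E + 1)) ^ g := by
          rw [← mul_pow]
          congr 1
          ring
        rw [e2]
        ring

/-- **the core inequality** -/
theorem core {F Γ : Type} [Field F] [LinearOrderedCommGroupWithZero Γ] (v : Valuation F Γ)
    {n T S w w0 k g kb l : ℕ} {θ : ℝ} {X Y : ℕ → ℝ}
    (f : Fin T → Fin S → MvPolynomial (Fin n × Fin n) F) (hS : 1 ≤ S) (hw : 1 ≤ w) (hw0 : 1 ≤ w0)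
    (hf : ∀ i j, f i j ∈ Cls w0 w S k)
    (hcl : ∀ m, v (MvPolynomial.coeff m ((∑ i, ∏ j, f i j) - permP n F)) < 1)
    (hkb : 1 ≤ kb) (h0 : 0 < θ) (h1 : θ < 1)
    (hlU : 4 * ((kb + l : ℕ) : ℝ) ^ 2 * 2 ^ (1 / θ) ≤ 2 ^ l)
    (hlV : 4 * ((kb + l : ℕ) : ℝ) ^ 2 * 2 ^ (1 / (1 - θ)) ≤ 2 ^ l)
    (hn : 1 + g * ((kb + l) * 2 ^ l) ≤ n)
    (hX : ∀ i, 0 < X i) (hY : ∀ i, 0 < Y i) (hX0 : X 0 = 1) (hY0 : Y 0 = 1)
    (hnum : ∀ i ≤ 2 * k, NumD (g * (kb + l))
      (S * ((g * (kb + l) : ℕ) + 1) ^ (8 * (w0 + w) + 16)) (2 ^ (1 / θ)) (2 ^ (1 / (1 - θ)))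
        (X i) (Y i) (X (i + 1)) (Y (i + 1))) :
    ∃ r E : ℕ, r + E = kb + l ∧ (2 ^ (1 / θ) : ℝ) ^ r ≤ 2 ^ (kb + l) ∧
      (2 ^ (1 / (1 - θ)) : ℝ) ^ E ≤ 2 ^ (1 / (1 - θ)) * 2 ^ (kb + l) ∧
      (2 : ℝ) ^ (g * kb) ≤ (4 * (r + 1) * (E + 1)) ^ g * (T * (((g * (kb + l) : ℕ) + 1 : ℝ) ^ 16
        * (X (2 * k + 1) ^ (g * r) * Y (2 * k + 1) ^ (g * E)))) := by
  classical
  have h1' : 0 < 1 - θ := by linarith
  obtain ⟨HU, hHU⟩ : ∃ H : ℝ, H = 2 ^ (1 / θ) := ⟨_, rfl⟩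
  obtain ⟨HV, hHV⟩ : ∃ H : ℝ, H = 2 ^ (1 / (1 - θ)) := ⟨_, rfl⟩
  have hHU1 : 1 < HU := by
    rw [hHU]
    exact Real.one_lt_rpow (by norm_num) (by positivity)
  have hHV1 : 1 < HV := by
    rw [hHV]
    exact Real.one_lt_rpow (by norm_num) (by positivity)
  obtain ⟨τ, hbU, hbV, hcU, hcV⟩ := exists_types h0 h1
  rw [← hHU] at hbU hcU hlU hnum ⊢
  rw [← hHV] at hbV hcV hlV hnum ⊢
  obtain ⟨r, hr⟩ : ∃ r, r = cnt τ true 0 (kb + l) := ⟨_, rfl⟩
  obtain ⟨E, hE⟩ : ∃ E, E = cnt τ false 0 (kb + l) := ⟨_, rfl⟩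
  obtain ⟨h1U, h1V, hrE, LU, LV, hrL, hLU1, hLV1, hLV2, hmc⟩ :=
    exists_params hkb hHU1 hHV1 hbU hbV hlU hlV hr hE
  -- the words
  have hk2 : ∀ H : ℝ, 1 ≤ H → 4 * ((kb + l : ℕ) : ℝ) ^ 2 * H ≤ 2 ^ l →
      4 * (kb : ℝ) ^ 2 * H ≤ 2 ^ l := by
    intro H hH h
    refine le_trans ?_ h
    apply mul_le_mul_of_nonneg_right _ (by linarith)
    apply mul_le_mul_of_nonneg_left _ (by norm_num)
    apply pow_le_pow_left₀ (Nat.cast_nonneg _)
    exact_mod_cast Nat.le_add_right _ _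
  have hsU := ltS_sparse (k := kb) (l := l) τ true hHU1.le hbU (hk2 _ hHU1.le hlU)
  have hsV := ltS_sparse (k := kb) (l := l) τ false hHV1.le hbV (hk2 _ hHV1.le hlV)
  have hcardU : ∀ s, ((ltS (k := kb) l s).filter fun x => lty τ x = true).card = r := by
    intro s
    rw [ltS_card, hr]
  have hcardV : ∀ s, ((ltS (k := kb) l s).filter fun x => lty τ x = false).card = E := by
    intro s
    rw [ltS_card, hE]
  obtain ⟨I, hI1, hI2, R, Q, wd, hwC, hIcard, hiso1, hiso2⟩ :=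
    exists_iso (g := g) (lty (k := kb) (l := l) τ) (ltS (k := kb) l) hrL hcardU hcardV hHU1.le
      hHV1.le hLU1 hLV1 hsU hsV univ
  obtain ⟨φ, hφ1, hφ2⟩ := perm_code (g := g) hn
  obtain ⟨f', hf', hdet⟩ := exists_lift v f hf hcl (lty (k := kb) (l := l) τ) (ltS (k := kb) l)
    ltS_inj hcardU hcardV φ hφ1 hφ2 R Q wd hiso1 hiso2
  -- the machine
  set ty := cty (lty (k := kb) (l := l) τ) g with hty
  obtain ⟨SU, SV, hSU, hSV⟩ := exists_sub ty (K := LField F)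
  have hfV := filt_VV ty (K := LField F)
  have hfU := filt_UU ty (K := LField F)
  obtain ⟨W, hW, hmach⟩ := level_machine (σ := Fin g × Lt kb l) (K := LField F)
    (B := MvPolynomial (Fin g × Lt kb l) (LField F))
    (Pool.CD.cost_Nu hfV hfU (by linarith : (0 : ℝ) ≤ HV) (by linarith : (0 : ℝ) ≤ HU))
    (Pool.CD.big_Bi hfV hfU) (by linarith : (0 : ℝ) < HU) (by linarith : (0 : ℝ) < HV)
    (Pool.CD.leaf_Bi hfV hfU HV HU) SU SV
    (fun a ha b hb => by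
      have h1 := Pool.CD.Nu.ofMul (V := VV ty (LField F)) (U := UU ty (LField F))
        (hv := HV) (hu := HU) ((hSU a).1 ha) ((hSV b).1 hb)
      rwa [pow_zero, pow_zero, mul_one] at h1)
    (PhiX ty) (PhiX_mem _) (PhiX_zero _)
    (fun c p hp => by
      obtain ⟨α, hα, β, hβ, h1⟩ := PhiX_one ty c p hp
      exact ⟨α, (hSU α).2 hα, β, (hSV β).2 hβ, h1⟩)
    (d := g * (kb + l)) hw0 hw hS hX hY hX0 hY0 hnum f' hf'
  obtain ⟨c, hc⟩ := exists_nat_eval W hW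
  have hNu := hmach (fun l => (c l : LField F)) hc (g * r) (g * E)
    (by rw [← Nat.mul_add, hrE])
  have hdet' := hdet c
  set P := cf (g * r) (g * E) (PhiX ty (fun l => (c l : LField F)) (∑ i, ∏ j, f' i j)) with hP
  have hrank := rank_cM_le (lty (k := kb) (l := l) τ) hHU1.le hHV1.le hrL h1U h1V hLU1 hLV2 P hNu
    (E := E)
  -- the number of isolated entries is at most the rank
  have hcr : Fintype.card I ≤
      (cM (lty (k := kb) (l := l) τ) P LU LV (LU - r) (LV + E)).rank := by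
    have h2 : ((cM (lty (k := kb) (l := l) τ) P LU LV (LU - r) (LV + E)).submatrix R Q).rank =
        Fintype.card I := by
      apply Matrix.rank_of_isUnit
      rw [Matrix.isUnit_iff_isUnit_det]
      exact isUnit_iff_ne_zero.2 hdet'
    rw [← h2]
    exact Matrix.rank_submatrix_le _ _ _
  refine ⟨r, E, hrE, ?_, ?_, ?_⟩
  · rw [hr]
    exact hcU _
  · rw [hE]
    exact hcV _
  · have hmU' : (0 : ℝ) < (nU (lty (k := kb) (l := l) τ)).multichoose (LU - r) := by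
      exact_mod_cast mc_pos h1U _
    have hmV : (0 : ℝ) < (nV (lty (k := kb) (l := l) τ)).multichoose LV := by
      exact_mod_cast mc_pos h1V _
    have hX1 := hX (2 * k + 1)
    have hY1 := hY (2 * k + 1)
    refine combine (HU := HU) (mU := (nU (lty (k := kb) (l := l) τ)).multichoose LU) (by linarith)
      hmU' hmV (by positivity) ?_ (Nat.cast_le.2 hcr) ?_ hmc (Nat.cast_nonneg _)
    · refine le_trans (le_of_eq ?_) hIcard
      rw [card_univ, Fintype.card_fun, Fintype.card_fun, Fintype.card_bool, Fintype.card_fin,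
        Fintype.card_fin]
      push_cast
      rw [pow_mul']
    · refine hrank.trans (le_of_eq ?_)
      push_cast
      ring

end Pool.XDA
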