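import Pool.Agent.XD.Num
import Pool.Agent.XDA.Defs

/-!
# XDA: the numbers (row N')

The chain of growth rates of XD, raised to the power `x = log 2 * (1 + A / B) ≥ 1`.
-/

set_option autoImplicit false

namespace Pool.XDA

open Real Pool.XD

theorem numAll_rpow {HU HV κ x y x' y' t : ℝ} (hHU : 0 ≤ HU) (hHV : 0 ≤ HV) (hκ : 1 ≤ κ)
    (hx : 0 ≤ x) (hy : 0 ≤ y) (hx' : 0 ≤ x') (hy' : 0 ≤ y') (ht : 1 ≤ t)
    (h : NumAll HU HV κ x y x' y') :
    NumAll (HU ^ t) (HV ^ t) κ (x ^ t) (y ^ t) (x' ^ t) (y' ^ t) := by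
  intro b e hbe
  have ht0 : 0 ≤ t := by linarith
  have e1 : (x' ^ t) ^ b * (y' ^ t) ^ e = (x' ^ b * y' ^ e) ^ t := by
    rw [rpow_pow_comm hx', rpow_pow_comm hy', mul_rpow (by positivity) (by positivity)]
  have e2 : (x ^ t) ^ b * (y ^ t) ^ e = (x ^ b * y ^ e) ^ t := by
    rw [rpow_pow_comm hx, rpow_pow_comm hy, mul_rpow (by positivity) (by positivity)]
  rw [e1, e2, rpow_pow_comm hHU, rpow_pow_comm hHV]
  rcases h b e hbe with h1 | h1 | h1
  · left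
    exact rpow_le_rpow (by positivity) h1 ht0
  · right; left
    exact rpow_le_rpow (by positivity) h1 ht0
  · right; right
    have h2 : κ ≤ κ ^ t := self_le_rpow_of_one_le hκ ht
    calc κ * (x ^ b * y ^ e) ^ t ≤ κ ^ t * (x ^ b * y ^ e) ^ t :=
          mul_le_mul_of_nonneg_right h2 (by positivity)
      _ = (κ * (x ^ b * y ^ e)) ^ t :=
          (mul_rpow (by linarith) (by positivity)).symm
      _ ≤ _ := rpow_le_rpow (by positivity) h1 ht0

theorem two_pow_ge {a : ℕ} (ha : 15 ≤ a) : 128 * a ^ 2 ≤ 2 ^ a := by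
  induction a, ha using Nat.le_induction with
  | base => norm_num
  | succ a ha ih =>
    rw [pow_succ 2 a]
    nlinarith

/-- the length of the window -/
theorem exists_l {kb : ℕ} (hkb : 15 ≤ kb) : ∃ l : ℕ, l ≤ kb ∧ 128 * kb ^ 2 ≤ 2 ^ l ∧
    2 ^ l ≤ 256 * kb ^ 2 := by
  refine ⟨Nat.clog 2 (128 * kb ^ 2), ?_, Nat.le_pow_clog (by norm_num) _, ?_⟩
  · exact Nat.clog_le_of_le_pow (two_pow_ge hkb)
  · have h1 : 1 < 128 * kb ^ 2 := by nlinarith
    have h2 := Nat.pow_pred_clog_lt_self (b := 2) (by norm_num) h1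
    have h3 : 0 < Nat.clog 2 (128 * kb ^ 2) := Nat.clog_pos (by norm_num) (by omega)
    obtain ⟨l, hl⟩ : ∃ l, Nat.clog 2 (128 * kb ^ 2) = l + 1 := ⟨_ - 1, (Nat.succ_pred_eq_of_pos h3).symm⟩
    rw [hl] at h2 ⊢
    rw [Nat.pred_succ] at h2
    rw [pow_succ]
    omega

/-- the number of the bits is large enough -/
theorem kb_large {N Lg kb : ℕ} (hN : 1 ≤ N) (hLg : Lg = Nat.log 2 N + 1)
    (hkb : kb = 128 * N * Lg) : log (18432 * (kb : ℝ) ^ 4) + 1 ≤ 2 * log 2 * kb / (4 * N) := by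
  have hNr : (1 : ℝ) ≤ N := by exact_mod_cast hN
  have hL1 : 1 ≤ Lg := by omega
  have hLr : (1 : ℝ) ≤ Lg := by exact_mod_cast hL1
  have hkbr : (kb : ℝ) = 128 * N * Lg := by rw [hkb]; push_cast; ring
  have hkb0 : (0 : ℝ) < kb := by rw [hkbr]; positivity
  have hl2 := log_two_gt_d9
  have hl2' := log_two_lt_d9
  have h1 : log N ≤ Lg * log 2 := by
    have h2 : N < 2 ^ Lg := by
      rw [hLg]
      exact Nat.lt_pow_succ_log_self (by norm_num) N
    have h3 : (N : ℝ) ≤ 2 ^ Lg := by exact_mod_cast h2.le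
    calc log N ≤ log (2 ^ Lg) := log_le_log (by linarith) h3
      _ = _ := log_pow _ _
  have h2 : log Lg ≤ Lg - 1 := log_le_sub_one_of_pos (by linarith)
  have h3 : log kb = 7 * log 2 + log N + log Lg := by
    rw [hkbr, log_mul (by positivity) (by positivity), log_mul (by positivity) (by positivity),
      show (128 : ℝ) = 2 ^ 7 by norm_num, log_pow]
    norm_num
  have h4 : log (18432 * (kb : ℝ) ^ 4) = log 18432 + 4 * log kb := by
    rw [log_mul (by positivity) (by positivity), log_pow]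
    norm_num
  have h5 : log 18432 ≤ 15 * log 2 := by
    calc log 18432 ≤ log (2 ^ 15) := log_le_log (by norm_num) (by norm_num)
      _ = _ := by rw [log_pow]; norm_num
  have h6 : 2 * log 2 * kb / (4 * N) = 64 * log 2 * Lg := by
    rw [hkbr]
    field_simp
    ring
  rw [h4, h6]
  nlinarith

/-- the size of the number of bits -/
theorem kb_le {N Lg kb σ p : ℕ} (hN : 1 ≤ N) (hLg : Lg = Nat.log 2 N + 1) (hp : 1 ≤ p)
    (hσ : 1 ≤ σ) (hkb : kb = 128 * N * Lg) (hNσ : N ≤ 4 * (18 * σ) ^ p) :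
    (kb : ℝ) ^ 3 ≤ 128 ^ 3 * 64 * 27 * (90 * (σ : ℝ)) ^ (3 * p + 1) := by
  have hNr : (1 : ℝ) ≤ N := by exact_mod_cast hN
  have hσr : (1 : ℝ) ≤ σ := by exact_mod_cast hσ
  have hl2 := log_two_gt_d9
  have hz : (18 : ℝ) ≤ 18 * σ := by linarith
  obtain ⟨u, hu⟩ : ∃ u, u = log (18 * σ) := ⟨_, rfl⟩
  have hu1 : 2 ≤ u := by
    have h1 : log (2 ^ 4) ≤ log (18 * σ) := log_le_log (by norm_num) (by linarith)
    rw [log_pow] at h1
    rw [hu]
    push_cast at h1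
    linarith
  have hN' : (N : ℝ) ≤ 4 * (18 * σ) ^ p := by exact_mod_cast hNσ
  have hpr : (1 : ℝ) ≤ p := by exact_mod_cast hp
  -- the logarithm of N
  have h1 : ((Lg : ℝ) - 1) * log 2 ≤ 2 * log 2 + p * u := by
    have h2 : 2 ^ Nat.log 2 N ≤ N := Nat.pow_log_le_self 2 (by omega)
    have h3 : (2 : ℝ) ^ Nat.log 2 N ≤ N := by exact_mod_cast h2
    have h4 : (Nat.log 2 N : ℝ) * log 2 ≤ log N := by
      calc (Nat.log 2 N : ℝ) * log 2 = log (2 ^ Nat.log 2 N) := (log_pow _ _).symm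
        _ ≤ log N := log_le_log (by positivity) h3
    have h5 : log N ≤ 2 * log 2 + p * u := by
      calc log N ≤ log (4 * (18 * σ) ^ p) := log_le_log (by linarith) hN'
        _ = _ := by
          rw [log_mul (by norm_num) (by positivity), log_pow, ← hu,
            show (4 : ℝ) = 2 ^ 2 by norm_num, log_pow]
          norm_num
    rw [hLg]
    push_cast
    linarith
  have h2 : (Lg : ℝ) ≤ 5 ^ p * u := by
    have h3 : (3 : ℝ) + 2 * p ≤ 5 ^ p := by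
      have : 3 + 2 * p ≤ 5 ^ p := by
        clear h1 hN' hNσ
        induction p, hp using Nat.le_induction with
        | base => norm_num
        | succ p hp ih =>
          have := ih (by exact_mod_cast hp)
          rw [pow_succ]
          omega
      exact_mod_cast this
    have h4 : (Lg : ℝ) ≤ (3 / 2 + 3 / 2 * p) * u := by
      have h5 : ((Lg : ℝ) - 3) * log 2 ≤ p * u := by linarith
      have h6 : 0 ≤ (p : ℝ) * u := by positivity
      by_contra hcon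
      push Not at hcon
      have h7 : 3 / 2 * (p : ℝ) * u ≤ (Lg : ℝ) - 3 := by nlinarith
      have h8 : 3 / 2 * (p : ℝ) * u * log 2 ≤ p * u :=
        (mul_le_mul_of_nonneg_right h7 (by linarith)).trans h5
      nlinarith [mul_pos (show (0 : ℝ) < p by linarith) (show (0 : ℝ) < u by linarith)]
    calc (Lg : ℝ) ≤ (3 / 2 + 3 / 2 * p) * u := h4
      _ ≤ 5 ^ p * u := mul_le_mul_of_nonneg_right (by linarith) (by linarith)
  -- the cube of the logarithm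
  have h3 : u ^ 3 ≤ 27 * (18 * σ) := by
    have h4 := add_one_le_exp (u / 3)
    have h5 : u / 3 ≤ exp (u / 3) := by linarith
    have h6 : (u / 3) ^ 3 ≤ exp (u / 3) ^ 3 := pow_le_pow_left₀ (by linarith) h5 3
    rw [← exp_nat_mul] at h6
    have h7 : ((3 : ℕ) : ℝ) * (u / 3) = u := by push_cast; ring
    rw [h7, hu, exp_log (by linarith), ← hu] at h6
    nlinarith
  have h4 : (Lg : ℝ) ^ 3 ≤ (5 ^ p) ^ 3 * (27 * (18 * σ)) := by
    calc (Lg : ℝ) ^ 3 ≤ (5 ^ p * u) ^ 3 := pow_le_pow_left₀ (Nat.cast_nonneg _) h2 3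
      _ = (5 ^ p) ^ 3 * u ^ 3 := mul_pow _ _ _
      _ ≤ _ := mul_le_mul_of_nonneg_left h3 (by positivity)
  have h5 : (N : ℝ) ^ 3 ≤ 64 * ((18 * σ) ^ p) ^ 3 := by
    calc (N : ℝ) ^ 3 ≤ (4 * (18 * σ) ^ p) ^ 3 := pow_le_pow_left₀ (by linarith) hN' 3
      _ = _ := by ring
  have hkbr : (kb : ℝ) = 128 * N * Lg := by rw [hkb]; push_cast; ring
  have e1 : ((18 * (σ : ℝ)) ^ p) ^ 3 * (5 ^ p) ^ 3 = (90 * (σ : ℝ)) ^ (3 * p) := by
    rw [← mul_pow, ← mul_pow, mul_comm 3 p, pow_mul]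
    congr 2
    ring
  have e2 : (N : ℝ) ^ 3 * (Lg : ℝ) ^ 3 ≤
      (64 * ((18 * (σ : ℝ)) ^ p) ^ 3) * ((5 ^ p) ^ 3 * (27 * (18 * (σ : ℝ)))) :=
    mul_le_mul h5 h4 (by positivity) (by positivity)
  have e3 : (64 * ((18 * (σ : ℝ)) ^ p) ^ 3) * ((5 ^ p) ^ 3 * (27 * (18 * (σ : ℝ)))) =
      64 * 27 * ((90 * (σ : ℝ)) ^ (3 * p) * (18 * σ)) := by
    rw [← e1]
    ring
  have e4 : (90 * (σ : ℝ)) ^ (3 * p) * (18 * σ) ≤ (90 * (σ : ℝ)) ^ (3 * p + 1) := by
    rw [pow_succ]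
    apply mul_le_mul_of_nonneg_left _ (by positivity)
    linarith
  rw [e3] at e2
  calc (kb : ℝ) ^ 3 = 128 ^ 3 * ((N : ℝ) ^ 3 * (Lg : ℝ) ^ 3) := by
        rw [hkbr]
        ring
    _ ≤ 128 ^ 3 * (64 * 27 * ((90 * (σ : ℝ)) ^ (3 * p) * (18 * σ))) :=
        mul_le_mul_of_nonneg_left e2 (by norm_num)
    _ ≤ 128 ^ 3 * (64 * 27 * (90 * (σ : ℝ)) ^ (3 * p + 1)) := by
        apply mul_le_mul_of_nonneg_left _ (by norm_num)
        exact mul_le_mul_of_nonneg_left e4 (by norm_num)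
    _ = _ := by ring

/-- taking logarithms in the rank inequality -/
theorem g_le_xda {A B N g kb l r E : ℕ} {t T : ℝ} (hN : 1 ≤ N) (hB : 1 ≤ B) (hBA : B ≤ A)
    (ht : t = log 2 * (((A : ℝ) + B) / B)) (hTr : 1 ≤ T) (hkb : 15 ≤ kb) (hl : l ≤ kb)
    (hl2 : 2 ^ l ≤ 256 * kb ^ 2)
    (hlarge : log (18432 * (kb : ℝ) ^ 4) + 1 ≤ 2 * log 2 * kb / (4 * N))
    (hrE : r + E = kb + l) (hr : exp t ^ r ≤ 2 ^ (kb + l))
    (hE : exp (t * ((B : ℝ) / A)) ^ E ≤ exp (t * ((B : ℝ) / A)) * 2 ^ (kb + l))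
    (h : (2 : ℝ) ^ (g * kb) ≤ (4 * (r + 1) * (E + 1)) ^ g *
      (T * (((g * (kb + l) : ℕ) + 1 : ℝ) ^ 16 * (exp (t * (1 / 2 - 1 / (4 * N))) ^ (g * r) *
        exp (t * ((B : ℝ) / A / 2 - 1 / (4 * N))) ^ (g * E))))) :
    (g : ℝ) ≤ log T + 16 * log ((g * (kb + l) : ℕ) + 1 : ℝ) := by
  have hNr : (1 : ℝ) ≤ N := by exact_mod_cast hN
  have hBr : (1 : ℝ) ≤ B := by exact_mod_cast hB
  have hBAr : (B : ℝ) ≤ A := by exact_mod_cast hBA
  have hTr0 : (0 : ℝ) < T := by linarith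
  have hkbr : (15 : ℝ) ≤ kb := by exact_mod_cast hkb
  have hlr : (l : ℝ) ≤ kb := by exact_mod_cast hl
  have h2 := log_two_gt_d9
  have hg0 : (0 : ℝ) ≤ g := Nat.cast_nonneg _
  have hr0 : (0 : ℝ) ≤ r := Nat.cast_nonneg _
  have hE0 : (0 : ℝ) ≤ E := Nat.cast_nonneg _
  have hrEr : (r : ℝ) + E = kb + l := by exact_mod_cast hrE
  -- the two balance conditions
  have hr' : (r : ℝ) * t ≤ (kb + l) * log 2 := by
    have h3 := log_le_log (by positivity) hr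
    rw [log_pow, log_pow, log_exp] at h3
    push_cast at h3
    exact h3
  have hE' : (E : ℝ) * (t * ((B : ℝ) / A)) ≤ t * ((B : ℝ) / A) + (kb + l) * log 2 := by
    have h3 := log_le_log (by positivity) hE
    rw [log_pow, log_mul (by positivity) (by positivity), log_pow, log_exp] at h3
    push_cast at h3
    exact h3
  -- the logarithm of the inequality
  have h0 := log_le_log (by positivity) h
  have hP0 : (0 : ℝ) < (4 * ((r : ℝ) + 1) * (E + 1)) ^ g := by positivity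
  have hX0 := exp_pos (t * (1 / 2 - 1 / (4 * (N : ℝ))))
  have hY0 := exp_pos (t * ((B : ℝ) / A / 2 - 1 / (4 * (N : ℝ))))
  have hG0 : (0 : ℝ) < ((g * (kb + l) : ℕ) + 1 : ℝ) := by positivity
  have hX1 := pow_pos hX0 (g * r)
  have hY1 := pow_pos hY0 (g * E)
  have hG1 := pow_pos hG0 16
  rw [log_pow, log_mul hP0.ne' (by positivity), log_mul hTr0.ne' (by positivity),
    log_mul hG1.ne' (by positivity), log_mul hX1.ne' hY1.ne', log_pow,
    log_pow, log_pow, log_pow, log_exp, log_exp] at h0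
  push_cast at h0 ⊢
  obtain ⟨LT, hLT⟩ : ∃ LT, LT = log T + 16 * log ((g : ℝ) * (kb + l) + 1) := ⟨_, rfl⟩
  obtain ⟨W, hW⟩ : ∃ W, W = log (4 * ((r : ℝ) + 1) * (E + 1)) := ⟨_, rfl⟩
  rw [← hW] at h0
  have hAr0 : (0 : ℝ) < A := by linarith
  have hBA0 : 0 < (B : ℝ) / A := div_pos (by linarith) hAr0
  have h1 : (g : ℝ) * (t * (kb + l) / (4 * N)) ≤
      g * (W + l * log 2 + t * ((B : ℝ) / A) / 2) + LT := by
    rw [hLT]
    have e1 : (g : ℝ) * r * (t * (1 / 2 - 1 / (4 * N))) +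
        g * E * (t * ((B : ℝ) / A / 2 - 1 / (4 * N))) =
        g * ((r * t + E * (t * ((B : ℝ) / A))) / 2) - g * (t * (r + E) / (4 * N)) := by
      field_simp
      ring
    rw [hrEr] at e1
    have e2 : (g : ℝ) * ((r * t + E * (t * ((B : ℝ) / A))) / 2) ≤
        g * (((kb + l) * log 2 + (t * ((B : ℝ) / A) + (kb + l) * log 2)) / 2) :=
      mul_le_mul_of_nonneg_left (by linarith) hg0
    have e3 : (g : ℝ) * (((kb + l) * log 2 + (t * ((B : ℝ) / A) + (kb + l) * log 2)) / 2) =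
        g * kb * log 2 + g * (l * log 2 + t * ((B : ℝ) / A) / 2) := by ring
    have e4 : (g : ℝ) * (W + l * log 2 + t * ((B : ℝ) / A) / 2) =
        g * W + g * (l * log 2 + t * ((B : ℝ) / A) / 2) := by ring
    rw [e4]
    linarith
  -- the bracket
  have hW' : W ≤ log (36 * (kb : ℝ) ^ 2) := by
    rw [hW]
    apply log_le_log (by positivity)
    have e1 : (r : ℝ) + 1 ≤ 3 * kb := by linarith
    have e2 : (E : ℝ) + 1 ≤ 3 * kb := by linarith
    have e3 : ((r : ℝ) + 1) * (E + 1) ≤ (3 * kb) * (3 * kb) :=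
      mul_le_mul e1 e2 (by positivity) (by positivity)
    calc 4 * ((r : ℝ) + 1) * (E + 1) = 4 * (((r : ℝ) + 1) * (E + 1)) := by ring
      _ ≤ 4 * ((3 * kb) * (3 * kb)) := by linarith
      _ = 36 * (kb : ℝ) ^ 2 := by ring
  have hl' : (l : ℝ) * log 2 ≤ log (256 * (kb : ℝ) ^ 2) := by
    rw [← log_pow]
    apply log_le_log (by positivity)
    exact_mod_cast hl2
  have hHV : t * ((B : ℝ) / A) / 2 ≤ log 2 := by
    have e1 : t * ((B : ℝ) / A) / 2 = log 2 * (((A : ℝ) + B) / (2 * A)) := by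
      rw [ht]
      field_simp
    have e2 : ((A : ℝ) + B) / (2 * A) ≤ 1 := by
      rw [div_le_one (by linarith)]
      linarith
    rw [e1]
    exact mul_le_of_le_one_right (by linarith) e2
  have hsum : log (36 * (kb : ℝ) ^ 2) + log (256 * (kb : ℝ) ^ 2) + log 2 =
      log (18432 * (kb : ℝ) ^ 4) := by
    rw [← log_mul (by positivity) (by positivity), ← log_mul (by positivity) (by positivity)]
    congr 1
    ring
  have hbr : W + l * log 2 + t * ((B : ℝ) / A) / 2 + 1 ≤ t * (kb + l) / (4 * N) := by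
    have e1 : 2 * log 2 ≤ t := by
      rw [ht]
      have e2 : (2 : ℝ) ≤ ((A : ℝ) + B) / B := by
        rw [le_div_iff₀ (by linarith)]
        linarith
      rw [mul_comm]
      exact mul_le_mul_of_nonneg_left e2 (by linarith)
    have e3 : 2 * log 2 * kb / (4 * N) ≤ t * (kb + l) / (4 * N) := by
      apply div_le_div_of_nonneg_right _ (by positivity)
      apply mul_le_mul e1 _ (by positivity) (by linarith)
      have : (0 : ℝ) ≤ l := Nat.cast_nonneg _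
      linarith
    linarith
  have h4 := mul_le_mul_of_nonneg_left hbr hg0
  have h5 : (g : ℝ) ≤ LT := by linarith
  rw [hLT] at h5
  exact h5

/-- **ROW N'**: the parameters and the final bound, with an absolute constant -/
theorem xda_final : ∃ C : ℝ, 1 ≤ C ∧ ∀ (k n : ℕ) (ta : ℝ) (S w w0 : ℕ), 1 ≤ ta → 2 ≤ S →
    1 ≤ w → 1 ≤ w0 →
    ∃ (θ : ℝ) (kb l : ℕ) (X Y : ℕ → ℝ), 0 < θ ∧ θ < 1 ∧ 1 ≤ kb ∧
      4 * ((kb + l : ℕ) : ℝ) ^ 2 * 2 ^ (1 / θ) ≤ 2 ^ l ∧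
      4 * ((kb + l : ℕ) : ℝ) ^ 2 * 2 ^ (1 / (1 - θ)) ≤ 2 ^ l ∧
      X 0 = 1 ∧ Y 0 = 1 ∧ (∀ i, 0 < X i) ∧ (∀ i, 0 < Y i) ∧
      (∀ d ≤ n, ∀ i ≤ 2 * k, NumD d (S * (d + 1) ^ (8 * (w0 + w) + 16)) (2 ^ (1 / θ))
        (2 ^ (1 / (1 - θ))) (X i) (Y i) (X (i + 1)) (Y (i + 1))) ∧
      ((∀ g : ℕ, 1 ≤ g → 1 + g * ((kb + l) * 2 ^ l) ≤ n → ∃ r E : ℕ, r + E = kb + l ∧
          (2 ^ (1 / θ) : ℝ) ^ r ≤ 2 ^ (kb + l) ∧
          (2 ^ (1 / (1 - θ)) : ℝ) ^ E ≤ 2 ^ (1 / (1 - θ)) * 2 ^ (kb + l) ∧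
          (2 : ℝ) ^ (g * kb) ≤ (4 * (r + 1) * (E + 1)) ^ g *
            (ta * (((g * (kb + l) : ℕ) + 1 : ℝ) ^ 16
            * (X (2 * k + 1) ^ (g * r) * Y (2 * k + 1) ^ (g * E))))) →
        (n : ℝ) ≤ C * Real.log (2 * n * ta) * (C * (Real.log S + (w + w0) * Real.log (2 * n))) ^
          (3 * (Nat.fib (2 * k + 4) - 2) + 1)) := by
  obtain ⟨C, hC⟩ : ∃ C : ℝ, C = 20 * (512 * (128 ^ 3 * 64 * 27)) := ⟨_, rfl⟩
  have hC1 : (3150 : ℝ) ≤ C := by rw [hC]; norm_num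
  refine ⟨C, by linarith, ?_⟩
  intro k n ta S w w0 hta hS hw hw0
  obtain ⟨p, hp⟩ : ∃ p : ℕ, p = Nat.fib (2 * k + 4) - 2 := ⟨_, rfl⟩
  have hp1 : 1 ≤ p := by
    have h1 : Nat.fib 4 ≤ Nat.fib (2 * k + 4) := Nat.fib_mono (by omega)
    have h2 : Nat.fib 4 = 3 := rfl
    omega
  have hSr : (2 : ℝ) ≤ S := by exact_mod_cast hS
  have hl2 := log_two_gt_d9
  have hlS : log 2 ≤ log S := log_le_log (by norm_num) hSr
  obtain ⟨κ, hκ⟩ : ∃ κ : ℝ, κ = S * (n + 1 : ℝ) ^ (16 * (w + w0)) := ⟨_, rfl⟩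
  have hn1 : (1 : ℝ) ≤ n + 1 := by
    have : (0 : ℝ) ≤ n := Nat.cast_nonneg _
    linarith
  have hκ1 : 1 ≤ κ := by
    rw [hκ]
    have := one_le_pow₀ (n := 16 * (w + w0)) hn1
    nlinarith
  have hlκ : log κ = log S + 16 * (w + w0) * log (n + 1) := by
    rw [hκ, log_mul (by positivity) (by positivity), log_pow]
    push_cast
    ring
  obtain ⟨σ, hσ⟩ : ∃ σ : ℕ, σ = ⌈2 * log κ⌉₊ := ⟨_, rfl⟩
  have hlκ0 : 0.6931 < log κ := by
    rw [hlκ]
    have : 0 ≤ (16 : ℝ) * (w + w0) * log (n + 1) :=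
      mul_nonneg (by positivity) (log_nonneg hn1)
    linarith
  have hσ1 : 2 * log κ ≤ σ := by rw [hσ]; exact Nat.le_ceil _
  have hσ2 : (σ : ℝ) ≤ 2 * log κ + 1 := by
    rw [hσ]
    exact (Nat.ceil_lt_add_one (by linarith)).le
  have hσ0 : 1 ≤ σ := by
    have : (0 : ℝ) < σ := by linarith
    have : 0 < σ := by exact_mod_cast this
    omega
  obtain ⟨A, B, s, X, Y, hs, hB, hBA, hA2, hsA, hX0, hY0, hXp, hYp, hch, hXL, hYL⟩ :=
    growth_chain (2 * k + 1) σ (by omega) hσ0 κ hκ1 (by linarith)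
  rw [show 2 * k + 1 + 3 = 2 * k + 4 by ring, ← hp] at hsA
  have hA : 1 ≤ A := hB.trans hBA
  have hAr : (1 : ℝ) ≤ A := by exact_mod_cast hA
  have hBr : (1 : ℝ) ≤ B := by exact_mod_cast hB
  have hBAr : (B : ℝ) ≤ A := by exact_mod_cast hBA
  have hA2r : (A : ℝ) ≤ 2 * B := by exact_mod_cast hA2
  obtain ⟨N, hN⟩ : ∃ N, N = s * A := ⟨_, rfl⟩
  have hN1 : 1 ≤ N := by rw [hN]; exact Nat.mul_pos hs hA
  have hNr : ((s : ℝ) * A) = N := by rw [hN]; push_cast; rfl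
  rw [← hN] at hsA
  rw [hNr] at hXL hYL
  obtain ⟨Lg, hLg⟩ : ∃ Lg, Lg = Nat.log 2 N + 1 := ⟨_, rfl⟩
  obtain ⟨kb, hkb⟩ : ∃ kb, kb = 128 * N * Lg := ⟨_, rfl⟩
  have hkb15 : 15 ≤ kb := by
    have h1 : 1 ≤ N * Lg := Nat.mul_pos hN1 (by omega)
    rw [hkb, mul_assoc]
    omega
  obtain ⟨l, hl1, hl3, hl4⟩ := exists_l hkb15
  obtain ⟨t, ht⟩ : ∃ t : ℝ, t = log 2 * (((A : ℝ) + B) / B) := ⟨_, rfl⟩
  obtain ⟨θ, hθ⟩ : ∃ θ : ℝ, θ = (B : ℝ) / (A + B) := ⟨_, rfl⟩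
  have hAB0 : (0 : ℝ) < A + B := by linarith
  have hθ0 : 0 < θ := by rw [hθ]; positivity
  have hθ1 : θ < 1 := by
    rw [hθ, div_lt_one hAB0]
    linarith
  have hθi : 1 / θ = ((A : ℝ) + B) / B := by
    rw [hθ, one_div_div]
  have h1θ : 1 - θ = (A : ℝ) / (A + B) := by
    rw [hθ]
    field_simp
    ring
  have h1θi : 1 / (1 - θ) = ((A : ℝ) + B) / A := by
    rw [h1θ, one_div_div]
  have hHU : (2 : ℝ) ^ (1 / θ) = exp t := by
    rw [rpow_def_of_pos (by norm_num), hθi, ht]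
  have hHV : (2 : ℝ) ^ (1 / (1 - θ)) = exp (t * ((B : ℝ) / A)) := by
    rw [rpow_def_of_pos (by norm_num), h1θi, ht]
    congr 1
    field_simp
  have ht1 : 1 ≤ t := by
    have h1 : (2 : ℝ) ≤ ((A : ℝ) + B) / B := by
      rw [le_div_iff₀ (by linarith)]
      linarith
    have h2 := mul_le_mul_of_nonneg_left h1 (show (0 : ℝ) ≤ log 2 by linarith)
    rw [ht]
    linarith
  have hHU8 : (2 : ℝ) ^ (1 / θ) ≤ 8 := by
    rw [hθi]
    have h1 : ((A : ℝ) + B) / B ≤ 3 := by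
      rw [div_le_iff₀ (by linarith)]
      linarith
    calc (2 : ℝ) ^ (((A : ℝ) + B) / B) ≤ 2 ^ (3 : ℝ) := rpow_le_rpow_of_exponent_le (by norm_num) h1
      _ = 8 := by norm_num
  have hHV8 : (2 : ℝ) ^ (1 / (1 - θ)) ≤ 8 := by
    rw [h1θi]
    have h1 : ((A : ℝ) + B) / A ≤ 3 := by
      rw [div_le_iff₀ (by linarith)]
      linarith
    calc (2 : ℝ) ^ (((A : ℝ) + B) / A) ≤ 2 ^ (3 : ℝ) := rpow_le_rpow_of_exponent_le (by norm_num) h1
      _ = 8 := by norm_num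
  have hside : ∀ H : ℝ, H ≤ 8 → 4 * ((kb + l : ℕ) : ℝ) ^ 2 * H ≤ 2 ^ l := by
    intro H hH
    have h1 : ((kb + l : ℕ) : ℝ) ≤ 2 * kb := by
      have : (l : ℝ) ≤ kb := by exact_mod_cast hl1
      push_cast
      linarith
    have h2 : ((kb + l : ℕ) : ℝ) ^ 2 ≤ (2 * kb) ^ 2 := pow_le_pow_left₀ (Nat.cast_nonneg _) h1 2
    have h3 : (128 : ℝ) * kb ^ 2 ≤ 2 ^ l := by exact_mod_cast hl3
    calc 4 * ((kb + l : ℕ) : ℝ) ^ 2 * H ≤ 4 * ((kb + l : ℕ) : ℝ) ^ 2 * 8 :=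
          mul_le_mul_of_nonneg_left hH (by positivity)
      _ ≤ 128 * (kb : ℝ) ^ 2 := by
          have : (2 * (kb : ℝ)) ^ 2 = 4 * kb ^ 2 := by ring
          linarith
      _ ≤ _ := h3
  refine ⟨θ, kb, l, fun i => X i ^ t, fun i => Y i ^ t, hθ0, hθ1, by omega, hside _ hHU8,
    hside _ hHV8, ?_, ?_, fun i => rpow_pos_of_pos (hXp i) _, fun i => rpow_pos_of_pos (hYp i) _,
    ?_, ?_⟩
  · show X 0 ^ t = 1
    rw [hX0, one_rpow]
  · show Y 0 ^ t = 1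
    rw [hY0, one_rpow]
  · intro d hd i hi
    have h1 := numAll_rpow (exp_pos 1).le (exp_pos _).le hκ1 (hXp i).le (hYp i).le
      (hXp (i + 1)).le (hYp (i + 1)).le ht1 (hch i (by omega))
    rw [← exp_one_rpow t] at hHU
    rw [mul_comm, exp_mul] at hHV
    rw [← hHU, ← hHV] at h1
    intro b e hbe _
    rcases h1 b e hbe with h2 | h2 | h2
    · exact Or.inr (Or.inl h2)
    · exact Or.inl h2
    · refine Or.inr (Or.inr (le_trans ?_ h2))
      apply mul_le_mul_of_nonneg_right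
      · rw [hκ]
        apply mul_le_mul_of_nonneg_left _ (Nat.cast_nonneg _)
        have h3 : ((d : ℝ) + 1) ≤ n + 1 := by
          have : (d : ℝ) ≤ n := by exact_mod_cast hd
          linarith
        have h4 : (0 : ℝ) ≤ (d : ℝ) + 1 := by positivity
        calc ((d : ℝ) + 1) ^ (8 * (w0 + w) + 16) ≤ ((n : ℝ) + 1) ^ (8 * (w0 + w) + 16) :=
              pow_le_pow_left₀ h4 h3 _
          _ ≤ ((n : ℝ) + 1) ^ (16 * (w + w0)) := pow_le_pow_right₀ hn1 (by omega)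
      · have h3 := rpow_pos_of_pos (hXp i) t
        have h4 := rpow_pos_of_pos (hYp i) t
        positivity
  intro hg
  rcases Nat.eq_zero_or_pos n with hn0 | hn0
  · subst hn0
    simp
  have hnr : (1 : ℝ) ≤ n := by exact_mod_cast hn0
  have hlT : 0 ≤ log ta := log_nonneg hta
  obtain ⟨Λ, hΛ⟩ : ∃ Λ : ℝ, Λ = log S + (w + w0) * log (2 * n) := ⟨_, rfl⟩
  have hl2n : log 2 ≤ log (2 * n) := log_le_log (by norm_num) (by linarith)
  have hln : log (n + 1) ≤ log (2 * n) := log_le_log (by linarith) (by linarith)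
  have hww : (2 : ℝ) ≤ w + w0 := by
    have h1 : (1 : ℝ) ≤ w := by exact_mod_cast hw
    have h2 : (1 : ℝ) ≤ w0 := by exact_mod_cast hw0
    linarith
  have hwl : 2 * log 2 ≤ (w + w0) * log (2 * n) :=
    mul_le_mul hww hl2n (by linarith) (by linarith)
  have hΛ1 : 1 ≤ Λ := by rw [hΛ]; linarith
  have hlκΛ : log κ ≤ 17 * Λ := by
    rw [hlκ, hΛ]
    have h1 : (16 : ℝ) * ((w + w0) * log (n + 1)) ≤ 16 * ((w + w0) * log (2 * n)) :=
      mul_le_mul_of_nonneg_left (mul_le_mul_of_nonneg_left hln (by linarith)) (by norm_num)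
    have h3 : 0 ≤ ((w : ℝ) + w0) * log (2 * n) := by linarith
    linarith
  have hσΛ : (σ : ℝ) ≤ 35 * Λ := by linarith
  obtain ⟨m, hm⟩ : ∃ m, m = kb + l := ⟨_, rfl⟩
  -- the number of chunks
  obtain ⟨M, hM⟩ : ∃ M : ℕ, M = (kb + l) * 2 ^ l := ⟨_, rfl⟩
  have hM1 : 1 ≤ M := by
    rw [hM]
    exact Nat.mul_pos (by omega) (by positivity)
  obtain ⟨g, hgd⟩ : ∃ g : ℕ, g = (n - 1) / M := ⟨_, rfl⟩
  have hgle : (g : ℝ) ≤ log ta + 16 * log (2 * n) := by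
    rcases Nat.eq_zero_or_pos g with hg0 | hg0
    · rw [hg0, Nat.cast_zero]
      linarith
    · have hgn : 1 + g * M ≤ n := by
        have := Nat.div_mul_le_self (n - 1) M
        rw [← hgd] at this
        omega
      have hgn' := hgn
      rw [hM] at hgn'
      obtain ⟨r, E, hrE, hr, hE, hineq⟩ := hg g hg0 hgn'
      rw [hHU] at hr
      rw [hHV] at hE
      have hineq' : (2 : ℝ) ^ (g * kb) ≤ (4 * (r + 1) * (E + 1)) ^ g *
        (ta * (((g * (kb + l) : ℕ) + 1 : ℝ) ^ 16 * (exp (t * (1 / 2 - 1 / (4 * N))) ^ (g * r) *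
          exp (t * ((B : ℝ) / A / 2 - 1 / (4 * N))) ^ (g * E)))) := by
        have e1 : X (2 * k + 1) ^ t = exp (t * (1 / 2 - 1 / (4 * N))) := by
          rw [hXL, ← exp_mul, mul_comm]
        have e2 : Y (2 * k + 1) ^ t = exp (t * ((B : ℝ) / A / 2 - 1 / (4 * N))) := by
          rw [hYL, ← exp_mul, mul_comm]
        rw [← e1, ← e2]
        exact hineq
      have h1 := g_le_xda hN1 hB hBA ht hta hkb15 hl1 hl4 (kb_large hN1 hLg hkb) hrE hr hE hineq'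
      have h2 : ((g * (kb + l) : ℕ) + 1 : ℝ) ≤ 2 * n := by
        have h3 : g * (kb + l) ≤ n := by
          calc g * (kb + l) = g * ((kb + l) * 1) := by ring
            _ ≤ g * ((kb + l) * 2 ^ l) :=
              Nat.mul_le_mul_left _ (Nat.mul_le_mul_left _ (Nat.one_le_two_pow))
            _ = g * M := by rw [hM]
            _ ≤ n := by omega
        have h4 : ((g * (kb + l) : ℕ) : ℝ) ≤ n := by exact_mod_cast h3
        linarith
      have h3 : log ((g * (kb + l) : ℕ) + 1 : ℝ) ≤ log (2 * n) := log_le_log (by positivity) h2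
      linarith
  have hnle : (n : ℝ) ≤ (g + 2) * M := by
    have h1 := Nat.div_add_mod (n - 1) M
    have h2 := Nat.mod_lt (n - 1) (show 0 < M by omega)
    rw [← hgd] at h1
    have h3 : n ≤ (g + 2) * M := by
      have : (g + 2) * M = M * g + 2 * M := by ring
      omega
    exact_mod_cast h3
  have hMle : (M : ℝ) ≤ 512 * (kb : ℝ) ^ 3 := by
    have h1 : M ≤ (2 * kb) * (256 * kb ^ 2) := by
      rw [hM]
      exact Nat.mul_le_mul (by omega) hl4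
    have h2 : (M : ℝ) ≤ (2 * kb) * (256 * kb ^ 2) := by exact_mod_cast h1
    linarith [show (2 * (kb : ℝ)) * (256 * kb ^ 2) = 512 * kb ^ 3 by ring]
  have hkb3 := kb_le hN1 hLg hp1 hσ0 hkb hsA
  have h90 : (90 * (σ : ℝ)) ^ (3 * p + 1) ≤ (C * Λ) ^ (3 * p + 1) := by
    apply pow_le_pow_left₀ (by positivity)
    calc 90 * (σ : ℝ) ≤ 90 * (35 * Λ) := by linarith
      _ = 3150 * Λ := by ring
      _ ≤ C * Λ := mul_le_mul_of_nonneg_right hC1 (by linarith)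
  have hlog : log (2 * n * ta) = log (2 * n) + log ta := log_mul (by positivity) (by linarith)
  rw [← hΛ, hlog, ← hp]
  have h1 : (g : ℝ) + 2 ≤ 20 * (log (2 * n) + log ta) := by linarith
  have h2 : (M : ℝ) ≤ 512 * (128 ^ 3 * 64 * 27) * (C * Λ) ^ (3 * p + 1) := by
    calc (M : ℝ) ≤ 512 * (kb : ℝ) ^ 3 := hMle
      _ ≤ 512 * (128 ^ 3 * 64 * 27 * (90 * (σ : ℝ)) ^ (3 * p + 1)) :=
          mul_le_mul_of_nonneg_left hkb3 (by norm_num)
      _ ≤ 512 * (128 ^ 3 * 64 * 27 * (C * Λ) ^ (3 * p + 1)) :=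
          mul_le_mul_of_nonneg_left (mul_le_mul_of_nonneg_left h90 (by norm_num)) (by norm_num)
      _ = _ := by ring
  calc (n : ℝ) ≤ (g + 2) * M := hnle
    _ ≤ (20 * (log (2 * n) + log ta)) * (512 * (128 ^ 3 * 64 * 27) * (C * Λ) ^ (3 * p + 1)) := by
      apply mul_le_mul h1 h2 (Nat.cast_nonneg _)
      exact mul_nonneg (by norm_num) (by linarith)
    _ = (20 * (512 * (128 ^ 3 * 64 * 27))) * (log (2 * n) + log ta) * (C * Λ) ^ (3 * p + 1) := by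
      ring
    _ = _ := by rw [← hC]

end Pool.XDA
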