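import Pool.Agent.XDA.Core
import Pool.Agent.XDA.Num
import Pool.Agent.CDep.Assembly

/-!
# Exponential lower bounds for constant depth over every field (XDA): the theorem
-/

set_option autoImplicit false

namespace Pool.XDA

open Finset Pool.XD Pool.CD Pool.CDep Pool.Agent.Helper87.D3 Pool.Agent.Helper41.CD

/-- **EXPONENTIAL LOWER BOUNDS FOR CONSTANT DEPTH OVER EVERY FIELD**: if the permanent, up to a
polynomial whose coefficients have valuation less than one, is a sum of `T` products of `S`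
polynomials of the class `Cls w0 w S k`, then `T` or `S` or `w` or `w0` is exponentially large. -/
theorem xda : ∃ C : ℝ, 1 ≤ C ∧
    ∀ (F Γ : Type) [Field F] [LinearOrderedCommGroupWithZero Γ] (v : Valuation F Γ)
      (k n T S w w0 : ℕ) (f : Fin T → Fin S → MvPolynomial (Fin n × Fin n) F),
      2 ≤ S → 1 ≤ w → 1 ≤ w0 → (∀ i j, f i j ∈ Cls w0 w S k) →
      (∀ m, v (MvPolynomial.coeff m ((∑ i, ∏ j, f i j) - permP n F)) < 1) →
      (n : ℝ) ≤ C * Real.log (2 * n * T) * (C * (Real.log S + (w + w0) * Real.log (2 * n))) ^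
        (3 * (Nat.fib (2 * k + 4) - 2) + 1) := by
  obtain ⟨C, hC, hfin⟩ := xda_final
  refine ⟨C, hC, ?_⟩
  intro F Γ _ _ v k n T S w w0 f hS hw hw0 hf hcl
  have hT : (1 : ℝ) ≤ T := by exact_mod_cast T_pos v f hcl
  obtain ⟨θ, kb, l, X, Y, h0, h1, hkb, hlU, hlV, hX0, hY0, hX, hY, hnum, h⟩ :=
    hfin k n T S w w0 hT hS hw hw0
  refine h fun g hg hgn => ?_
  have hgm : g * (kb + l) ≤ n := by
    have h2 : 1 ≤ 2 ^ l := Nat.one_le_two_pow
    have h3 : g * (kb + l) ≤ g * ((kb + l) * 2 ^ l) :=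
      Nat.mul_le_mul_left _ (Nat.le_mul_of_pos_right _ h2)
    omega
  exact core v f (by omega) hw hw0 hf hcl hkb h0 h1 hlU hlV hgn hX hY hX0 hY0
    fun i hi => hnum (g * (kb + l)) hgm i hi

end Pool.XDA
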