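import Pool.Agent.XDA.Defs
import Pool.Agent.XD.Measure

/-!
# Isolated entries of the matrix of a sparse code (XDA, row C')
-/

set_option autoImplicit false

namespace Pool.XDA

open Finset Pool.XD

section contain

variable {L : Type} [Fintype L] [DecidableEq L] (ty : L → Bool)

/-- the number of the exponent vectors which contain a set of letters of one type -/
theorem card_contain (a b : ℕ) (J : Finset L) (c : Bool) (hJ : ∀ l ∈ J, ty l = c) {H : ℝ}
    (hH : 1 ≤ H) (hU : c = true → H * a ≤ nU ty + a - 1) (hV : c = false → H * b ≤ nV ty + b - 1) :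
    ((univ.filter fun δ : Box ty a b => ∀ l ∈ J, 1 ≤ δ.1 l).card : ℝ) * H ^ J.card ≤
      Fintype.card (Box ty a b) := by
  cases c with
  | true =>
    have hsum : ∀ δ : L → ℕ, (∀ l ∈ J, 1 ≤ δ l) →
        (∑ l, if ty l then (if l ∈ J then δ l - 1 else δ l) else 0) + J.card =
          ∑ l, if ty l then δ l else 0 := by
      intro δ hδ
      have h1 : J.card = ∑ l : L, if l ∈ J then 1 else 0 := by
        rw [← sum_filter, filter_mem_eq_inter, univ_inter, card_eq_sum_ones]
      rw [h1, ← sum_add_distrib]
      refine sum_congr rfl fun l _ => ?_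
      by_cases h2 : l ∈ J
      · have h3 := hδ l h2
        rw [if_pos (hJ l h2), if_pos h2, if_pos h2, if_pos (hJ l h2)]
        omega
      · rw [if_neg h2, if_neg h2, add_zero]
    rcases Nat.lt_or_ge a J.card with hlt | hge
    · have h1 : (univ.filter fun δ : Box ty a b => ∀ l ∈ J, 1 ≤ δ.1 l) = ∅ := by
        rw [filter_eq_empty_iff]
        intro δ _ hδ
        have h2 := hsum δ.1 hδ
        rw [δ.2.1] at h2
        omega
      rw [h1, card_empty, Nat.cast_zero, zero_mul]
      exact Nat.cast_nonneg _
    · have h1 : (univ.filter fun δ : Box ty a b => ∀ l ∈ J, 1 ≤ δ.1 l).card ≤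
          Fintype.card (Box ty (a - J.card) b) := by
        rw [← Fintype.card_subtype]
        refine Fintype.card_le_of_injective (fun δ : {δ : Box ty a b // ∀ l ∈ J, 1 ≤ δ.1 l} =>
          (⟨fun l => if l ∈ J then δ.1.1 l - 1 else δ.1.1 l, ?_, ?_⟩ : Box ty (a - J.card) b)) ?_
        · have h2 := (hsum δ.1.1 δ.2).trans δ.1.2.1
          exact Nat.eq_sub_of_add_eq h2
        · refine Eq.trans ?_ δ.1.2.2
          refine sum_congr rfl fun l _ => ?_
          by_cases h2 : l ∈ J
          · rw [if_pos (hJ l h2), if_pos (hJ l h2)]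
          · simp only [if_neg h2]
        · intro δ δ' h2
          apply Subtype.ext
          apply Subtype.ext
          funext l
          have h3 := congrFun (congrArg Subtype.val h2) l
          simp only at h3
          by_cases h4 : l ∈ J
          · rw [if_pos h4, if_pos h4] at h3
            have h5 := δ.2 l h4
            have h6 := δ'.2 l h4
            omega
          · rwa [if_neg h4, if_neg h4] at h3
      have h2 := mc_sub hH (hU rfl) J.card hge
      rw [card_box] at h1
      rw [card_box]
      have h3 : ((univ.filter fun δ : Box ty a b => ∀ l ∈ J, 1 ≤ δ.1 l).card : ℝ) ≤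
          (nU ty).multichoose (a - J.card) * (nV ty).multichoose b := by exact_mod_cast h1
      calc ((univ.filter fun δ : Box ty a b => ∀ l ∈ J, 1 ≤ δ.1 l).card : ℝ) * H ^ J.card
          ≤ ((nU ty).multichoose (a - J.card) * (nV ty).multichoose b) * H ^ J.card :=
            mul_le_mul_of_nonneg_right h3 (by positivity)
        _ = ((nU ty).multichoose (a - J.card) * H ^ J.card) * (nV ty).multichoose b := by ring
        _ ≤ (nU ty).multichoose a * (nV ty).multichoose b :=
            mul_le_mul_of_nonneg_right h2 (Nat.cast_nonneg _)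
        _ = _ := by push_cast; ring
  | false =>
    have hJ' : ∀ l ∈ J, ¬ ty l = true := fun l hl => by
      rw [hJ l hl]
      simp
    have hsum : ∀ δ : L → ℕ, (∀ l ∈ J, 1 ≤ δ l) →
        (∑ l, if ty l then 0 else (if l ∈ J then δ l - 1 else δ l)) + J.card =
          ∑ l, if ty l then 0 else δ l := by
      intro δ hδ
      have h1 : J.card = ∑ l : L, if l ∈ J then 1 else 0 := by
        rw [← sum_filter, filter_mem_eq_inter, univ_inter, card_eq_sum_ones]
      rw [h1, ← sum_add_distrib]
      refine sum_congr rfl fun l _ => ?_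
      by_cases h2 : l ∈ J
      · have h3 := hδ l h2
        rw [if_neg (hJ' l h2), if_pos h2, if_pos h2, if_neg (hJ' l h2)]
        omega
      · rw [if_neg h2, if_neg h2, add_zero]
    rcases Nat.lt_or_ge b J.card with hlt | hge
    · have h1 : (univ.filter fun δ : Box ty a b => ∀ l ∈ J, 1 ≤ δ.1 l) = ∅ := by
        rw [filter_eq_empty_iff]
        intro δ _ hδ
        have h2 := hsum δ.1 hδ
        rw [δ.2.2] at h2
        omega
      rw [h1, card_empty, Nat.cast_zero, zero_mul]
      exact Nat.cast_nonneg _
    · have h1 : (univ.filter fun δ : Box ty a b => ∀ l ∈ J, 1 ≤ δ.1 l).card ≤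
          Fintype.card (Box ty a (b - J.card)) := by
        rw [← Fintype.card_subtype]
        refine Fintype.card_le_of_injective (fun δ : {δ : Box ty a b // ∀ l ∈ J, 1 ≤ δ.1 l} =>
          (⟨fun l => if l ∈ J then δ.1.1 l - 1 else δ.1.1 l, ?_, ?_⟩ : Box ty a (b - J.card))) ?_
        · refine Eq.trans ?_ δ.1.2.1
          refine sum_congr rfl fun l _ => ?_
          by_cases h2 : l ∈ J
          · rw [if_neg (hJ' l h2), if_neg (hJ' l h2)]
          · simp only [if_neg h2]
        · have h2 := (hsum δ.1.1 δ.2).trans δ.1.2.2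
          exact Nat.eq_sub_of_add_eq h2
        · intro δ δ' h2
          apply Subtype.ext
          apply Subtype.ext
          funext l
          have h3 := congrFun (congrArg Subtype.val h2) l
          simp only at h3
          by_cases h4 : l ∈ J
          · rw [if_pos h4, if_pos h4] at h3
            have h5 := δ.2 l h4
            have h6 := δ'.2 l h4
            omega
          · rwa [if_neg h4, if_neg h4] at h3
      have h2 := mc_sub hH (hV rfl) J.card hge
      rw [card_box] at h1
      rw [card_box]
      have h3 : ((univ.filter fun δ : Box ty a b => ∀ l ∈ J, 1 ≤ δ.1 l).card : ℝ) ≤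
          (nU ty).multichoose a * (nV ty).multichoose (b - J.card) := by exact_mod_cast h1
      calc ((univ.filter fun δ : Box ty a b => ∀ l ∈ J, 1 ≤ δ.1 l).card : ℝ) * H ^ J.card
          ≤ ((nU ty).multichoose a * (nV ty).multichoose (b - J.card)) * H ^ J.card :=
            mul_le_mul_of_nonneg_right h3 (by positivity)
        _ = (nU ty).multichoose a * ((nV ty).multichoose (b - J.card) * H ^ J.card) := by ring
        _ ≤ (nU ty).multichoose a * (nV ty).multichoose b :=
            mul_le_mul_of_nonneg_left h2 (Nat.cast_nonneg _)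
        _ = _ := by push_cast; ring

end contain

section good

variable {L W : Type} [Fintype L] [DecidableEq L] [DecidableEq W] (ty : L → Bool)
  (S : W → Finset L)

open Classical in
/-- few exponent vectors are bad for a word -/
theorem card_bad (a b : ℕ) (c : Bool) (s : W) {H : ℝ} (hH : 1 ≤ H)
    (hU : c = true → H * a ≤ nU ty + a - 1) (hV : c = false → H * b ≤ nV ty + b - 1)
    (hs : Sparse ty S c H) :
    ((univ.filter fun δ : Box ty a b => ¬ Gd ty S c s δ.1).card : ℝ) ≤
      1 / 4 * Fintype.card (Box ty a b) := by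
  obtain ⟨𝒥, h1, h2, h3⟩ := hs s
  have hsub : (univ.filter fun δ : Box ty a b => ¬ Gd ty S c s δ.1) ⊆
      𝒥.biUnion fun J => univ.filter fun δ : Box ty a b => ∀ l ∈ J, 1 ≤ δ.1 l := by
    intro δ hδ
    have h4 := (mem_filter.1 hδ).2
    rw [Gd] at h4
    push Not at h4
    obtain ⟨s', hs', h5⟩ := h4
    obtain ⟨J, hJ, h6⟩ := h1 s' hs'
    rw [mem_biUnion]
    refine ⟨J, hJ, mem_filter.2 ⟨mem_univ _, fun l hl => ?_⟩⟩
    obtain ⟨h7, h8, h9⟩ := h6 l hl
    have := h5 l h7 h8 h9
    omega
  have h4 : ((univ.filter fun δ : Box ty a b => ¬ Gd ty S c s δ.1).card : ℝ) ≤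
      ∑ J ∈ 𝒥, ((univ.filter fun δ : Box ty a b => ∀ l ∈ J, 1 ≤ δ.1 l).card : ℝ) := by
    exact_mod_cast (card_le_card hsub).trans card_biUnion_le
  refine h4.trans ?_
  calc ∑ J ∈ 𝒥, ((univ.filter fun δ : Box ty a b => ∀ l ∈ J, 1 ≤ δ.1 l).card : ℝ)
      ≤ ∑ J ∈ 𝒥, (H ^ J.card)⁻¹ * Fintype.card (Box ty a b) := by
        refine sum_le_sum fun J hJ => ?_
        have h5 := card_contain ty a b J c (h2 J hJ) hH hU hV
        have h6 : (0 : ℝ) < H ^ J.card := by positivity
        rw [inv_mul_eq_div, le_div_iff₀ h6]
        exact h5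
    _ = (∑ J ∈ 𝒥, (H ^ J.card)⁻¹) * Fintype.card (Box ty a b) := (sum_mul _ _ _).symm
    _ ≤ 1 / 4 * Fintype.card (Box ty a b) :=
        mul_le_mul_of_nonneg_right h3 (Nat.cast_nonneg _)

open Classical in
/-- most exponent vectors are good for a word -/
theorem card_good (a b : ℕ) (s : W) {HU HV : ℝ} (hHU : 1 ≤ HU) (hHV : 1 ≤ HV)
    (hU : HU * a ≤ nU ty + a - 1) (hV : HV * b ≤ nV ty + b - 1)
    (hsU : Sparse ty S true HU) (hsV : Sparse ty S false HV) :
    (Fintype.card (Box ty a b) : ℝ) / 2 ≤
      ((univ.filter fun δ : Box ty a b => Gd ty S true s δ.1 ∧ Gd ty S false s δ.1).card : ℝ) := by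
  have h1 := card_bad ty S a b true s hHU (fun _ => hU) (fun h => absurd h (by simp)) hsU
  have h2 := card_bad ty S a b false s hHV (fun h => absurd h (by simp)) (fun _ => hV) hsV
  have h3 : (univ : Finset (Box ty a b)) ⊆
      (univ.filter fun δ : Box ty a b => Gd ty S true s δ.1 ∧ Gd ty S false s δ.1) ∪
      ((univ.filter fun δ : Box ty a b => ¬ Gd ty S true s δ.1) ∪
      (univ.filter fun δ : Box ty a b => ¬ Gd ty S false s δ.1)) := by
    intro δ _
    simp only [mem_union, mem_filter, mem_univ, true_and]
    tauto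
  have h4 : Fintype.card (Box ty a b) ≤
      (univ.filter fun δ : Box ty a b => Gd ty S true s δ.1 ∧ Gd ty S false s δ.1).card +
      ((univ.filter fun δ : Box ty a b => ¬ Gd ty S true s δ.1).card +
      (univ.filter fun δ : Box ty a b => ¬ Gd ty S false s δ.1).card) := by
    rw [← card_univ]
    exact (card_le_card h3).trans ((card_union_le _ _).trans
      (Nat.add_le_add_left (card_union_le _ _) _))
  have h5 : (Fintype.card (Box ty a b) : ℝ) ≤
      ((univ.filter fun δ : Box ty a b => Gd ty S true s δ.1 ∧ Gd ty S false s δ.1).card : ℝ) +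
      (((univ.filter fun δ : Box ty a b => ¬ Gd ty S true s δ.1).card : ℝ) +
      ((univ.filter fun δ : Box ty a b => ¬ Gd ty S false s δ.1).card : ℝ)) := by
    exact_mod_cast h4
  linarith

end good

section iso

variable {g : ℕ} {L W : Type} [Fintype L] [DecidableEq L] [Fintype W] [DecidableEq W]
  (ty : L → Bool) (S : W → Finset L)

theorem cmon_ap (s : Fin g → W) (i : Fin g) (l : L) :
    cmon S s (i, l) = if l ∈ S (s i) then 1 else 0 := by
  rw [cmon, Finsupp.finsetSum_apply, sum_eq_single i]
  · rw [Finsupp.finsetSum_apply]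
    split_ifs with h
    · rw [sum_eq_single l]
      · simp
      · intro l' _ hne
        rw [Finsupp.single_apply, if_neg]
        intro h2
        exact hne (Prod.mk.inj h2).2
      · intro h2
        exact absurd h h2
    · refine sum_eq_zero fun l' hl' => ?_
      rw [Finsupp.single_apply, if_neg]
      intro h2
      rw [(Prod.mk.inj h2).2] at hl'
      exact h hl'
  · intro i' _ hne
    rw [Finsupp.finsetSum_apply]
    refine sum_eq_zero fun l' _ => ?_
    rw [Finsupp.single_apply, if_neg]
    intro h2
    exact hne (Prod.mk.inj h2).1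
  · intro h
    exact absurd (mem_univ i) h

/-- `δ` and the letters of type `c` of a word -/
def plus (c : Bool) (s : W) (δ : L → ℕ) (l : L) : ℕ := δ l + if l ∈ S s ∧ ty l = c then 1 else 0

theorem plus_sum (c : Bool) (s : W) (δ : L → ℕ) :
    (∑ l, if ty l then plus ty S c s δ l else 0) = (∑ l, if ty l then δ l else 0) +
      (if c = true then ((S s).filter fun l => ty l = true).card else 0) ∧
    (∑ l, if ty l then 0 else plus ty S c s δ l) = (∑ l, if ty l then 0 else δ l) +
      (if c = false then ((S s).filter fun l => ty l = false).card else 0) := by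
  have hc : ∀ c' : Bool, ((S s).filter fun l => ty l = c').card =
      ∑ l : L, if l ∈ S s ∧ ty l = c' then 1 else 0 := by
    intro c'
    rw [← sum_filter, ← card_eq_sum_ones]
    congr 1
    ext l
    simp
  constructor
  · have h1 : (if c = true then ((S s).filter fun l => ty l = true).card else 0) =
        ∑ l : L, if ty l then (if l ∈ S s ∧ ty l = c then 1 else 0) else 0 := by
      cases c with
      | true =>
        rw [if_pos rfl, hc]
        refine sum_congr rfl fun l _ => ?_
        by_cases h2 : ty l = true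
        · rw [if_pos h2]
        · rw [if_neg h2, if_neg fun h3 => h2 h3.2]
      | false =>
        rw [if_neg (by simp)]
        symm
        refine sum_eq_zero fun l _ => ?_
        by_cases h2 : ty l = true
        · rw [if_pos h2, if_neg]
          rintro ⟨-, h3⟩
          rw [h2] at h3
          exact absurd h3 (by simp)
        · rw [if_neg h2]
    rw [h1, ← sum_add_distrib]
    refine sum_congr rfl fun l _ => ?_
    by_cases h2 : ty l = true
    · rw [if_pos h2, if_pos h2, if_pos h2, plus]
    · rw [if_neg h2, if_neg h2, if_neg h2]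
  · have h1 : (if c = false then ((S s).filter fun l => ty l = false).card else 0) =
        ∑ l : L, if ty l then 0 else (if l ∈ S s ∧ ty l = c then 1 else 0) := by
      cases c with
      | false =>
        rw [if_pos rfl, hc]
        refine sum_congr rfl fun l _ => ?_
        by_cases h2 : ty l = true
        · rw [if_pos h2, if_neg]
          rintro ⟨-, h3⟩
          rw [h2] at h3
          exact absurd h3 (by simp)
        · rw [if_neg h2]
      | true =>
        rw [if_neg (by simp)]
        symm
        refine sum_eq_zero fun l _ => ?_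
        by_cases h2 : ty l = true
        · rw [if_pos h2]
        · rw [if_neg h2, if_neg fun h3 => h2 h3.2]
    rw [h1, ← sum_add_distrib]
    refine sum_congr rfl fun l _ => ?_
    by_cases h2 : ty l = true
    · rw [if_pos h2, if_pos h2, if_pos h2]
    · rw [if_neg h2, if_neg h2, if_neg h2, plus]

open Classical in
/-- **isolated entries** -/
theorem exists_iso {LU LV r E : ℕ} {HU HV : ℝ} (hr : r ≤ LU)
    (hcU : ∀ s, ((S s).filter fun l => ty l = true).card = r)
    (hcV : ∀ s, ((S s).filter fun l => ty l = false).card = E)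
    (hHU : 1 ≤ HU) (hHV : 1 ≤ HV)
    (hU : HU * LU ≤ nU ty + LU - 1) (hV : HV * LV ≤ nV ty + LV - 1)
    (hsU : Sparse ty S true HU) (hsV : Sparse ty S false HV) (C : Finset (Fin g → W)) :
    ∃ (I : Type) (_ : Fintype I) (_ : DecidableEq I) (R : I → Fin g → Box ty LU LV)
      (Q : I → Fin g → Box ty (LU - r) (LV + E)) (w : I → Fin g → W),
      (∀ i, w i ∈ C) ∧
      (C.card : ℝ) * (((nU ty).multichoose (LU - r) * (nV ty).multichoose LV : ℕ) / 2 : ℝ) ^ g ≤
        Fintype.card I ∧
      (∀ i i' (s : Fin g → W), Adm (cty ty g) (glu fun j => (R i j).1) (glu fun j => (Q i' j).1) →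
        gap (cty ty g) (glu fun j => (R i j).1) (glu fun j => (Q i' j).1) = cmon S s → i = i') ∧
      (∀ i, Adm (cty ty g) (glu fun j => (R i j).1) (glu fun j => (Q i j).1) ∧
        gap (cty ty g) (glu fun j => (R i j).1) (glu fun j => (Q i j).1) = cmon S (w i)) := by
  set Gs : W → Finset (Box ty (LU - r) LV) := fun s => univ.filter fun δ : Box ty (LU - r) LV =>
    Gd ty S true s δ.1 ∧ Gd ty S false s δ.1 with hGs
  have hHU' : HU * (LU - r : ℕ) ≤ nU ty + (LU - r : ℕ) - 1 := by
    rw [Nat.cast_sub hr]
    have h1 : (0 : ℝ) ≤ (HU - 1) * r := mul_nonneg (by linarith) (Nat.cast_nonneg _)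
    nlinarith
  have hgood : ∀ s, (Fintype.card (Box ty (LU - r) LV) : ℝ) / 2 ≤ ((Gs s).card : ℝ) := fun s =>
    card_good ty S (LU - r) LV s hHU hHV hHU' hV hsU hsV
  set P : Finset ((Fin g → W) × (Fin g → Box ty (LU - r) LV)) :=
    univ.filter fun p => p.1 ∈ C ∧ ∀ i, p.2 i ∈ Gs (p.1 i) with hP
  have hPm : ∀ p ∈ P, p.1 ∈ C ∧ ∀ i, Gd ty S true (p.1 i) (p.2 i).1 ∧
      Gd ty S false (p.1 i) (p.2 i).1 := by
    intro p hp
    obtain ⟨h1, h2⟩ := (mem_filter.1 hp).2
    exact ⟨h1, fun i => (mem_filter.1 (h2 i)).2⟩
  refine ⟨P, inferInstance, inferInstance,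
    fun p i => ⟨plus ty S true (p.1.1 i) (p.1.2 i).1, ?_, ?_⟩,
    fun p i => ⟨plus ty S false (p.1.1 i) (p.1.2 i).1, ?_, ?_⟩, fun p => p.1.1,
    fun p => (hPm p.1 p.2).1, ?_, ?_, ?_⟩
  · rw [(plus_sum ty S true _ _).1, if_pos rfl, (p.1.2 i).2.1, hcU]
    omega
  · rw [(plus_sum ty S true _ _).2, if_neg (by simp), (p.1.2 i).2.2, add_zero]
  · rw [(plus_sum ty S false _ _).1, if_neg (by simp), (p.1.2 i).2.1, add_zero]
  · rw [(plus_sum ty S false _ _).2, if_pos rfl, (p.1.2 i).2.2, hcV]
  · rw [Fintype.card_coe]
    have h1 : P.card = ∑ s ∈ C, ∏ i, (Gs (s i)).card := by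
      rw [hP, card_filter, Fintype.sum_prod_type]
      rw [← sum_filter_add_sum_filter_not univ (fun s : Fin g → W => s ∈ C)]
      have h2 : ∑ s ∈ univ.filter (fun s : Fin g → W => ¬ s ∈ C),
          ∑ δ : Fin g → Box ty (LU - r) LV,
            (if (s, δ).1 ∈ C ∧ ∀ i, (s, δ).2 i ∈ Gs ((s, δ).1 i) then 1 else 0) = 0 := by
        refine sum_eq_zero fun s hs => sum_eq_zero fun δ _ => ?_
        rw [if_neg]
        rintro ⟨h3, -⟩
        exact (mem_filter.1 hs).2 h3
      rw [h2, add_zero, filter_mem_eq_inter, univ_inter]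
      refine sum_congr rfl fun s hs => ?_
      rw [← Fintype.card_piFinset, ← card_filter]
      congr 1
      ext δ
      simp only [mem_filter, mem_univ, true_and, Fintype.mem_piFinset]
      exact ⟨fun h3 => h3.2, fun h3 => ⟨hs, h3⟩⟩
    rw [h1]
    push_cast
    rw [← nsmul_eq_mul, ← sum_const]
    refine sum_le_sum fun s _ => ?_
    have h3 : (((nU ty).multichoose (LU - r) * (nV ty).multichoose LV : ℕ) / 2 : ℝ) ^ g =
        ∏ _i : Fin g, ((Fintype.card (Box ty (LU - r) LV) : ℝ) / 2) := by
      rw [prod_const, card_univ, Fintype.card_fin, card_box]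
    push_cast at h3
    rw [h3]
    exact prod_le_prod (fun i _ => by positivity) fun i _ => hgood (s i)
  · intro p p' s hadm hgap
    have hg := fun (i : Fin g) (l : L) => (gap_apply (cty ty g) _ _ (i, l)).symm.trans
      ((DFunLike.congr_fun hgap (i, l)).trans (cmon_ap S s i l))
    have ha := fun (i : Fin g) (l : L) => hadm (i, l)
    simp only [cty, glu, plus] at hg ha
    have hs1 : ∀ i, s i = p.1.1 i := by
      intro i
      by_contra hne
      obtain ⟨l, h1, h2, h3, h4⟩ := ((hPm p.1 p.2).2 i).1 (s i) hne
      have h5 := hg i l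
      rw [if_pos h2, if_pos h1, h4, if_neg fun h6 => h3 h6.1] at h5
      omega
    have hs2 : ∀ i, s i = p'.1.1 i := by
      intro i
      by_contra hne
      obtain ⟨l, h1, h2, h3, h4⟩ := ((hPm p'.1 p'.2).2 i).2 (s i) hne
      have h5 := hg i l
      have h2' : ¬ ty l = true := by rw [h2]; simp
      rw [if_neg h2', if_pos h1, h4, if_neg fun h6 => h3 h6.1] at h5
      omega
    apply Subtype.ext
    apply Prod.ext
    · funext i
      rw [← hs1 i, hs2 i]
    · funext i
      apply Subtype.ext
      funext l
      have h5 := hg i l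
      have h6 := ha i l
      rw [← hs1 i, ← hs2 i] at h5 h6
      have n1 : (true = false) = False := by simp
      have n2 : (false = true) = False := by simp
      cases h7 : ty l <;> by_cases h9 : l ∈ S (s i) <;>
        simp only [h7, h9, n1, n2, if_true, if_false, and_true, and_false, true_and, false_and]
          at h5 h6 <;> omega
  · intro p
    have n1 : (true = false) = False := by simp
    have n2 : (false = true) = False := by simp
    constructor
    · rintro ⟨i, l⟩
      simp only [cty, glu, plus]
      cases h7 : ty l <;> by_cases h9 : l ∈ S (p.1.1 i) <;>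
        simp only [h9, n1, n2, if_true, if_false, and_true, and_false] <;> omega
    · ext ⟨i, l⟩
      rw [gap_apply, cmon_ap]
      simp only [cty, glu, plus]
      cases h7 : ty l <;> by_cases h9 : l ∈ S (p.1.1 i) <;>
        simp only [h9, n1, n2, if_true, if_false, and_true, and_false] <;> omega

end iso

end Pool.XDA
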