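import Pool.Agent.XDA.Defs

/-!
# XDA: the words

`ltS_card`: the number of the letters of a type of a word. `ltS_sparse`: the code is sparse.
-/

set_option autoImplicit false

namespace Pool.XDA

open Finset Pool.XD

section

variable {k l : ℕ}

theorem mem_ltS {t : Fin k → Bool} {x : Lt k l} : x ∈ ltS l t ↔ x.2 = win l t x.1 := by
  unfold ltS
  rw [mem_image]
  constructor
  · rintro ⟨j, -, rfl⟩
    rfl
  · intro h
    exact ⟨x.1, mem_univ _, by rw [← h]⟩

theorem ltS_card (τ : ℕ → Bool) (b : Bool) (t : Fin k → Bool) :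
    ((ltS l t).filter fun x => lty τ x = b).card = cnt τ b 0 (k + l) := by
  have h1 : (ltS l t).filter (fun x => lty τ x = b) =
      (univ.filter fun j : Fin (k + l) => τ j = b).image
        fun j : Fin (k + l) => ((j, win l t j) : Lt k l) := by
    ext x
    rw [mem_filter, mem_ltS, mem_image]
    constructor
    · rintro ⟨h2, h3⟩
      exact ⟨x.1, mem_filter.2 ⟨mem_univ _, h3⟩, by rw [← h2]⟩
    · rintro ⟨j, hj, rfl⟩
      exact ⟨rfl, (mem_filter.1 hj).2⟩
  rw [h1, card_image_of_injective _ fun i j h => (Prod.mk.inj h).1]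
  unfold cnt
  have h2 : (Ico 0 (k + l)).filter (fun j => τ j = b) =
      (univ.filter fun j : Fin (k + l) => τ j = b).image fun j : Fin (k + l) => (j : ℕ) := by
    ext j
    rw [mem_filter, mem_Ico, mem_image]
    constructor
    · rintro ⟨h2, h3⟩
      exact ⟨⟨j, h2.2⟩, mem_filter.2 ⟨mem_univ _, h3⟩, rfl⟩
    · rintro ⟨i, hi, rfl⟩
      exact ⟨⟨Nat.zero_le _, i.2⟩, (mem_filter.1 hi).2⟩
  rw [h2, card_image_of_injective _ Fin.val_injective]

/-- the word with the bits in `u` flipped -/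
def flp (s : Fin k → Bool) (u : Finset ℕ) : Fin k → Bool :=
  fun i => if i.1 ∈ u then !s i else s i

/-- the letters of type `b` in the blocks `a, ..., c + l` of the word `s` -/
def Jset (l : ℕ) (τ : ℕ → Bool) (b : Bool) (s : Fin k → Bool) (a c : ℕ) : Finset (Lt k l) :=
  (univ.filter fun j : Fin (k + l) => a ≤ j.1 ∧ j.1 ≤ c + l ∧ τ j = b).image
    fun j : Fin (k + l) => ((j, win l s j) : Lt k l)

theorem mem_Jset {τ : ℕ → Bool} {b : Bool} {s : Fin k → Bool} {a c : ℕ} {x : Lt k l} :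
    x ∈ Jset l τ b s a c ↔ (a ≤ x.1.1 ∧ x.1.1 ≤ c + l ∧ τ x.1 = b) ∧ x.2 = win l s x.1 := by
  unfold Jset
  rw [mem_image]
  constructor
  · rintro ⟨j, hj, rfl⟩
    exact ⟨(mem_filter.1 hj).2, rfl⟩
  · rintro ⟨h1, h2⟩
    exact ⟨x.1, mem_filter.2 ⟨mem_univ _, h1⟩, by rw [← h2]⟩

theorem card_Jset {τ : ℕ → Bool} {b : Bool} {s : Fin k → Bool} {a c : ℕ} (hc : c < k) :
    (Jset l τ b s a c).card = cnt τ b a (c + l + 1) := by
  unfold Jset cnt
  rw [card_image_of_injective _ fun i j h => (Prod.mk.inj h).1]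
  have h2 : (Ico a (c + l + 1)).filter (fun j => τ j = b) =
      (univ.filter fun j : Fin (k + l) => a ≤ j.1 ∧ j.1 ≤ c + l ∧ τ j = b).image
        fun j : Fin (k + l) => (j : ℕ) := by
    ext j
    rw [mem_filter, mem_Ico, mem_image]
    constructor
    · rintro ⟨h2, h3⟩
      exact ⟨⟨j, by omega⟩, mem_filter.2 ⟨mem_univ _, h2.1, Nat.lt_succ_iff.1 h2.2, h3⟩, rfl⟩
    · rintro ⟨i, hi, rfl⟩
      obtain ⟨-, h3, h4, h5⟩ := mem_filter.1 hi
      exact ⟨⟨h3, by omega⟩, h5⟩
  rw [h2, card_image_of_injective _ Fin.val_injective]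

theorem win_congr {s t : Fin k → Bool} {j : ℕ}
    (h : ∀ i, i ≤ j → j ≤ i + l → bit s i = bit t i) : win l s j = win l t j := by
  funext c
  unfold win
  split_ifs with hc
  · exact h _ (Nat.sub_le _ _) (by have := c.2; omega)
  · rfl

theorem win_ne {s t : Fin k → Bool} {j i : ℕ} (h1 : i ≤ j) (h2 : j ≤ i + l)
    (h : bit s i ≠ bit t i) : win l s j ≠ win l t j := by
  intro h3
  apply h
  have h4 := congrFun h3 ⟨j - i, by omega⟩
  unfold win at h4
  rw [if_pos (Nat.sub_le _ _), if_pos (Nat.sub_le _ _)] at h4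
  have h5 : j - (j - i) = i := by omega
  simp only [h5] at h4
  exact h4

theorem bit_flp (s : Fin k → Bool) (u : Finset ℕ) (i : ℕ) :
    bit (flp s u) i = if i ∈ u ∧ i < k then !bit s i else bit s i := by
  unfold bit flp
  by_cases h : i < k
  · simp [h]
  · simp [h]

/-- the first cluster of differing positions -/
theorem exists_cluster {s s' : Fin k → Bool} (hne : s' ≠ s) : ∃ a c : ℕ, a ≤ c ∧ c < k ∧
    (∀ i, i < a → bit s' i = bit s i) ∧ (∀ i, c < i → i ≤ c + l → bit s' i = bit s i) ∧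
    (∀ j, a ≤ j → j ≤ c + l → ∃ i, i ≤ j ∧ j ≤ i + l ∧ bit s' i ≠ bit s i) := by
  classical
  have hD : ∃ i, bit s' i ≠ bit s i := by
    by_contra hcon
    push Not at hcon
    apply hne
    funext i
    have h := hcon i.1
    unfold bit at h
    rw [dif_pos i.2, dif_pos i.2] at h
    exact h
  have hlt : ∀ i, bit s' i ≠ bit s i → i < k := by
    intro i hi
    by_contra hik
    apply hi
    unfold bit
    rw [dif_neg hik, dif_neg hik]
  set a := Nat.find hD with ha
  have ha1 : bit s' a ≠ bit s a := Nat.find_spec hD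
  have ha2 : ∀ i, i < a → bit s' i = bit s i := fun i hi => by
    by_contra hcon
    exact Nat.find_min hD hi hcon
  have hC : ∃ p, bit s' p ≠ bit s p ∧ ∀ i, p < i → i ≤ p + l → bit s' i = bit s i := by
    by_contra hcon
    push Not at hcon
    have h1 : ∀ n, ∃ p, n ≤ p ∧ bit s' p ≠ bit s p := by
      intro n
      induction n with
      | zero => exact ⟨a, Nat.zero_le _, ha1⟩
      | succ n ih =>
        obtain ⟨p, hp1, hp2⟩ := ih
        obtain ⟨i, hi1, -, hi2⟩ := hcon p hp2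
        exact ⟨i, by omega, hi2⟩
    obtain ⟨p, hp1, hp2⟩ := h1 k
    exact absurd (hlt p hp2) (by omega)
  set c := Nat.find hC with hc
  obtain ⟨hc1, hc2⟩ := Nat.find_spec hC
  rw [← hc] at hc1 hc2
  have hc3 : ∀ p, p < c → bit s' p ≠ bit s p → ∃ i, p < i ∧ i ≤ p + l ∧ bit s' i ≠ bit s i := by
    intro p hp hp2
    have h := Nat.find_min hC hp
    push Not at h
    exact h hp2
  refine ⟨a, c, ?_, hlt c hc1, ha2, hc2, ?_⟩
  · by_contra hac
    exact hc1 (ha2 c (by omega))
  · intro j haj hjc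
    -- the last difference before `j`
    set P : ℕ → Prop := fun p => bit s' p ≠ bit s p with hP
    have hP1 : P a := ha1
    set p := Nat.findGreatest P j with hp
    have hp1 : P p := Nat.findGreatest_spec haj hP1
    have hp2 : p ≤ j := Nat.findGreatest_le j
    have hp3 : ∀ i, p < i → i ≤ j → ¬P i := fun i h1 h2 => Nat.findGreatest_is_greatest h1 h2
    refine ⟨p, hp2, ?_, hp1⟩
    rcases Nat.lt_or_ge p c with h | h
    · obtain ⟨i, hi1, hi2, hi3⟩ := hc3 p h hp1
      by_contra hcon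
      exact hp3 i hi1 (by omega) hi3
    · omega

theorem ltS_sparse (τ : ℕ → Bool) (b : Bool) {H : ℝ} (hH : 1 ≤ H) (hb : Bal τ b H)
    (hl : 4 * (k : ℝ) ^ 2 * H ≤ 2 ^ l) : Sparse (lty τ) (ltS (k := k) l) b H := by
  classical
  intro s
  set T : Finset (Σ _ : ℕ × ℕ, Finset ℕ) :=
    ((range k ×ˢ range k).filter fun p => p.1 ≤ p.2).sigma
      fun p => (Icc p.1 p.2).powerset with hT
  set F : (Σ _ : ℕ × ℕ, Finset ℕ) → Finset (Lt k l) :=
    fun x => Jset l τ b (flp s x.2) x.1.1 x.1.2 with hF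
  have hH0 : (0 : ℝ) < H := by linarith
  refine ⟨T.image F, ?_, ?_, ?_⟩
  · intro s' hne
    obtain ⟨a, c, hac, hck, h1, h2, h3⟩ := exists_cluster (l := l) hne
    set u := (Icc a c).filter fun i => bit s' i ≠ bit s i with hu
    refine ⟨F ⟨(a, c), u⟩, mem_image_of_mem F ?_, ?_⟩
    · rw [hT, mem_sigma, mem_filter, mem_product, mem_range, mem_range, mem_powerset]
      exact ⟨⟨⟨lt_of_le_of_lt hac hck, hck⟩, hac⟩, filter_subset _ _⟩
    · intro x hx
      obtain ⟨⟨h4, h5, h6⟩, h7⟩ := mem_Jset.1 hx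
      have h8 : win l (flp s u) x.1 = win l s' x.1 := by
        refine win_congr fun i hi1 hi2 => ?_
        have hmem : i ∈ u ↔ (a ≤ i ∧ i ≤ c) ∧ bit s' i ≠ bit s i := by
          rw [hu, mem_filter, mem_Icc]
        rw [bit_flp]
        by_cases h9 : bit s' i = bit s i
        · rw [if_neg (fun h => (hmem.1 h.1).2 h9), h9]
        · have h10 : a ≤ i := by
            by_contra hcon
            exact h9 (h1 i (by omega))
          have h11 : i ≤ c := by
            by_contra hcon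
            simp only at h5
            exact h9 (h2 i (by omega) (by omega))
          rw [if_pos ⟨hmem.2 ⟨⟨h10, h11⟩, h9⟩, by omega⟩]
          cases h12 : bit s' i <;> cases h13 : bit s i <;> simp_all
      obtain ⟨i, hi1, hi2, hi3⟩ := h3 x.1.1 h4 h5
      refine ⟨?_, h6, ?_⟩
      · rw [mem_ltS, h7, h8]
      · rw [mem_ltS, h7, h8]
        exact win_ne hi1 hi2 hi3
  · intro J hJ x hx
    obtain ⟨y, -, rfl⟩ := mem_image.1 hJ
    exact (mem_Jset.1 hx).1.2.2
  · have e1 : ∑ J ∈ T.image F, (H ^ J.card)⁻¹ ≤ ∑ x ∈ T, (H ^ (F x).card)⁻¹ := by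
      refine sum_image_le_of_nonneg fun x _ => ?_
      positivity
    refine e1.trans ?_
    rw [hT, sum_sigma]
    have e2 : ∀ p ∈ (range k ×ˢ range k).filter (fun p : ℕ × ℕ => p.1 ≤ p.2),
        ∑ u ∈ (Icc p.1 p.2).powerset, (H ^ (F ⟨p, u⟩).card)⁻¹ ≤ H / 2 ^ l := by
      intro p hp
      rw [mem_filter, mem_product, mem_range, mem_range] at hp
      have e3 : ∀ u ∈ (Icc p.1 p.2).powerset, (H ^ (F ⟨p, u⟩).card)⁻¹ ≤
          H / 2 ^ (p.2 + l + 1 - p.1) := by
        intro u _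
        rw [hF]
        simp only
        rw [card_Jset hp.1.2]
        have e4 := hb p.1 (p.2 + l + 1) (by omega)
        rw [inv_le_iff_one_le_mul₀ (by positivity), div_mul_eq_mul_div,
          le_div_iff₀ (by positivity), one_mul]
        exact e4
      refine (sum_le_sum e3).trans (le_of_eq ?_)
      rw [sum_const, card_powerset, Nat.card_Icc, nsmul_eq_mul]
      have e5 : p.2 + l + 1 - p.1 = (p.2 + 1 - p.1) + l := by omega
      rw [e5, pow_add]
      push_cast
      field_simp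
    refine (sum_le_sum e2).trans ?_
    rw [sum_const, nsmul_eq_mul]
    have e6 : ((((range k ×ˢ range k).filter fun p : ℕ × ℕ => p.1 ≤ p.2).card : ℕ) : ℝ) ≤
        (k : ℝ) ^ 2 := by
      have e7 := card_filter_le (range k ×ˢ range k) fun p : ℕ × ℕ => p.1 ≤ p.2
      rw [card_product, card_range] at e7
      have e8 : ((((range k ×ˢ range k).filter fun p : ℕ × ℕ => p.1 ≤ p.2).card : ℕ) : ℝ) ≤
          ((k * k : ℕ) : ℝ) := by exact_mod_cast e7
      refine e8.trans (le_of_eq ?_)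
      push_cast
      ring
    have e9 : (0 : ℝ) < 2 ^ l := by positivity
    calc _ ≤ (k : ℝ) ^ 2 * (H / 2 ^ l) :=
          mul_le_mul_of_nonneg_right e6 (by positivity)
      _ = (4 * (k : ℝ) ^ 2 * H) / (4 * 2 ^ l) := by field_simp
      _ ≤ 2 ^ l / (4 * 2 ^ l) := by
          gcongr
      _ = 1 / 4 := by field_simp

end

end Pool.XDA
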